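import Pool.Agent.TH553.ST.Ext2
import Pool.Agent.TH553.ST.PW2
import Pool.Agent.TH553.ST.Pair2
import Pool.Agent.TH553.ST.Joint

set_option autoImplicit false
set_option linter.unusedSectionVars false

/-!
# Complex means along ultrafilters, and functions which agree in the mean
-/

namespace Pool.Agent.HX6.GO

open Complex Filter Topology ComplexConjugate NumberField IsDedekindDomain MeasureTheory
  Pool.Agent.W540.BE Pool.Agent.TH553.RS Pool.Agent.TH553.ST Pool.Agent.H341R2

section mean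

variable {P : Type*} {N : P → ℕ} {U : Ultrafilter ℝ}

theorem Bc.im {t : P → ℂ} (h : Bc t) : Bd fun p => (t p).im := by
  obtain ⟨C, hC⟩ := h
  exact ⟨C, fun p => (Complex.abs_im_le_norm _).trans (hC p)⟩

theorem Bc.neg {t : P → ℂ} (h : Bc t) : Bc fun p => -t p := by
  obtain ⟨C, hC⟩ := h
  exact ⟨C, fun p => by rw [norm_neg]; exact hC p⟩

theorem Bc.sub {t c : P → ℂ} (h : Bc t) (h' : Bc c) : Bc fun p => t p - c p := by
  simpa [sub_eq_add_neg] using h.add (Bc.neg h')

theorem Bc.sum {κ : Type*} (K : Finset κ) {φ : κ → P → ℂ} (h : ∀ k ∈ K, Bc (φ k)) :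
    Bc fun p => ∑ k ∈ K, φ k p := by
  classical
  induction K using Finset.induction_on with
  | empty => simpa using Bc.const (P := P) 0
  | insert a K ha ih =>
    simp only [Finset.sum_insert ha]
    exact (h a (Finset.mem_insert_self _ _)).add
      (ih fun k hk => h k (Finset.mem_insert_of_mem hk))

/-- the complex mean -/
noncomputable def Mc (N : P → ℕ) (U : Ultrafilter ℝ) (f : P → ℂ) : ℂ :=
  ((M N U fun p => (f p).re : ℝ) : ℂ) + ((M N U fun p => (f p).im : ℝ) : ℂ) * I

theorem Mc_re (f : P → ℂ) : (Mc N U f).re = M N U fun p => (f p).re := by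
  unfold Mc
  simp

theorem Mc_im (f : P → ℂ) : (Mc N U f).im = M N U fun p => (f p).im := by
  unfold Mc
  simp

variable (hN : Sys N) (hU : (U : Filter ℝ) ≤ 𝓝[>] 0)
include hN hU

theorem Mc_add {f g : P → ℂ} (hf : Bc f) (hg : Bc g) :
    Mc N U (fun p => f p + g p) = Mc N U f + Mc N U g := by
  apply Complex.ext
  · rw [Mc_re, Complex.add_re, Mc_re, Mc_re]
    exact M_add hN hU hf.re hg.re
  · rw [Mc_im, Complex.add_im, Mc_im, Mc_im]
    exact M_add hN hU (Bc.im hf) (Bc.im hg)

theorem Mc_const_mul {f : P → ℂ} (hf : Bc f) (c : ℂ) :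
    Mc N U (fun p => c * f p) = c * Mc N U f := by
  apply Complex.ext
  · rw [Mc_re, Complex.mul_re, Mc_re, Mc_im]
    simp only [Complex.mul_re]
    rw [M_sub hN hU (hf.re.const_mul _) ((Bc.im hf).const_mul _), M_const_mul hN hU hf.re,
      M_const_mul hN hU (Bc.im hf)]
  · rw [Mc_im, Complex.mul_im, Mc_re, Mc_im]
    simp only [Complex.mul_im]
    rw [M_add hN hU ((Bc.im hf).const_mul _) (hf.re.const_mul _), M_const_mul hN hU hf.re,
      M_const_mul hN hU (Bc.im hf)]

theorem Mc_sum {κ : Type*} (K : Finset κ) {φ : κ → P → ℂ} (h : ∀ k ∈ K, Bc (φ k)) :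
    Mc N U (fun p => ∑ k ∈ K, φ k p) = ∑ k ∈ K, Mc N U (φ k) := by
  classical
  induction K using Finset.induction_on with
  | empty =>
    simp only [Finset.sum_empty]
    apply Complex.ext
    · rw [Mc_re]
      simpa using M_const hN hU (P := P) 0
    · rw [Mc_im]
      simpa using M_const hN hU (P := P) 0
  | insert a K ha ih =>
    simp only [Finset.sum_insert ha]
    rw [Mc_add hN hU (h a (Finset.mem_insert_self _ _))
      (Bc.sum K fun k hk => h k (Finset.mem_insert_of_mem hk)),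
      ih fun k hk => h k (Finset.mem_insert_of_mem hk)]

theorem M_zero_of_abs_le {φ ψ : P → ℝ} (hφ : Bd φ) (hψ : Bd ψ) (h : ∀ p, |φ p| ≤ ψ p)
    (h1 : M N U ψ = 0) : M N U φ = 0 := by
  have h2 := M_mono hN hU hφ hψ fun p => (le_abs_self _).trans (h p)
  have h3 := M_mono hN hU hφ.neg hψ fun p => (neg_le_abs _).trans (h p)
  rw [M_neg hN hU hφ] at h3
  linarith

omit hN hU in
/-- the functions agree in the mean -/
def Cl (N : P → ℕ) (U : Ultrafilter ℝ) (f g : P → ℂ) : Prop := (M N U fun p => ‖f p - g p‖) = 0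

theorem Cl.of_le {f g f' g' : P → ℂ} (hf : Bc f) (hg : Bc g) (hf' : Bc f') (hg' : Bc g') {C : ℝ}
    (h : ∀ p, ‖f' p - g' p‖ ≤ C * ‖f p - g p‖) (h1 : Cl N U f g) : Cl N U f' g' := by
  unfold Cl at *
  refine M_zero_of_abs_le hN hU (Bc.sub hf' hg').norm ((Bc.sub hf hg).norm.const_mul C)
    (fun p => by rw [abs_norm]; exact h p) ?_
  rw [M_const_mul hN hU (Bc.sub hf hg).norm, h1, mul_zero]

theorem Cl.refl (f : P → ℂ) : Cl N U f f := by
  unfold Cl
  simp only [sub_self, norm_zero]
  exact M_const hN hU 0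

omit hN hU in
theorem Cl.symm {f g : P → ℂ} (h1 : Cl N U f g) : Cl N U g f := by
  unfold Cl at *
  rw [← h1]
  congr 1
  funext p
  exact norm_sub_rev _ _

theorem Cl.trans {f g h : P → ℂ} (hf : Bc f) (hg : Bc g) (hh : Bc h) (h1 : Cl N U f g)
    (h2 : Cl N U g h) : Cl N U f h := by
  unfold Cl at *
  refine M_zero_of_abs_le hN hU (Bc.sub hf hh).norm ((Bc.sub hf hg).norm.add (Bc.sub hg hh).norm)
    (fun p => by
      rw [abs_norm]
      have : f p - h p = (f p - g p) + (g p - h p) := by ring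
      rw [this]
      exact norm_add_le _ _) ?_
  rw [M_add hN hU (Bc.sub hf hg).norm (Bc.sub hg hh).norm, h1, h2, add_zero]

theorem Cl.add {f g f' g' : P → ℂ} (hf : Bc f) (hg : Bc g) (hf' : Bc f') (hg' : Bc g')
    (h1 : Cl N U f g) (h2 : Cl N U f' g') :
    Cl N U (fun p => f p + f' p) fun p => g p + g' p := by
  unfold Cl at *
  refine M_zero_of_abs_le hN hU (Bc.sub (hf.add hf') (hg.add hg')).norm
    ((Bc.sub hf hg).norm.add (Bc.sub hf' hg').norm)
    (fun p => by
      rw [abs_norm]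
      have : f p + f' p - (g p + g' p) = (f p - g p) + (f' p - g' p) := by ring
      rw [this]
      exact norm_add_le _ _) ?_
  rw [M_add hN hU (Bc.sub hf hg).norm (Bc.sub hf' hg').norm, h1, h2, add_zero]

theorem Cl.mul_right {f g h : P → ℂ} (hf : Bc f) (hg : Bc g) (hh : Bc h)
    (h1 : Cl N U f g) : Cl N U (fun p => f p * h p) fun p => g p * h p := by
  have hh' := hh
  obtain ⟨C, hC⟩ := hh
  refine Cl.of_le hN hU hf hg (hf.mul hh') (hg.mul hh') (C := C) (fun p => ?_) h1
  rw [← sub_mul, norm_mul, mul_comm]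
  exact mul_le_mul_of_nonneg_right (hC p) (norm_nonneg _)

theorem Cl.mul {f g f' g' : P → ℂ} (hf : Bc f) (hg : Bc g) (hf' : Bc f') (hg' : Bc g')
    (h1 : Cl N U f g) (h2 : Cl N U f' g') :
    Cl N U (fun p => f p * f' p) fun p => g p * g' p := by
  refine Cl.trans hN hU (hf.mul hf') (hg.mul hf') (hg.mul hg')
    (Cl.mul_right hN hU hf hg hf' h1) ?_
  have h3 := Cl.mul_right hN hU hf' hg' hg h2
  simp only [mul_comm _ (g _)] at h3
  exact h3

theorem Cl.conj {f g : P → ℂ} (h1 : Cl N U f g) :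
    Cl N U (fun p => conj (f p)) fun p => conj (g p) := by
  unfold Cl at *
  rw [← h1]
  congr 1
  funext p
  rw [← map_sub, Complex.norm_conj]

theorem Cl.const_mul {f g : P → ℂ} (hf : Bc f) (hg : Bc g) (h1 : Cl N U f g) (c : ℂ) :
    Cl N U (fun p => c * f p) fun p => c * g p := by
  refine Cl.of_le hN hU hf hg ((Bc.const c).mul hf) ((Bc.const c).mul hg) (C := ‖c‖)
    (fun p => ?_) h1
  rw [← mul_sub, norm_mul]

/-- functions which agree in the mean have the same mean -/
theorem Cl.mean {f g : P → ℂ} (hf : Bc f) (hg : Bc g) (h1 : Cl N U f g) :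
    Mc N U f = Mc N U g := by
  apply Complex.ext
  · rw [Mc_re, Mc_re]
    have h2 : (M N U fun p => (f p).re - (g p).re) = 0 := by
      refine M_zero_of_abs_le hN hU (hf.re.sub hg.re) (Bc.sub hf hg).norm (fun p => ?_) h1
      rw [← Complex.sub_re]
      exact Complex.abs_re_le_norm _
    rw [M_sub hN hU hf.re hg.re] at h2
    linarith
  · rw [Mc_im, Mc_im]
    have h2 : (M N U fun p => (f p).im - (g p).im) = 0 := by
      refine M_zero_of_abs_le hN hU ((Bc.im hf).sub (Bc.im hg)) (Bc.sub hf hg).norm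
        (fun p => ?_) h1
      rw [← Complex.sub_im]
      exact Complex.abs_im_le_norm _
    rw [M_sub hN hU (Bc.im hf) (Bc.im hg)] at h2
    linarith

theorem Mc_conj {f : P → ℂ} (hf : Bc f) : Mc N U (fun p => conj (f p)) = conj (Mc N U f) := by
  apply Complex.ext
  · rw [Mc_re, Complex.conj_re, Mc_re]
    simp only [Complex.conj_re]
  · rw [Mc_im, Complex.conj_im, Mc_im]
    simp only [Complex.conj_im]
    exact M_neg hN hU (Bc.im hf)

end mean

section law

variable {K : Type} [Field K] [NumberField K]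
variable {G : Type} [Group G] [TopologicalSpace G] [IsTopologicalGroup G] [CompactSpace G]
  [MeasurableSpace G] [BorelSpace G] {μ : Measure G} [IsProbabilityMeasure μ] [μ.IsHaarMeasure]

theorem bc_cont {f : G → ℂ} (hf : Continuous f) (x : HeightOneSpectrum (𝓞 K) → G) :
    Bc fun v => f (x v) := by
  obtain ⟨C, hC⟩ := (isCompact_univ (X := G)).exists_bound_of_continuousOn hf.continuousOn
  exact ⟨C, fun v => hC _ (Set.mem_univ _)⟩

/-- the mean of a class function -/
theorem Mc_law {x : HeightOneSpectrum (𝓞 K) → G} (hx : Law x μ) {U : Ultrafilter ℝ}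
    (hU : (U : Filter ℝ) ≤ 𝓝[>] 0) {f : G → ℂ} (hf : Continuous f)
    (hcl : ∀ g h, f (h * g * h⁻¹) = f g) : Mc (nm K) U (fun v => f (x v)) = ∫ g, f g ∂μ := by
  have h1 := M_law hx hU (f := fun g => (f g).re) (Complex.continuous_re.comp hf)
    fun g h => by rw [hcl]
  have h2 := M_law hx hU (f := fun g => (f g).im) (Complex.continuous_im.comp hf)
    fun g h => by rw [hcl]
  unfold Mc
  rw [h1, h2]
  have h5 := integral_re_add_im (𝕜 := ℂ) (intg (μ := μ) hf)
  simpa using h5

end law

end Pool.Agent.HX6.GO
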