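import Pool.Agent.HX6.GO.A

set_option autoImplicit false
set_option linter.unusedSectionVars false

/-!
# Integrals of representations, and class functions with real coefficients
-/

namespace Pool.Agent.HX6.GO

open Complex Filter Topology ComplexConjugate NumberField IsDedekindDomain MeasureTheory
  Pool.Agent.TH553.RS Pool.Agent.TH553.ST
open scoped Matrix Kronecker

section

variable {G : Type} [Group G] [TopologicalSpace G] [IsTopologicalGroup G] [CompactSpace G]
  [MeasurableSpace G] [BorelSpace G] {μ : Measure G} [IsProbabilityMeasure μ] [μ.IsHaarMeasure]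
variable {ι : Type} [Fintype ι] [DecidableEq ι]

/-- the entries of the integral of a representation -/
noncomputable def pr (μ : Measure G) (T : G →* Matrix.unitaryGroup ι ℂ) (i j : ι) : ℂ :=
  ∫ g, (T g : Matrix ι ι ℂ) i j ∂μ

theorem cont_entry {T : G →* Matrix.unitaryGroup ι ℂ} (hT : Continuous T) (i j : ι) :
    Continuous fun g => (T g : Matrix ι ι ℂ) i j :=
  (continuous_subtype_val.comp hT).matrix_elem i j

theorem pr_sum {T : G →* Matrix.unitaryGroup ι ℂ} (hT : Continuous T) (j k : ι) :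
    ∑ i, conj (pr μ T i j) * pr μ T i k = pr μ T j k := by
  have h1 : ∀ g : G, ∑ i, conj ((T g : Matrix ι ι ℂ) i j) * pr μ T i k = pr μ T j k := by
    intro g
    have h2 : ∀ h : G, (T (g⁻¹ * h) : Matrix ι ι ℂ) j k =
        ∑ i, conj ((T g : Matrix ι ι ℂ) i j) * (T h : Matrix ι ι ℂ) i k := by
      intro h
      rw [pi_mulG, pi_invG, Matrix.mul_apply]
      rfl
    have h3 : pr μ T j k = ∫ h, (T (g⁻¹ * h) : Matrix ι ι ℂ) j k ∂μ :=
      (integral_mul_left_eq_self (fun h => (T h : Matrix ι ι ℂ) j k) g⁻¹).symm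
    rw [h3]
    simp only [h2]
    rw [integral_finsetSum _ fun i _ => (intg (cont_entry hT i k)).const_mul _]
    exact Finset.sum_congr rfl fun i _ => (integral_const_mul _ _).symm
  have h4 : ∀ i, ∫ g, conj ((T g : Matrix ι ι ℂ) i j) ∂μ = conj (pr μ T i j) := fun i =>
    integral_conj
  have hcc : ∀ i, Continuous fun g : G => conj ((T g : Matrix ι ι ℂ) i j) := fun i =>
    Complex.continuous_conj.comp (cont_entry hT i j)
  have h5 : ∫ g, (∑ i, conj ((T g : Matrix ι ι ℂ) i j) * pr μ T i k) ∂μ =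
      ∑ i, conj (pr μ T i j) * pr μ T i k := by
    rw [integral_finsetSum Finset.univ (f := fun i g => conj ((T g : Matrix ι ι ℂ) i j) *
      pr μ T i k) fun i _ => (intg (hcc i)).mul_const _]
    refine Finset.sum_congr rfl fun i _ => ?_
    rw [integral_mul_const, h4]
  rw [← h5]
  simp only [h1]
  simp

/-- **The integral of the trace is a sum of squares.** -/
theorem int_trace {T : G →* Matrix.unitaryGroup ι ℂ} (hT : Continuous T) :
    ∫ g, (T g : Matrix ι ι ℂ).trace ∂μ = ((∑ j, ∑ i, ‖pr μ T i j‖ ^ 2 : ℝ) : ℂ) := by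
  unfold Matrix.trace
  simp only [Matrix.diag_apply]
  rw [integral_finsetSum _ fun j _ => intg (cont_entry hT j j), Complex.ofReal_sum]
  refine Finset.sum_congr rfl fun j _ => ?_
  have h1 := pr_sum (μ := μ) hT j j
  change pr μ T j j = _
  rw [← h1, Complex.ofReal_sum]
  refine Finset.sum_congr rfl fun i _ => ?_
  rw [Complex.conj_mul', Complex.ofReal_pow]

theorem cont_tp {ι' : Type} [Fintype ι'] [DecidableEq ι'] {π : G →* Matrix.unitaryGroup ι ℂ}
    {π' : G →* Matrix.unitaryGroup ι' ℂ} (hc : Continuous π) (hc' : Continuous π') :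
    Continuous (tp π π') := by
  refine Continuous.subtype_mk ?_ _
  refine continuous_matrix fun i j => ?_
  exact ((continuous_subtype_val.comp hc).matrix_elem i.1 j.1).mul
    ((continuous_subtype_val.comp hc').matrix_elem i.2 j.2)

theorem tp_val {ι' : Type} [Fintype ι'] [DecidableEq ι'] (π : G →* Matrix.unitaryGroup ι ℂ)
    (π' : G →* Matrix.unitaryGroup ι' ℂ) (g : G) : (tp π π' g : Matrix (ι × ι') (ι × ι') ℂ) =
    (π g : Matrix ι ι ℂ) ⊗ₖ (π' g : Matrix ι' ι' ℂ) := rfl

omit [IsTopologicalGroup G] [CompactSpace G] [MeasurableSpace G] [BorelSpace G] in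
theorem cont_cj' {n : ℕ} {π : G →* Matrix.unitaryGroup (Fin n) ℂ} (hc : Continuous π) :
    Continuous (cj π) := by
  refine Continuous.subtype_mk ?_ _
  exact (continuous_subtype_val.comp hc).matrix_map Complex.continuous_conj

/-- if the multiplicity is zero then all entries are orthogonal to the character -/
theorem orth_entry {n : ℕ} {β : G →* Matrix.unitaryGroup (Fin n) ℂ} (hβ : Continuous β)
    {σ : G →* Matrix.unitaryGroup ι ℂ} (hσ : Continuous σ)
    (h0 : (∫ g, conj (chi β g) * (σ g : Matrix ι ι ℂ).trace ∂μ).re = 0) (i j : ι) :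
    ∫ g, conj (chi β g) * (σ g : Matrix ι ι ℂ) i j ∂μ = 0 := by
  have hT := cont_tp (cont_cj' hβ) hσ
  have h1 := int_trace (μ := μ) hT
  have h2 : ∀ g, (tp (cj β) σ g : Matrix (Fin n × ι) (Fin n × ι) ℂ).trace =
      conj (chi β g) * (σ g : Matrix ι ι ℂ).trace := by
    intro g
    rw [tp_val, Matrix.trace_kronecker, cj_val]
    congr 1
    unfold chi Matrix.trace
    rw [map_sum]
    rfl
  simp only [h2] at h1
  rw [h1, Complex.ofReal_re] at h0
  have h3 : ∀ p q : Fin n × ι, pr μ (tp (cj β) σ) p q = 0 := by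
    intro p q
    have h4 := (Finset.sum_eq_zero_iff_of_nonneg fun q _ =>
      Finset.sum_nonneg fun p _ => sq_nonneg ‖pr μ (tp (cj β) σ) p q‖).1 h0 q (Finset.mem_univ _)
    have h5 := (Finset.sum_eq_zero_iff_of_nonneg fun p _ =>
      sq_nonneg ‖pr μ (tp (cj β) σ) p q‖).1 h4 p (Finset.mem_univ _)
    exact norm_eq_zero.1 (pow_eq_zero_iff two_ne_zero |>.1 h5)
  have h6 : ∀ g, conj (chi β g) * (σ g : Matrix ι ι ℂ) i j =
      ∑ k, (tp (cj β) σ g : Matrix (Fin n × ι) (Fin n × ι) ℂ) (k, i) (k, j) := by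
    intro g
    unfold chi Matrix.trace
    rw [map_sum, Finset.sum_mul]
    rfl
  simp only [h6]
  rw [integral_finsetSum _ fun k _ => intg (cont_entry hT _ _)]
  exact Finset.sum_eq_zero fun k _ => h3 _ _

/-- **All matrix coefficients are orthogonal to the character.** -/
theorem orth_coef {n : ℕ} {β : G →* Matrix.unitaryGroup (Fin n) ℂ} (hβ : Continuous β)
    {σ : G →* Matrix.unitaryGroup ι ℂ} (hσ : Continuous σ)
    (h0 : (∫ g, conj (chi β g) * (σ g : Matrix ι ι ℂ).trace ∂μ).re = 0) (A : Matrix ι ι ℂ) :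
    ∫ g, conj (chi β g) * (A * (σ g : Matrix ι ι ℂ)).trace ∂μ = 0 := by
  have h6 : ∀ g, conj (chi β g) * (A * (σ g : Matrix ι ι ℂ)).trace =
      ∑ i, ∑ j, A i j * (conj (chi β g) * (σ g : Matrix ι ι ℂ) j i) := by
    intro g
    unfold Matrix.trace
    rw [Finset.mul_sum]
    refine Finset.sum_congr rfl fun i _ => ?_
    rw [Matrix.diag_apply, Matrix.mul_apply, Finset.mul_sum]
    exact Finset.sum_congr rfl fun j _ => by ring
  simp only [h6]
  have hc : ∀ i j, Continuous fun g => conj (chi β g) * (σ g : Matrix ι ι ℂ) j i := fun i j =>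
    (Complex.continuous_conj.comp (cont_chi hβ)).mul (cont_entry hσ j i)
  have hs : ∀ i, ∫ g, (∑ j, A i j * (conj (chi β g) * (σ g : Matrix ι ι ℂ) j i)) ∂μ = 0 := by
    intro i
    rw [integral_finsetSum Finset.univ (f := fun j g => A i j * (conj (chi β g) *
      (σ g : Matrix ι ι ℂ) j i)) fun j _ => (intg (hc i j)).const_mul _]
    refine Finset.sum_eq_zero fun j _ => ?_
    rw [integral_const_mul, orth_entry hβ hσ h0, mul_zero]
  rw [integral_finsetSum Finset.univ (f := fun i g => ∑ j, A i j * (conj (chi β g) *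
    (σ g : Matrix ι ι ℂ) j i)) fun i _ => integrable_finsetSum _ fun j _ =>
    (intg (hc i j)).const_mul _]
  exact Finset.sum_eq_zero fun i _ => hs i

end

section

variable {G : Type} [Group G] [TopologicalSpace G]

/-- coefficient functions which are class functions and Hermitian -/
structure RD (h : G → ℂ) : Prop where
  coef : Coef h
  cls : ∀ g k, h (k * g * k⁻¹) = h g
  her : ∀ g, h g⁻¹ = conj (h g)

theorem RD.cont {h : G → ℂ} (hh : RD h) : Continuous h := coef_cont hh.coef

theorem RD.add {h h' : G → ℂ} (hh : RD h) (hh' : RD h') : RD fun g => h g + h' g :=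
  ⟨hh.coef.add hh'.coef, fun g k => by rw [hh.cls, hh'.cls],
    fun g => by rw [hh.her, hh'.her, map_add]⟩

theorem RD.mul {h h' : G → ℂ} (hh : RD h) (hh' : RD h') : RD fun g => h g * h' g :=
  ⟨hh.coef.mul hh'.coef, fun g k => by rw [hh.cls, hh'.cls],
    fun g => by rw [hh.her, hh'.her, map_mul]⟩

theorem RD.const (r : ℝ) : RD fun _ : G => (r : ℂ) :=
  ⟨Coef.const _, fun _ _ => rfl, fun _ => (Complex.conj_ofReal r).symm⟩

theorem RD.conj {h : G → ℂ} (hh : RD h) : RD fun g => conj (h g) :=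
  ⟨hh.coef.conj, fun g k => by rw [hh.cls], fun g => by rw [hh.her]⟩

theorem coef_chi {n : ℕ} {π : G →* Matrix.unitaryGroup (Fin n) ℂ} (hc : Continuous π) :
    Coef (chi π) :=
  ⟨Fin n, inferInstance, inferInstance, π, 1, hc, fun g => by rw [Matrix.one_mul]; rfl⟩

theorem rd_chi {n : ℕ} {π : G →* Matrix.unitaryGroup (Fin n) ℂ} (hc : Continuous π) :
    RD (chi π) := ⟨coef_chi hc, fun g k => chi_cls π g k, fun g => chi_inv π g⟩

end

section

variable {G : Type} [Group G] [TopologicalSpace G] [IsTopologicalGroup G] [CompactSpace G]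

/-- **Real combinations of irreducible characters.** -/
theorem RD.expand {h : G → ℂ} (hh : RD h) : ∃ (J : Type) (_ : Fintype J) (m : J → ℕ)
    (ρ : ∀ j, G →* Matrix.unitaryGroup (Fin (m j)) ℂ) (a : J → ℝ),
    (∀ j, Continuous (ρ j) ∧ Schur (ρ j)) ∧ ∀ g, h g = ∑ j, (a j : ℂ) * chi (ρ j) g := by
  let _ : MeasurableSpace G := borel G
  have _ : BorelSpace G := ⟨rfl⟩
  set ν : Measure G := Measure.haarMeasure ⊤ with hν
  have hν1 : IsProbabilityMeasure ν := ⟨by
    rw [hν]
    exact Measure.haarMeasure_self⟩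
  obtain ⟨J, iJ, m, ρ, a, h1, h2⟩ := dec_cav (μ := ν) hh.coef
  have h3 : ∀ g, h g = ∑ j, a j * chi (ρ j) g := fun g => by
    rw [← h2 g, cav_class hh.cls]
  refine ⟨J, iJ, m, ρ, fun j => (a j).re, h1, fun g => ?_⟩
  have h4 : h g = ∑ j, conj (a j) * chi (ρ j) g := by
    have h5 := h3 g⁻¹
    rw [hh.her] at h5
    have h6 := congrArg conj h5
    rw [Complex.conj_conj, map_sum] at h6
    rw [h6]
    refine Finset.sum_congr rfl fun j _ => ?_
    rw [map_mul, chi_inv, Complex.conj_conj]
  have h7 : h g = (1 / 2 : ℂ) * (h g + h g) := by ring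
  rw [h7]
  nth_rewrite 1 [h3 g]
  rw [h4, ← Finset.sum_add_distrib, Finset.mul_sum]
  refine Finset.sum_congr rfl fun j _ => ?_
  rw [← add_mul, Complex.add_conj]
  push_cast
  ring

end

end Pool.Agent.HX6.GO
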