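import Pool.Agent.HX6.GO.B

set_option autoImplicit false
set_option linter.unusedSectionVars false

/-!
# Two equidistributed families: linked representations
-/

namespace Pool.Agent.HX6.GO

open Complex Filter Topology ComplexConjugate NumberField IsDedekindDomain MeasureTheory
  Pool.Agent.TH553.RS Pool.Agent.TH553.ST Pool.Agent.W540.BE

section

variable {G : Type} [Group G] [TopologicalSpace G] {n : ℕ}

/-- nontrivial irreducible representations -/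
structure NI (π : G →* Matrix.unitaryGroup (Fin n) ℂ) : Prop where
  cont : Continuous π
  schur : Schur π
  nt : ∃ g, π g ≠ 1

theorem NI.pos {π : G →* Matrix.unitaryGroup (Fin n) ℂ} (h : NI π) : n ≠ 0 := by
  rintro rfl
  obtain ⟨g, hg⟩ := h.nt
  exact hg (Subtype.ext (Matrix.ext fun i => i.elim0))

theorem NI.cj {π : G →* Matrix.unitaryGroup (Fin n) ℂ} (h : NI π) : NI (cj π) where
  cont := cont_cj' h.cont
  schur := schur_cj h.schur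
  nt := by
    obtain ⟨g, hg⟩ := h.nt
    refine ⟨g, fun h1 => hg (Subtype.ext ?_)⟩
    have h2 : (Pool.Agent.TH553.ST.cj π g : Matrix (Fin n) (Fin n) ℂ) = 1 := by
      rw [h1]
      rfl
    rw [cj_val] at h2
    ext i j
    have h3 := congrFun (congrFun h2 i) j
    rw [Matrix.map_apply] at h3
    have h4 := congrArg conj h3
    rw [Complex.conj_conj] at h4
    rw [h4]
    change conj ((1 : Matrix (Fin n) (Fin n) ℂ) i j) = (1 : Matrix (Fin n) (Fin n) ℂ) i j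
    rw [Matrix.one_apply]
    split_ifs <;> simp

end

section

variable {K : Type} [Field K] [NumberField K]
variable {G : Type} [Group G] [TopologicalSpace G] [IsTopologicalGroup G] [CompactSpace G]
  [MeasurableSpace G] [BorelSpace G] {μ : Measure G} [IsProbabilityMeasure μ] [μ.IsHaarMeasure]
variable {H : Type} [Group H] [TopologicalSpace H] [IsTopologicalGroup H] [CompactSpace H]
  [MeasurableSpace H] [BorelSpace H] {ν : Measure H} [IsProbabilityMeasure ν] [ν.IsHaarMeasure]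
  {x : HeightOneSpectrum (𝓞 K) → G} {y : HeightOneSpectrum (𝓞 K) → H}

/-- the correlation of the characters is `r` -/
def Cor (x : HeightOneSpectrum (𝓞 K) → G) (y : HeightOneSpectrum (𝓞 K) → H) {n m : ℕ}
    (π : G →* Matrix.unitaryGroup (Fin n) ℂ) (ρ : H →* Matrix.unitaryGroup (Fin m) ℂ) (r : ℝ) :
    Prop :=
  ∀ U : Ultrafilter ℝ, (U : Filter ℝ) ≤ 𝓝[>] 0 →
    (M (nm K) U fun v => (chi π (x v) * chi ρ (y v)).re) = r

variable {n m : ℕ} {π : G →* Matrix.unitaryGroup (Fin n) ℂ}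
  {ρ : H →* Matrix.unitaryGroup (Fin m) ℂ}

theorem Cor.unique {r r' : ℝ} (h : Cor x y π ρ r) (h' : Cor x y π ρ r') : r = r' := by
  obtain ⟨U, hU⟩ := Ultrafilter.exists_le (𝓝[>] (0 : ℝ))
  exact (h U hU).symm.trans (h' U hU)

theorem Cor.swap {r : ℝ} (h : Cor x y π ρ r) : Cor y x ρ π r := by
  intro U hU
  rw [← h U hU]
  congr 1
  funext v
  rw [mul_comm]

theorem Cor.cj {r : ℝ} (h : Cor x y π ρ r) : Cor x y (cj π) (cj ρ) r := by
  intro U hU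
  rw [← h U hU]
  congr 1
  funext v
  rw [chi_cj, chi_cj, ← map_mul, Complex.conj_re]

/-- the situation -/
structure Sit (x : HeightOneSpectrum (𝓞 K) → G) (y : HeightOneSpectrum (𝓞 K) → H)
    (μ : Measure G) (ν : Measure H) : Prop where
  lx : Law x μ
  ly : Law y ν
  ord : ∀ (n m : ℕ) (π : G →* Matrix.unitaryGroup (Fin n) ℂ)
    (ρ : H →* Matrix.unitaryGroup (Fin m) ℂ), NI π → NI ρ → ∃ k : ℤ, Cor x y π ρ (-(k : ℝ))

theorem Sit.swap (S : Sit x y μ ν) : Sit y x ν μ where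
  lx := S.ly
  ly := S.lx
  ord m n ρ π hρ hπ := by
    obtain ⟨k, hk⟩ := S.ord n m π ρ hπ hρ
    exact ⟨k, hk.swap⟩

theorem bc_chi (x : HeightOneSpectrum (𝓞 K) → G) (π : G →* Matrix.unitaryGroup (Fin n) ℂ) :
    Bc fun v => chi π (x v) := ⟨n, fun _ => norm_chi π _⟩

theorem M_chi_pow (hx : Law x μ) (hc : Continuous π) {U : Ultrafilter ℝ}
    (hU : (U : Filter ℝ) ≤ 𝓝[>] 0) (k : ℕ) :
    (M (nm K) U fun v => (‖chi π (x v)‖ ^ 2) ^ k) = ∫ g, (‖chi π g‖ ^ 2) ^ k ∂μ :=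
  M_law hx hU (f := fun g => (‖chi π g‖ ^ 2) ^ k) (cont_sq hc k) fun g h => cls_sq k g h

theorem M_chi_sq (hx : Law x μ) (hc : Continuous π) (hs : Schur π) {U : Ultrafilter ℝ}
    (hU : (U : Filter ℝ) ≤ 𝓝[>] 0) : (M (nm K) U fun v => ‖chi π (x v)‖ ^ 2) ≤ 1 := by
  have h1 := M_chi_pow hx hc hU 1
  simp only [pow_one] at h1
  rw [h1]
  exact int_sq_le hc hs

/-- **Linked representations.** -/
theorem Sit.edge (S : Sit x y μ ν) (hπ : NI π) (hρ : NI ρ) {k : ℤ}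
    (hk : Cor x y π ρ (-(k : ℝ))) (h0 : k ≠ 0) : |k| = 1 ∧ Same π μ ρ ν ∧
    ∀ U : Ultrafilter ℝ, (U : Filter ℝ) ≤ 𝓝[>] 0 →
      Cl (nm K) U (fun v => chi π (x v)) fun v => ((-(k : ℝ) : ℝ) : ℂ) * conj (chi ρ (y v)) := by
  have hN := sysF K
  have h1 : (1 : ℝ) ≤ (-(k : ℝ)) ^ 2 := by
    rw [neg_sq]
    have : 1 ≤ k ^ 2 := by
      have := Int.one_le_abs h0
      rw [← sq_abs]
      nlinarith
    exact_mod_cast this
  have key : ∀ U : Ultrafilter ℝ, (U : Filter ℝ) ≤ 𝓝[>] 0 → |(-(k : ℝ))| = 1 ∧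
      (M (nm K) U fun v => ‖df (-(k : ℝ)) (fun v => chi π (x v)) (fun v => chi ρ (y v)) v‖ ^ 2) = 0 ∧
      Same π μ ρ ν := by
    intro U hU
    have h2 := M_chi_sq S.lx hπ.cont hπ.schur hU
    have h3 := M_chi_sq S.ly hρ.cont hρ.schur hU
    have h4 := edge_le hN hU (bc_chi x π) (bc_chi y ρ) h2 h3
    rw [hk U hU] at h4
    have h5 : |(-(k : ℝ))| = 1 := by
      have h6 : (-(k : ℝ)) ^ 2 = 1 := le_antisymm h4 h1
      have h7 : |(-(k : ℝ))| ^ 2 = 1 := by rw [sq_abs]; exact h6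
      exact (pow_eq_one_iff_of_nonneg (abs_nonneg _) two_ne_zero).1 h7
    have h6 := edge_eq hN hU (bc_chi x π) (bc_chi y ρ) h2 h3 (hk U hU) h1
    refine ⟨h5, h6, fun j => ?_⟩
    rw [← M_chi_pow (π := π) S.lx hπ.cont hU j, ← M_chi_pow (π := ρ) S.ly hρ.cont hU j]
    exact edge_mom hN hU (bc_chi x π) (bc_chi y ρ) h5 h6 j
  obtain ⟨V, hV⟩ := Ultrafilter.exists_le (𝓝[>] (0 : ℝ))
  obtain ⟨k1, -, k3⟩ := key V hV
  refine ⟨?_, k3, fun U hU => ?_⟩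
  · rw [abs_neg] at k1
    exact_mod_cast k1
  · have h2 := M_zero_of_sq hN hU (Bc.df (bc_chi x π) (bc_chi y ρ) (-(k : ℝ))).norm (key U hU).2.1
    unfold Cl
    exact h2

/-- linked -/
def Lk (x : HeightOneSpectrum (𝓞 K) → G) (y : HeightOneSpectrum (𝓞 K) → H) {n m : ℕ}
    (π : G →* Matrix.unitaryGroup (Fin n) ℂ) (ρ : H →* Matrix.unitaryGroup (Fin m) ℂ) : Prop :=
  ¬ Cor x y π ρ 0

theorem Sit.edge' (S : Sit x y μ ν) (hπ : NI π) (hρ : NI ρ) (hl : Lk x y π ρ) :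
    ∃ r : ℝ, (r = 1 ∨ r = -1) ∧ Cor x y π ρ r ∧ Same π μ ρ ν ∧
    ∀ U : Ultrafilter ℝ, (U : Filter ℝ) ≤ 𝓝[>] 0 →
      Cl (nm K) U (fun v => chi π (x v)) fun v => (r : ℂ) * conj (chi ρ (y v)) := by
  obtain ⟨k, hk⟩ := S.ord n m π ρ hπ hρ
  have h0 : k ≠ 0 := by
    rintro rfl
    apply hl
    simpa using hk
  obtain ⟨h1, h2, h3⟩ := S.edge hπ hρ hk h0
  refine ⟨-(k : ℝ), ?_, hk, h2, h3⟩
  rcases (abs_eq zero_le_one).1 h1 with h | h
  · right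
    rw [h]
    norm_num
  · left
    rw [h]
    norm_num

theorem Lk.swap (h : Lk x y π ρ) : Lk y x ρ π := fun h1 => h h1.swap

theorem Lk.cj' (h : Lk x y π ρ) : Lk x y (cj π) (cj ρ) := by
  intro h1
  apply h
  intro U hU
  rw [← h1 U hU]
  congr 1
  funext v
  rw [chi_cj, chi_cj, ← map_mul, Complex.conj_re]

theorem int_norm_sq (hπ : NI π) : ∫ g, chi π g * conj (chi π g) ∂μ = 1 := by
  have h1 := int_sq (μ := μ) hπ.cont hπ.schur hπ.pos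
  have h2 : ∀ g, chi π g * conj (chi π g) = ((‖chi π g‖ ^ 2 : ℝ) : ℂ) := fun g => by
    rw [Complex.mul_conj']
    push_cast
    rfl
  simp only [h2]
  have h3 : ∫ g, ((‖chi π g‖ ^ 2 : ℝ) : ℂ) ∂μ = ((∫ g, ‖chi π g‖ ^ 2 ∂μ : ℝ) : ℂ) := integral_ofReal
  rw [h3, h1]
  simp

/-- **Uniqueness of the partner.** -/
theorem Sit.uniq (S : Sit x y μ ν) (hπ : NI π) (hρ : NI ρ) {m' : ℕ}
    {ρ' : H →* Matrix.unitaryGroup (Fin m') ℂ} (hρ' : NI ρ') (hl : Lk x y π ρ)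
    (hl' : Lk x y π ρ') : chi ρ = chi ρ' := by
  by_contra hne
  obtain ⟨U, hU⟩ := Ultrafilter.exists_le (𝓝[>] (0 : ℝ))
  have hN := sysF K
  obtain ⟨r, hr, -, -, h1⟩ := S.edge' hπ hρ hl
  obtain ⟨r', hr', -, -, h2⟩ := S.edge' hπ hρ' hl'
  have b1 := bc_chi x π
  have b2 := (Bc.const (P := HeightOneSpectrum (𝓞 K)) (r : ℂ)).mul (bc_chi y ρ).conj
  have b3 := (Bc.const (P := HeightOneSpectrum (𝓞 K)) (r' : ℂ)).mul (bc_chi y ρ').conj
  have h3 := Cl.trans hN hU b2 b1 b3 (Cl.symm (h1 U hU)) (h2 U hU)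
  have h4 := Cl.mul_right hN hU b2 b3 (bc_chi y ρ) h3
  have h5 := Cl.mean hN hU (b2.mul (bc_chi y ρ)) (b3.mul (bc_chi y ρ)) h4
  have e1 : (fun v => (r : ℂ) * conj (chi ρ (y v)) * chi ρ (y v)) =
      fun v => (r : ℂ) * ((fun h => chi ρ h * conj (chi ρ h)) (y v)) := by
    funext v
    ring
  have e2 : (fun v => (r' : ℂ) * conj (chi ρ' (y v)) * chi ρ (y v)) =
      fun v => (r' : ℂ) * ((fun h => chi ρ h * conj (chi ρ' h)) (y v)) := by
    funext v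
    ring
  have c1 : Continuous fun h => chi ρ h * conj (chi ρ h) :=
    (cont_chi hρ.cont).mul (Complex.continuous_conj.comp (cont_chi hρ.cont))
  have c2 : Continuous fun h => chi ρ h * conj (chi ρ' h) :=
    (cont_chi hρ.cont).mul (Complex.continuous_conj.comp (cont_chi hρ'.cont))
  rw [e1, e2, Mc_const_mul hN hU (bc_cont c1 y), Mc_const_mul hN hU (bc_cont c2 y),
    Mc_law S.ly hU c1 (fun g h => by simp only [chi_cls]),
    Mc_law S.ly hU c2 (fun g h => by simp only [chi_cls]), int_norm_sq hρ,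
    int_mul_conj hρ.cont hρ.schur hρ'.cont hρ'.schur hne, mul_zero, mul_one] at h5
  rcases hr with rfl | rfl <;> simp at h5

/-- **The multiplicities.** -/
theorem Sit.triple (S : Sit x y μ ν) {n₁ n₂ n₃ m₁ m₂ m₃ : ℕ}
    {π₁ : G →* Matrix.unitaryGroup (Fin n₁) ℂ} {π₂ : G →* Matrix.unitaryGroup (Fin n₂) ℂ}
    {π₃ : G →* Matrix.unitaryGroup (Fin n₃) ℂ} {ρ₁ : H →* Matrix.unitaryGroup (Fin m₁) ℂ}
    {ρ₂ : H →* Matrix.unitaryGroup (Fin m₂) ℂ} {ρ₃ : H →* Matrix.unitaryGroup (Fin m₃) ℂ}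
    (h1 : NI π₁) (h2 : NI π₂) (h3 : NI π₃) (k1 : NI ρ₁) (k2 : NI ρ₂) (k3 : NI ρ₃)
    {r₁ r₂ r₃ : ℝ} (c1 : Cor x y π₁ ρ₁ r₁) (c2 : Cor x y π₂ ρ₂ r₂) (c3 : Cor x y π₃ ρ₃ r₃)
    (z1 : r₁ ≠ 0) (z2 : r₂ ≠ 0) (z3 : r₃ ≠ 0) :
    ∫ g, chi π₁ g * chi π₂ g * chi π₃ g ∂μ =
      (r₁ * r₂ * r₃ : ℝ) * conj (∫ h, chi ρ₁ h * chi ρ₂ h * chi ρ₃ h ∂ν) := by
  have hN := sysF K
  obtain ⟨U, hU⟩ := Ultrafilter.exists_le (𝓝[>] (0 : ℝ))
  have L : ∀ {n m : ℕ} {π : G →* Matrix.unitaryGroup (Fin n) ℂ}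
      {ρ : H →* Matrix.unitaryGroup (Fin m) ℂ}, NI π → NI ρ → ∀ {r : ℝ}, Cor x y π ρ r → r ≠ 0 →
      Cl (nm K) U (fun v => chi π (x v)) fun v => (r : ℂ) * conj (chi ρ (y v)) := by
    intro n m π ρ hπ hρ r hr h0
    obtain ⟨r', -, hc, -, h4⟩ := S.edge' hπ hρ fun h => h0 (hr.unique h)
    rw [hr.unique hc]
    exact h4 U hU
  have b : ∀ {m : ℕ} (ρ : H →* Matrix.unitaryGroup (Fin m) ℂ) (r : ℝ),
      Bc fun v => (r : ℂ) * conj (chi ρ (y v)) := fun ρ r =>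
    (Bc.const (P := HeightOneSpectrum (𝓞 K)) (r : ℂ)).mul (bc_chi y ρ).conj
  have h4 := Cl.mul hN hU (bc_chi x π₁) (b ρ₁ r₁) (bc_chi x π₂) (b ρ₂ r₂) (L h1 k1 c1 z1)
    (L h2 k2 c2 z2)
  have h5 := Cl.mul hN hU ((bc_chi x π₁).mul (bc_chi x π₂)) ((b ρ₁ r₁).mul (b ρ₂ r₂))
    (bc_chi x π₃) (b ρ₃ r₃) h4 (L h3 k3 c3 z3)
  have h6 := Cl.mean hN hU (((bc_chi x π₁).mul (bc_chi x π₂)).mul (bc_chi x π₃))
    (((b ρ₁ r₁).mul (b ρ₂ r₂)).mul (b ρ₃ r₃)) h5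
  have d1 : Continuous fun g => chi π₁ g * chi π₂ g * chi π₃ g :=
    ((cont_chi h1.cont).mul (cont_chi h2.cont)).mul (cont_chi h3.cont)
  have d2 : Continuous fun h => conj (chi ρ₁ h * chi ρ₂ h * chi ρ₃ h) :=
    Complex.continuous_conj.comp
      (((cont_chi k1.cont).mul (cont_chi k2.cont)).mul (cont_chi k3.cont))
  have e1 := Mc_law S.lx hU d1 (fun g h => by simp only [chi_cls])
  have e2 := Mc_law S.ly hU d2 (fun g h => by simp only [chi_cls])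
  have e3 : (fun v => (r₁ : ℂ) * conj (chi ρ₁ (y v)) * ((r₂ : ℂ) * conj (chi ρ₂ (y v))) *
      ((r₃ : ℂ) * conj (chi ρ₃ (y v)))) = fun v => ((r₁ * r₂ * r₃ : ℝ) : ℂ) *
      (fun h => conj (chi ρ₁ h * chi ρ₂ h * chi ρ₃ h)) (y v) := by
    funext v
    simp only [map_mul]
    push_cast
    ring
  rw [e3, Mc_const_mul hN hU (bc_cont d2 y), e2, e1] at h6
  rw [h6]
  congr 1
  exact integral_conj

end

end Pool.Agent.HX6.GO
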