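import Pool.Agent.HX6.GO.C

set_option autoImplicit false
set_option linter.unusedSectionVars false

/-!
# The normal subgroup given by the linked representations
-/

namespace Pool.Agent.HX6.GO

open Complex Filter Topology ComplexConjugate NumberField IsDedekindDomain MeasureTheory
  Pool.Agent.TH553.RS Pool.Agent.TH553.ST Pool.Agent.W540.BE
open scoped Matrix Kronecker

variable {K : Type} [Field K] [NumberField K]
variable {G : Type} [Group G] [TopologicalSpace G] [IsTopologicalGroup G] [CompactSpace G]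
  [MeasurableSpace G] [BorelSpace G] {μ : Measure G} [IsProbabilityMeasure μ] [μ.IsHaarMeasure]
variable {H : Type} [Group H] [TopologicalSpace H] [IsTopologicalGroup H] [CompactSpace H]
  [MeasurableSpace H] [BorelSpace H] {ν : Measure H} [IsProbabilityMeasure ν] [ν.IsHaarMeasure]
  {x : HeightOneSpectrum (𝓞 K) → G} {y : HeightOneSpectrum (𝓞 K) → H}

/-- the character agrees in the mean with a function of the other family -/
def Good (x : HeightOneSpectrum (𝓞 K) → G) (y : HeightOneSpectrum (𝓞 K) → H) {ι : Type}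
    [Fintype ι] [DecidableEq ι] (σ : G →* Matrix.unitaryGroup ι ℂ) : Prop :=
  Continuous σ ∧ ∃ h : H → ℂ, RD h ∧ ∀ U : Ultrafilter ℝ, (U : Filter ℝ) ≤ 𝓝[>] 0 →
    Cl (nm K) U (fun v => (σ (x v) : Matrix ι ι ℂ).trace) fun v => h (y v)

theorem cont_tr {ι : Type} [Fintype ι] [DecidableEq ι] {σ : G →* Matrix.unitaryGroup ι ℂ}
    (hσ : Continuous σ) : Continuous fun g => (σ g : Matrix ι ι ℂ).trace :=
  (continuous_subtype_val.comp hσ).matrix_trace

theorem bc_tr {ι : Type} [Fintype ι] [DecidableEq ι] {σ : G →* Matrix.unitaryGroup ι ℂ}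
    (hσ : Continuous σ) (x : HeightOneSpectrum (𝓞 K) → G) :
    Bc fun v => (σ (x v) : Matrix ι ι ℂ).trace := bc_cont (cont_tr hσ) x

theorem good_ds {ι ι' : Type} [Fintype ι] [DecidableEq ι] [Fintype ι'] [DecidableEq ι']
    {σ : G →* Matrix.unitaryGroup ι ℂ} {σ' : G →* Matrix.unitaryGroup ι' ℂ}
    (h : Good x y σ) (h' : Good x y σ') : Good x y (ds σ σ') := by
  obtain ⟨hc, f, hf, h1⟩ := h
  obtain ⟨hc', f', hf', h1'⟩ := h'
  refine ⟨?_, fun g => f g + f' g, hf.add hf', fun U hU => ?_⟩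
  · refine Continuous.subtype_mk ?_ _
    exact (continuous_subtype_val.comp hc).matrix_fromBlocks continuous_const continuous_const
      (continuous_subtype_val.comp hc')
  · have h2 := Cl.add (sysF K) hU (bc_tr hc x) (bc_cont hf.cont y) (bc_tr hc' x)
      (bc_cont hf'.cont y) (h1 U hU) (h1' U hU)
    have e : (fun v => (ds σ σ' (x v) : Matrix (ι ⊕ ι') (ι ⊕ ι') ℂ).trace) = fun v =>
        (σ (x v) : Matrix ι ι ℂ).trace + (σ' (x v) : Matrix ι' ι' ℂ).trace := by
      funext v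
      change (Matrix.fromBlocks (σ (x v) : Matrix ι ι ℂ) 0 0
        (σ' (x v) : Matrix ι' ι' ℂ)).trace = _
      unfold Matrix.trace
      rw [Fintype.sum_sum_type]
      rfl
    rw [e]
    exact h2

theorem good_tp {ι ι' : Type} [Fintype ι] [DecidableEq ι] [Fintype ι'] [DecidableEq ι']
    {σ : G →* Matrix.unitaryGroup ι ℂ} {σ' : G →* Matrix.unitaryGroup ι' ℂ}
    (h : Good x y σ) (h' : Good x y σ') : Good x y (tp σ σ') := by
  obtain ⟨hc, f, hf, h1⟩ := h
  obtain ⟨hc', f', hf', h1'⟩ := h'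
  refine ⟨cont_tp hc hc', fun g => f g * f' g, hf.mul hf', fun U hU => ?_⟩
  have h2 := Cl.mul (sysF K) hU (bc_tr hc x) (bc_cont hf.cont y) (bc_tr hc' x)
      (bc_cont hf'.cont y) (h1 U hU) (h1' U hU)
  have e : (fun v => (tp σ σ' (x v) : Matrix (ι × ι') (ι × ι') ℂ).trace) = fun v =>
      (σ (x v) : Matrix ι ι ℂ).trace * (σ' (x v) : Matrix ι' ι' ℂ).trace := by
    funext v
    rw [tp_val, Matrix.trace_kronecker]
  rw [e]
  exact h2

theorem Good.one : Good x y (1 : G →* Matrix.unitaryGroup Unit ℂ) := by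
  refine ⟨continuous_const, fun _ => ((1 : ℝ) : ℂ), RD.const 1, fun U hU => ?_⟩
  have e : (fun v => (((1 : G →* Matrix.unitaryGroup Unit ℂ) (x v) : Matrix.unitaryGroup Unit ℂ) :
      Matrix Unit Unit ℂ).trace) = fun v => ((1 : ℝ) : ℂ) := by
    funext v
    change (1 : Matrix Unit Unit ℂ).trace = _
    simp
  rw [e]
  exact Cl.refl (sysF K) hU _

theorem good_ri {ι : Type} [Fintype ι] [DecidableEq ι] {σ : G →* Matrix.unitaryGroup ι ℂ}
    (h : Good x y σ) {n : ℕ} (e : ι ≃ Fin n) : Good x y (ri e σ) := by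
  obtain ⟨hc, f, hf, h1⟩ := h
  refine ⟨cont_ri e hc, f, hf, fun U hU => ?_⟩
  have h2 := h1 U hU
  have h3 : (fun v => (ri e σ (x v) : Matrix (Fin n) (Fin n) ℂ).trace) = fun v =>
      (σ (x v) : Matrix ι ι ℂ).trace := funext fun v => chi_ri e σ (x v)
  rw [h3]
  exact h2

theorem good_cj {n : ℕ} {σ : G →* Matrix.unitaryGroup (Fin n) ℂ}
    (h : Good x y σ) : Good x y (cj σ) := by
  obtain ⟨hc, f, hf, h1⟩ := h
  refine ⟨cont_cj' hc, fun g => conj (f g), hf.conj, fun U hU => ?_⟩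
  have h2 := Cl.conj (sysF K) hU (h1 U hU)
  have h3 : (fun v => (cj σ (x v) : Matrix (Fin n) (Fin n) ℂ).trace) = fun v =>
      conj ((σ (x v) : Matrix (Fin n) (Fin n) ℂ).trace) := funext fun v => chi_cj σ (x v)
  rw [h3]
  exact h2

/-- matrix coefficients of good representations -/
def GCoef (x : HeightOneSpectrum (𝓞 K) → G) (y : HeightOneSpectrum (𝓞 K) → H) (f : G → ℂ) :
    Prop := ∃ (ι : Type) (_ : Fintype ι) (_ : DecidableEq ι)
  (π : G →* Matrix.unitaryGroup ι ℂ) (A : Matrix ι ι ℂ), Good x y π ∧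
    ∀ g, f g = (A * (π g : Matrix ι ι ℂ)).trace

theorem GCoef.add {f f' : G → ℂ} (h : GCoef x y f) (h' : GCoef x y f') :
    GCoef x y fun g => f g + f' g := by
  obtain ⟨ι, _, _, π, A, hc, h1⟩ := h
  obtain ⟨ι', _, _, π', A', hc', h1'⟩ := h'
  refine ⟨ι ⊕ ι', inferInstance, inferInstance, ds π π', Matrix.fromBlocks A 0 0 A',
    good_ds hc hc', fun g => ?_⟩
  change _ = (Matrix.fromBlocks A 0 0 A' *
      Matrix.fromBlocks (π g : Matrix ι ι ℂ) 0 0 (π' g : Matrix ι' ι' ℂ)).trace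
  rw [Matrix.fromBlocks_multiply]
  simp only [Matrix.mul_zero, Matrix.zero_mul, add_zero, zero_add]
  unfold Matrix.trace
  rw [Fintype.sum_sum_type]
  exact congrArg₂ (· + ·) (h1 g) (h1' g)

theorem GCoef.mul {f f' : G → ℂ} (h : GCoef x y f) (h' : GCoef x y f') :
    GCoef x y fun g => f g * f' g := by
  obtain ⟨ι, _, _, π, A, hc, h1⟩ := h
  obtain ⟨ι', _, _, π', A', hc', h1'⟩ := h'
  refine ⟨ι × ι', inferInstance, inferInstance, tp π π', A ⊗ₖ A', good_tp hc hc', fun g => ?_⟩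
  change _ = ((A ⊗ₖ A') * ((π g : Matrix ι ι ℂ) ⊗ₖ (π' g : Matrix ι' ι' ℂ))).trace
  rw [← Matrix.mul_kronecker_mul, Matrix.trace_kronecker]
  exact congrArg₂ (· * ·) (h1 g) (h1' g)

theorem GCoef.const (c : ℂ) : GCoef x y fun _ : G => c := by
  refine ⟨Unit, inferInstance, inferInstance, 1, c • 1, Good.one, fun g => ?_⟩
  rw [Matrix.smul_mul, Matrix.one_mul, Matrix.trace_smul]
  change c = c • (1 : Matrix Unit Unit ℂ).trace
  simp

theorem GCoef.conj {f : G → ℂ} (h : GCoef x y f) : GCoef x y fun g => conj (f g) := by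
  obtain ⟨ι, _, _, π, A, hc, h1⟩ := h
  set n := Fintype.card ι with hn
  set e := Fintype.equivFin ι with he
  refine ⟨Fin n, inferInstance, inferInstance, cj (ri e π), (A.submatrix e.symm e.symm).map conj,
    good_cj (good_ri hc e), fun g => ?_⟩
  rw [cj_val, ri_val, ← Matrix.map_mul, Matrix.submatrix_mul_equiv]
  have h2 : f g = ((A * (π g : Matrix ι ι ℂ)).submatrix e.symm e.symm).trace := by
    rw [h1]
    exact (Fintype.sum_equiv e.symm _ _ fun _ => rfl).symm
  change conj (f g) = _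
  rw [h2]
  unfold Matrix.trace
  rw [map_sum]
  rfl

/-- the algebra of the coefficients of the good representations -/
noncomputable def gAlg (x : HeightOneSpectrum (𝓞 K) → G) (y : HeightOneSpectrum (𝓞 K) → H) :
    StarSubalgebra ℂ C(G, ℂ) where
  carrier := {f | GCoef x y f}
  mul_mem' := fun {f f'} (h : GCoef x y f) (h' : GCoef x y f') => show GCoef x y _ from h.mul h'
  one_mem' := show GCoef x y _ from GCoef.const 1
  add_mem' := fun {f f'} (h : GCoef x y f) (h' : GCoef x y f') => show GCoef x y _ from h.add h'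
  zero_mem' := show GCoef x y _ from GCoef.const 0
  algebraMap_mem' := fun c => show GCoef x y _ from GCoef.const c
  star_mem' := fun {f} (h : GCoef x y f) => show GCoef x y _ from h.conj

theorem good_of_lk (S : Sit x y μ ν) {n m : ℕ} {π : G →* Matrix.unitaryGroup (Fin n) ℂ}
    {ρ : H →* Matrix.unitaryGroup (Fin m) ℂ} (hπ : NI π) (hρ : NI ρ) (h : Lk x y π ρ) :
    Good x y π := by
  obtain ⟨r, -, -, -, h1⟩ := S.edge' hπ hρ h
  refine ⟨hπ.cont, fun h => (r : ℂ) * conj (chi ρ h), (RD.const r).mul (rd_chi hρ.cont).conj,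
    fun U hU => h1 U hU⟩

/-- **Orthogonality.** -/
theorem orth_good (S : Sit x y μ ν) {n : ℕ} {β : G →* Matrix.unitaryGroup (Fin n) ℂ} (hβ : NI β)
    (hun : ∀ (m : ℕ) (ρ : H →* Matrix.unitaryGroup (Fin m) ℂ), NI ρ → ¬ Lk x y β ρ)
    {f : G → ℂ} (hf : GCoef x y f) : ∫ g, conj (chi β g) * f g ∂μ = 0 := by
  obtain ⟨ι, _, _, σ, A, hg, h1⟩ := hf
  simp only [h1]
  obtain ⟨hc, h, hh, h2⟩ := hg
  refine orth_coef hβ.cont hc ?_ A
  have hN := sysF K
  obtain ⟨U, hU⟩ := Ultrafilter.exists_le (𝓝[>] (0 : ℝ))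
  have c1 : Continuous fun g => conj (chi β g) * (σ g : Matrix ι ι ℂ).trace :=
    (Complex.continuous_conj.comp (cont_chi hβ.cont)).mul (cont_tr hc)
  have hcl : ∀ g k, conj (chi β (k * g * k⁻¹)) * (σ (k * g * k⁻¹) : Matrix ι ι ℂ).trace =
      conj (chi β g) * (σ g : Matrix ι ι ℂ).trace := by
    intro g k
    rw [chi_cls]
    congr 1
    rw [← chi_ri (Fintype.equivFin ι) σ, ← chi_ri (Fintype.equivFin ι) σ, chi_cls]
  rw [← Mc_law S.lx hU c1 hcl]
  have b1 := (bc_chi x β).conj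
  have h3 := Cl.mul_right hN hU (bc_tr hc x) (bc_cont hh.cont y) b1 (h2 U hU)
  have h4 := Cl.mean hN hU ((bc_tr hc x).mul b1) ((bc_cont hh.cont y).mul b1) h3
  have e1 : (fun v => conj (chi β (x v)) * (σ (x v) : Matrix ι ι ℂ).trace) =
      fun v => (σ (x v) : Matrix ι ι ℂ).trace * conj (chi β (x v)) := by
    funext v
    rw [mul_comm]
  rw [e1, h4]
  obtain ⟨J, _, m, ρ, a, h5, h6⟩ := hh.expand
  have e2 : (fun v => h (y v) * conj (chi β (x v))) = fun v => ∑ j, (a j : ℂ) *
      (chi (ρ j) (y v) * conj (chi β (x v))) := by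
    funext v
    rw [h6, Finset.sum_mul]
    exact Finset.sum_congr rfl fun j _ => by ring
  have b2 : ∀ j, Bc fun v => chi (ρ j) (y v) * conj (chi β (x v)) := fun j =>
    (bc_chi y (ρ j)).mul b1
  rw [e2, Mc_sum hN hU _ fun j _ => (Bc.const _).mul (b2 j), Complex.re_sum]
  refine Finset.sum_eq_zero fun j _ => ?_
  rw [Mc_const_mul hN hU (b2 j), Complex.re_ofReal_mul, Mc_re]
  have h7 : (M (nm K) U fun v => (chi (ρ j) (y v) * conj (chi β (x v))).re) = 0 := by
    by_cases hn : ∃ g, ρ j g ≠ 1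
    · have hρ : NI (ρ j) := ⟨(h5 j).1, (h5 j).2, hn⟩
      have h8 := hun _ (cj (ρ j)) hρ.cj
      unfold Lk at h8
      rw [not_not] at h8
      rw [← h8 U hU]
      congr 1
      funext v
      rw [chi_cj, ← Complex.conj_re, map_mul, Complex.conj_conj, mul_comm]
    · push Not at hn
      have e3 : (fun v => (chi (ρ j) (y v) * conj (chi β (x v))).re) = fun v =>
          (m j : ℝ) * ((fun g => (chi β g).re) (x v)) := by
        funext v
        rw [chi_triv hn]
        simp
      have c2 : Continuous fun g => (chi β g).re :=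
        Complex.continuous_re.comp (cont_chi hβ.cont)
      rw [e3, M_const_mul hN hU (bd_cont c2 x), M_law S.lx hU c2 (fun g h => by rw [chi_cls])]
      have h9 : ∫ g, (chi β g).re ∂μ = 0 := by
        have h10 := int_chi (μ := μ) hβ.cont hβ.schur hβ.nt
        have h11 := integral_re_add_im (𝕜 := ℂ) (intg (μ := μ) (cont_chi hβ.cont))
        rw [h10] at h11
        have h12 := congrArg Complex.re h11
        simpa using h12
      rw [h9, mul_zero]
  rw [h7, mul_zero]

/-- **The subgroup**: the elements which are trivial in all linked representations. -/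
def kerN (x : HeightOneSpectrum (𝓞 K) → G) (y : HeightOneSpectrum (𝓞 K) → H) : Subgroup G where
  carrier := {g | ∀ (n : ℕ) (π : G →* Matrix.unitaryGroup (Fin n) ℂ), NI π →
    (∃ (m : ℕ) (ρ : H →* Matrix.unitaryGroup (Fin m) ℂ), NI ρ ∧ Lk x y π ρ) → π g = 1}
  mul_mem' := fun {a b} ha hb n π h1 h2 => by rw [map_mul, ha n π h1 h2, hb n π h1 h2, one_mul]
  one_mem' := fun n π _ _ => map_one π
  inv_mem' := fun {a} ha n π h1 h2 => by rw [map_inv, ha n π h1 h2, inv_one]

theorem kerN_normal : (kerN x y).Normal := ⟨fun g hg h n π h1 h2 => by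
  rw [map_mul, map_mul, map_inv, hg n π h1 h2, mul_one, mul_inv_cancel]⟩

theorem kerN_closed : IsClosed ((kerN x y : Subgroup G) : Set G) := by
  have : ((kerN x y : Subgroup G) : Set G) = ⋂ (n : ℕ) (π : G →* Matrix.unitaryGroup (Fin n) ℂ)
      (_ : NI π) (_ : ∃ (m : ℕ) (ρ : H →* Matrix.unitaryGroup (Fin m) ℂ), NI ρ ∧ Lk x y π ρ),
      {g | π g = 1} := by
    ext g
    simp only [Set.mem_iInter]
    rfl
  rw [this]
  refine isClosed_iInter fun n => isClosed_iInter fun π => isClosed_iInter fun h1 =>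
    isClosed_iInter fun _ => ?_
  exact isClosed_eq h1.cont continuous_const

/-- a function on the quotient -/
theorem exists_desc (N : Subgroup G) {f : G → ℂ} (hf : Continuous f)
    (h : ∀ g k, k ∈ N → f (g * k) = f g) : ∃ F : C(G ⧸ N, ℂ), ∀ g : G, F (g : G ⧸ N) = f g := by
  refine ⟨⟨Quotient.lift f fun a b hab => ?_, ?_⟩, fun g => rfl⟩
  · have h1 : a⁻¹ * b ∈ N := QuotientGroup.leftRel_apply.1 hab
    have h2 := h a _ h1
    rw [mul_inv_cancel_left] at h2
    exact h2.symm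
  · exact continuous_quot_lift _ hf

/-- **The linked representations are those which are trivial on the subgroup.** -/
theorem exists_lk (S : Sit x y μ ν) {n : ℕ} {β : G →* Matrix.unitaryGroup (Fin n) ℂ}
    (hβ : NI β) (htr : ∀ g ∈ kerN x y, β g = 1) :
    ∃ (m : ℕ) (ρ : H →* Matrix.unitaryGroup (Fin m) ℂ), NI ρ ∧ Lk x y β ρ := by
  by_contra hcon
  have hun : ∀ (m : ℕ) (ρ : H →* Matrix.unitaryGroup (Fin m) ℂ), NI ρ → ¬ Lk x y β ρ :=
    fun m ρ h1 h2 => hcon ⟨m, ρ, h1, h2⟩
  set N := kerN x y with hNdef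
  set q : C(G, G ⧸ N) := ⟨fun g => (g : G ⧸ N), QuotientGroup.continuous_mk⟩ with hq
  set S' : StarSubalgebra ℂ C(G ⧸ N, ℂ) :=
    (gAlg x y).comap (ContinuousMap.compStarAlgHom' ℂ ℂ q) with hS'
  have hsep : S'.SeparatesPoints := by
    intro a b hab
    obtain ⟨g, rfl⟩ := QuotientGroup.mk_surjective a
    obtain ⟨h, rfl⟩ := QuotientGroup.mk_surjective b
    have h1 : g⁻¹ * h ∉ N := fun h2 => hab (QuotientGroup.eq.2 h2)
    have h2 : ∃ (n : ℕ) (π : G →* Matrix.unitaryGroup (Fin n) ℂ), NI π ∧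
        (∃ (m : ℕ) (ρ : H →* Matrix.unitaryGroup (Fin m) ℂ), NI ρ ∧ Lk x y π ρ) ∧
        π (g⁻¹ * h) ≠ 1 := by
      by_contra hc
      push Not at hc
      exact h1 fun n π h3 h4 => hc n π h3 h4
    obtain ⟨k, π, h3, ⟨m, ρ, h4, h5⟩, h6⟩ := h2
    have h7 : π g ≠ π h := by
      intro h8
      apply h6
      rw [map_mul, map_inv, h8, inv_mul_cancel]
    have h8 : ∃ i j, (π g : Matrix (Fin k) (Fin k) ℂ) i j ≠
        (π h : Matrix (Fin k) (Fin k) ℂ) i j := by
      by_contra hc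
      push Not at hc
      exact h7 (Subtype.ext (by ext i j; exact hc i j))
    obtain ⟨i, j, hij⟩ := h8
    have h9 : ∀ X : Matrix (Fin k) (Fin k) ℂ, (Matrix.single j i 1 * X).trace = X i j := by
      intro X
      rw [Matrix.trace_mul_comm, Matrix.trace_mul_single]
      simp
    obtain ⟨F, hF⟩ := exists_desc N (f := fun g => (π g : Matrix (Fin k) (Fin k) ℂ) i j)
      (cont_entry h3.cont i j) fun g k' hk' => by
        rw [map_mul, hk' k π h3 ⟨m, ρ, h4, h5⟩, mul_one]
    refine ⟨F, ⟨F, ?_, rfl⟩, ?_⟩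
    · change GCoef x y _
      refine ⟨Fin k, inferInstance, inferInstance, π, Matrix.single j i 1,
        good_of_lk S h3 h4 h5, fun g => ?_⟩
      rw [h9]
      exact hF g
    · rw [hF, hF]
      exact hij
  have hdense : S'.topologicalClosure = ⊤ :=
    ContinuousMap.starSubalgebra_topologicalClosure_eq_top_of_separatesPoints _ hsep
  obtain ⟨F, hF⟩ := exists_desc N (f := chi β) (cont_chi hβ.cont) fun g k hk => by
    unfold chi
    rw [map_mul, htr k hk, mul_one]
  have hn0 : (0 : ℝ) < n := by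
    have := hβ.pos
    exact_mod_cast Nat.pos_of_ne_zero this
  have h2 : F ∈ S'.topologicalClosure := by
    rw [hdense]
    exact StarSubalgebra.mem_top
  have h3 : F ∈ closure ((S' : StarSubalgebra ℂ C(G ⧸ N, ℂ)) : Set C(G ⧸ N, ℂ)) := h2
  obtain ⟨F', h4, h5⟩ := Metric.mem_closure_iff.1 h3 (1 / (2 * n)) (by positivity)
  have h6 : GCoef x y fun g => F' (g : G ⧸ N) := h4
  have h7 := orth_good S hβ hun h6
  have hcF : Continuous fun g : G => F' (g : G ⧸ N) :=
    F'.continuous.comp QuotientGroup.continuous_mk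
  have hcc : Continuous fun g => conj (chi β g) :=
    Complex.continuous_conj.comp (cont_chi hβ.cont)
  have h8 : ∫ g, conj (chi β g) * (chi β g - F' (g : G ⧸ N)) ∂μ = 1 := by
    have e : (fun g => conj (chi β g) * (chi β g - F' (g : G ⧸ N))) = fun g =>
        chi β g * conj (chi β g) - conj (chi β g) * F' (g : G ⧸ N) := by
      funext g
      ring
    have i1 : Integrable (fun g => chi β g * conj (chi β g)) μ :=
      intg ((cont_chi hβ.cont).mul hcc)
    have i2 : Integrable (fun g => conj (chi β g) * F' (g : G ⧸ N)) μ := intg (hcc.mul hcF)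
    rw [e, integral_sub i1 i2, h7, int_norm_sq hβ, sub_zero]
  have h9 : ‖∫ g, conj (chi β g) * (chi β g - F' (g : G ⧸ N)) ∂μ‖ ≤ ∫ _, (1 / 2 : ℝ) ∂μ := by
    refine (norm_integral_le_integral_norm _).trans ?_
    refine integral_mono (intg (hcc.mul ((cont_chi hβ.cont).sub hcF))).norm
      (integrable_const _) fun g => ?_
    simp only
    rw [norm_mul, Complex.norm_conj]
    have h10 : ‖chi β g - F' (g : G ⧸ N)‖ ≤ 1 / (2 * n) := by
      rw [← hF g]
      rw [dist_eq_norm] at h5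
      exact (ContinuousMap.norm_coe_le_norm (F - F') (g : G ⧸ N)).trans h5.le
    calc ‖chi β g‖ * ‖chi β g - F' (g : G ⧸ N)‖ ≤ n * (1 / (2 * n)) :=
          mul_le_mul (norm_chi β g) h10 (norm_nonneg _) hn0.le
      _ = 1 / 2 := by field_simp
  rw [h8] at h9
  simp at h9
  norm_num at h9

end Pool.Agent.HX6.GO
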