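import Pool.Agent.HX6.GO.C

set_option autoImplicit false
set_option linter.unusedSectionVars false

/-!
# The determinant occurs in a tensor power
-/

namespace Pool.Agent.HX6.GO

open Complex Filter Topology ComplexConjugate MeasureTheory Pool.Agent.TH553.ST
open scoped Matrix

section mat

variable {n : ℕ}

/-- the tensor power of a matrix, times a constant -/
noncomputable def tpm (c : ℂ) (A : Matrix (Fin n) (Fin n) ℂ) : Matrix (Fin n → Fin n) (Fin n → Fin n) ℂ :=
  Matrix.of fun f f' => c * ∏ i, A (f i) (f' i)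

theorem tpm_mul (c c' : ℂ) (A A' : Matrix (Fin n) (Fin n) ℂ) :
    tpm c A * tpm c' A' = tpm (c * c') (A * A') := by
  ext f f''
  rw [Matrix.mul_apply]
  simp only [tpm, Matrix.of_apply, Matrix.mul_apply]
  rw [Finset.prod_univ_sum, Fintype.piFinset_univ, Finset.mul_sum]
  refine Finset.sum_congr rfl fun f' _ => ?_
  rw [Finset.prod_mul_distrib]
  ring

theorem tpm_one : tpm 1 (1 : Matrix (Fin n) (Fin n) ℂ) = 1 := by
  ext f f'
  simp only [tpm, Matrix.of_apply, one_mul, Matrix.one_apply]
  by_cases h : f = f'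
  · subst h
    simp
  · rw [if_neg h]
    obtain ⟨i, hi⟩ := Function.ne_iff.1 h
    exact Finset.prod_eq_zero (Finset.mem_univ i) (if_neg hi)

theorem tpm_star (c : ℂ) (A : Matrix (Fin n) (Fin n) ℂ) : star (tpm c A) = tpm (star c) (star A) := by
  ext f f'
  simp only [tpm, Matrix.star_apply, Matrix.of_apply, star_mul', star_prod]

theorem tpm_trace (c : ℂ) (A : Matrix (Fin n) (Fin n) ℂ) : (tpm c A).trace = c * A.trace ^ n := by
  unfold Matrix.trace
  simp only [tpm, Matrix.diag_apply, Matrix.of_apply]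
  rw [← Finset.mul_sum]
  congr 1
  have h : (∑ i, A i i) ^ n = ∏ _j : Fin n, ∑ i, A i i := by
    rw [Finset.prod_const, Finset.card_univ, Fintype.card_fin]
  rw [h, Finset.prod_univ_sum, Fintype.piFinset_univ]

/-- the antisymmetric vector -/
noncomputable def eps (f : Fin n → Fin n) : ℂ :=
  Matrix.det ((1 : Matrix (Fin n) (Fin n) ℂ).submatrix f id)

theorem eps_id : eps (n := n) id = 1 := by
  unfold eps
  rw [Matrix.submatrix_id_id, Matrix.det_one]

theorem tpm_eps (c : ℂ) (A : Matrix (Fin n) (Fin n) ℂ) (f : Fin n → Fin n) :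
    ∑ f', tpm c A f f' * eps f' = c * A.det * eps f := by
  have h1 : (A.submatrix f id).det = ∑ f' : Fin n → Fin n, (∏ i, A (f i) (f' i)) * eps f' := by
    have h2 := (Matrix.detRowAlternating (n := Fin n) (R := ℂ)).toMultilinearMap.map_sum
      (fun i j => A (f i) j • (1 : Matrix (Fin n) (Fin n) ℂ) j)
    have h3 : (fun i => ∑ j, A (f i) j • (1 : Matrix (Fin n) (Fin n) ℂ) j) =
        (A.submatrix f id : Matrix (Fin n) (Fin n) ℂ) := by
      funext i k
      rw [Finset.sum_apply]
      simp [Matrix.one_apply]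
    rw [h3] at h2
    refine Eq.trans ?_ (h2.trans ?_)
    · rfl
    · refine Finset.sum_congr rfl fun f' _ => ?_
      rw [MultilinearMap.map_smul_univ, smul_eq_mul]
      rfl
  have h4 : (A.submatrix f id) = (1 : Matrix (Fin n) (Fin n) ℂ).submatrix f id * A := by
    have h5 : (1 : Matrix (Fin n) (Fin n) ℂ).submatrix f id * A =
        ((1 : Matrix (Fin n) (Fin n) ℂ) * A).submatrix f id := by
      ext i j
      rw [Matrix.submatrix_apply, Matrix.mul_apply, Matrix.mul_apply]
      rfl
    rw [h5, Matrix.one_mul]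
  have h6 : (A.submatrix f id).det = eps f * A.det := by
    rw [h4, Matrix.det_mul]
    rfl
  simp only [tpm, Matrix.of_apply]
  have h7 : ∀ f', c * (∏ i, A (f i) (f' i)) * eps f' = c * ((∏ i, A (f i) (f' i)) * eps f') :=
    fun f' => by ring
  simp only [h7]
  rw [← Finset.mul_sum, ← h1, h6]
  ring

end mat

section

variable {G : Type} [Group G] {n : ℕ}

theorem det_norm (u : Matrix.unitaryGroup (Fin n) ℂ) :
    conj (Matrix.det (u : Matrix (Fin n) (Fin n) ℂ)) * Matrix.det (u : Matrix (Fin n) (Fin n) ℂ) =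
      1 := by
  have h1 := congrArg Matrix.det (Unitary.coe_star_mul_self u)
  rw [Matrix.det_mul, Matrix.det_one] at h1
  have h2 : (star (u : Matrix (Fin n) (Fin n) ℂ)).det = conj (Matrix.det (u : Matrix (Fin n) (Fin n) ℂ)) :=
    Matrix.det_conjTranspose _
  rw [h2] at h1
  exact h1

/-- the determinant -/
noncomputable def dt (π : G →* Matrix.unitaryGroup (Fin n) ℂ) : G →* Matrix.unitaryGroup (Fin 1) ℂ where
  toFun g := ⟨Matrix.det (π g : Matrix (Fin n) (Fin n) ℂ) • (1 : Matrix (Fin 1) (Fin 1) ℂ), by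
    rw [Matrix.mem_unitaryGroup_iff', star_smul, star_one, smul_mul_smul_comm, one_mul]
    have := det_norm (π g)
    have h2 : star (Matrix.det (π g : Matrix (Fin n) (Fin n) ℂ)) *
        Matrix.det (π g : Matrix (Fin n) (Fin n) ℂ) = 1 := this
    rw [h2, one_smul]⟩
  map_one' := by
    apply Subtype.ext
    simp
  map_mul' g h := by
    apply Subtype.ext
    simp only [map_mul, Submonoid.coe_mul, Matrix.det_mul]
    rw [smul_mul_smul_comm, one_mul]

theorem dt_val (π : G →* Matrix.unitaryGroup (Fin n) ℂ) (g : G) :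
    (dt π g : Matrix (Fin 1) (Fin 1) ℂ) = Matrix.det (π g : Matrix (Fin n) (Fin n) ℂ) • 1 := rfl

theorem chi_dt (π : G →* Matrix.unitaryGroup (Fin n) ℂ) (g : G) :
    chi (dt π) g = Matrix.det (π g : Matrix (Fin n) (Fin n) ℂ) := by
  unfold chi
  rw [dt_val, Matrix.trace_smul]
  simp

theorem schur_one (σ : G →* Matrix.unitaryGroup (Fin 1) ℂ) : Schur σ := by
  intro A _
  refine ⟨A 0 0, ?_⟩
  ext i j
  rw [Subsingleton.elim i 0, Subsingleton.elim j 0]
  simp

/-- the tensor power divided by the determinant -/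
noncomputable def tpw (π : G →* Matrix.unitaryGroup (Fin n) ℂ) :
    G →* Matrix.unitaryGroup (Fin n → Fin n) ℂ where
  toFun g := ⟨tpm (conj (Matrix.det (π g : Matrix (Fin n) (Fin n) ℂ))) (π g), by
    rw [Matrix.mem_unitaryGroup_iff', tpm_star, tpm_mul]
    have h1 := det_norm (π g)
    have h2 : star (conj (Matrix.det (π g : Matrix (Fin n) (Fin n) ℂ))) *
        conj (Matrix.det (π g : Matrix (Fin n) (Fin n) ℂ)) = 1 := by
      have h3 : star (conj (Matrix.det (π g : Matrix (Fin n) (Fin n) ℂ))) =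
        Matrix.det (π g : Matrix (Fin n) (Fin n) ℂ) := Complex.conj_conj _
      rw [h3, mul_comm]
      exact h1
    rw [h2, Matrix.UnitaryGroup.star_mul_self, tpm_one]⟩
  map_one' := by
    apply Subtype.ext
    change tpm (conj (Matrix.det ((π 1 : Matrix.unitaryGroup (Fin n) ℂ) : Matrix (Fin n) (Fin n) ℂ)))
      ((π 1 : Matrix.unitaryGroup (Fin n) ℂ) : Matrix (Fin n) (Fin n) ℂ) = 1
    rw [map_one]
    change tpm (conj (Matrix.det (1 : Matrix (Fin n) (Fin n) ℂ))) (1 : Matrix (Fin n) (Fin n) ℂ) = 1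
    rw [Matrix.det_one, map_one, tpm_one]
  map_mul' g h := by
    apply Subtype.ext
    change tpm _ _ = tpm _ _ * tpm _ _
    rw [tpm_mul, map_mul]
    change tpm (conj (Matrix.det ((π g : Matrix (Fin n) (Fin n) ℂ) * (π h : Matrix (Fin n) (Fin n) ℂ))))
      ((π g : Matrix (Fin n) (Fin n) ℂ) * (π h : Matrix (Fin n) (Fin n) ℂ)) = _
    rw [Matrix.det_mul, map_mul]

theorem tpw_val (π : G →* Matrix.unitaryGroup (Fin n) ℂ) (g : G) :
    (tpw π g : Matrix (Fin n → Fin n) (Fin n → Fin n) ℂ) =
      tpm (conj (Matrix.det (π g : Matrix (Fin n) (Fin n) ℂ))) (π g) := rfl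

variable [TopologicalSpace G]

theorem cont_det {π : G →* Matrix.unitaryGroup (Fin n) ℂ} (hπ : Continuous π) :
    Continuous fun g => Matrix.det (π g : Matrix (Fin n) (Fin n) ℂ) :=
  (continuous_subtype_val.comp hπ).matrix_det

theorem cont_dt {π : G →* Matrix.unitaryGroup (Fin n) ℂ} (hπ : Continuous π) :
    Continuous (dt π) := by
  refine Continuous.subtype_mk ?_ _
  exact (cont_det hπ).smul continuous_const

theorem cont_tpw {π : G →* Matrix.unitaryGroup (Fin n) ℂ} (hπ : Continuous π) :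
    Continuous (tpw π) := by
  refine Continuous.subtype_mk ?_ _
  refine continuous_matrix fun f f' => ?_
  simp only [tpm, Matrix.of_apply]
  exact (Complex.continuous_conj.comp (cont_det hπ)).mul (continuous_finsetProd _ fun i _ =>
    (continuous_subtype_val.comp hπ).matrix_elem _ _)

variable [IsTopologicalGroup G] [CompactSpace G]
  [MeasurableSpace G] [BorelSpace G] {μ : Measure G} [IsProbabilityMeasure μ] [μ.IsHaarMeasure]

/-- **The determinant occurs in the tensor power.** -/
theorem det_occurs {π : G →* Matrix.unitaryGroup (Fin n) ℂ} (hπ : Continuous π) :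
    ∃ a : ℝ, 0 < a ∧ ∫ g, conj (chi (dt π) g) * chi π g ^ n ∂μ = (a : ℂ) := by
  have h1 := int_trace (μ := μ) (cont_tpw hπ)
  have h2 : ∀ g, (tpw π g : Matrix (Fin n → Fin n) (Fin n → Fin n) ℂ).trace =
      conj (chi (dt π) g) * chi π g ^ n := by
    intro g
    rw [tpw_val, tpm_trace, chi_dt]
    rfl
  simp only [h2] at h1
  refine ⟨_, ?_, h1⟩
  have h3 : ∀ f, ∑ f', pr μ (tpw π) f f' * eps f' = eps f := by
    intro f
    unfold pr
    have h4 : ∀ f', (∫ g, (tpw π g : Matrix (Fin n → Fin n) (Fin n → Fin n) ℂ) f f' ∂μ) * eps f' =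
        ∫ g, (tpw π g : Matrix (Fin n → Fin n) (Fin n → Fin n) ℂ) f f' * eps f' ∂μ := fun f' =>
      (integral_mul_const _ _).symm
    simp only [h4]
    rw [← integral_finsetSum _ fun f' _ => (intg (cont_entry (cont_tpw hπ) f f')).mul_const _]
    have h5 : ∀ g, ∑ f', (tpw π g : Matrix (Fin n → Fin n) (Fin n → Fin n) ℂ) f f' * eps f' =
        eps f := by
      intro g
      rw [tpw_val, tpm_eps, det_norm, one_mul]
    simp only [h5]
    simp
  have h4 := h3 id
  rw [eps_id] at h4
  have h5 : ∃ f', pr μ (tpw π) id f' ≠ 0 := by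
    by_contra hcon
    push Not at hcon
    rw [Finset.sum_eq_zero fun f' _ => by rw [hcon f', zero_mul]] at h4
    exact zero_ne_one h4
  obtain ⟨f', hf'⟩ := h5
  refine Finset.sum_pos' (fun j _ => Finset.sum_nonneg fun i _ => by positivity)
    ⟨f', Finset.mem_univ _, Finset.sum_pos' (fun i _ => by positivity)
      ⟨id, Finset.mem_univ _, by positivity⟩⟩

end

end Pool.Agent.HX6.GO
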