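import Pool.Agent.HX6.GO.T

set_option autoImplicit false
set_option linter.unusedSectionVars false

/-!
# The joint law for natural density
-/

namespace Pool.Agent.HX6.GO

open Complex Filter Topology ComplexConjugate NumberField IsDedekindDomain MeasureTheory
  Pool.Agent.TH553.RS Pool.Agent.TH553.ST Pool.Agent.W540.BE
open scoped Matrix Kronecker

section

variable {K : Type} [Field K] [NumberField K]

/-- uniform limits of functions which have a mean value -/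
theorem mn_unif_ex {F : HeightOneSpectrum (𝓞 K) → ℂ}
    (h : ∀ ε : ℝ, 0 < ε → ∃ (F' : HeightOneSpectrum (𝓞 K) → ℂ) (c' : ℂ),
      (∀ v, ‖F v - F' v‖ ≤ ε) ∧ Tendsto (mn F') atTop (𝓝 c')) :
    ∃ c, Tendsto (mn F) atTop (𝓝 c) := by
  refine cauchySeq_tendsto_of_complete ?_
  rw [Metric.cauchySeq_iff']
  intro ε hε
  obtain ⟨F', c', h1, h2⟩ := h (ε / 6) (by positivity)
  rw [Metric.tendsto_nhds] at h2
  obtain ⟨N, hN⟩ := eventually_atTop.1 (h2 (ε / 6) (by positivity))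
  refine ⟨N, fun n hn => ?_⟩
  have h3 := hN n hn
  have h4 := hN N le_rfl
  rw [dist_eq_norm] at h3 h4 ⊢
  have h5 := mn_sub_le h1 (by positivity) n
  have h6 := mn_sub_le h1 (by positivity) N
  have h7 : mn F n - mn F N = (mn F n - mn F' n) + (mn F' n - c') - (mn F' N - c') -
      (mn F N - mn F' N) := by ring
  rw [h7]
  have h8 := norm_sub_le ((mn F n - mn F' n) + (mn F' n - c') - (mn F' N - c'))
    (mn F N - mn F' N)
  have h9 := norm_sub_le ((mn F n - mn F' n) + (mn F' n - c')) (mn F' N - c')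
  have h10 := norm_add_le (mn F n - mn F' n) (mn F' n - c')
  linarith

end

section

variable {K : Type} [Field K] [NumberField K]
variable {G : Type} [Group G] [TopologicalSpace G] [IsTopologicalGroup G] [CompactSpace G]
  [MeasurableSpace G] [BorelSpace G] {μ : Measure G} [IsProbabilityMeasure μ] [μ.IsHaarMeasure]
variable {H : Type} [Group H] [TopologicalSpace H] [IsTopologicalGroup H] [CompactSpace H]
  [MeasurableSpace H] [BorelSpace H] {ν : Measure H} [IsProbabilityMeasure ν] [ν.IsHaarMeasure]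
  {x : HeightOneSpectrum (𝓞 K) → G} {y : HeightOneSpectrum (𝓞 K) → H}
variable {n m : ℕ} {π : G →* Matrix.unitaryGroup (Fin n) ℂ}
  {ρ : H →* Matrix.unitaryGroup (Fin m) ℂ}

/-- a continuation near `1 + iτ` -/
def Ct (x : HeightOneSpectrum (𝓞 K) → G) (y : HeightOneSpectrum (𝓞 K) → H) {n m : ℕ}
    (π : G →* Matrix.unitaryGroup (Fin n) ℂ) (ρ : H →* Matrix.unitaryGroup (Fin m) ℂ) (τ : ℝ)
    (Λ : ℂ → ℂ) : Prop := MeromorphicAt Λ (1 + τ * I) ∧
      ∀ᶠ s in 𝓝 ((1 : ℂ) + τ * I), (1 : ℝ) < s.re → Λ s = LP π x ρ y s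

theorem Ct.ord {τ : ℝ} {Λ : ℂ → ℂ} (h : Ct x y π ρ τ Λ) :
    ∃ k : ℤ, meromorphicOrderAt Λ (1 + τ * I) = k ∧ Ord x y π ρ τ k := order_LP h.1 h.2

theorem Ord.unique {τ : ℝ} {k l : ℤ} (h : Ord x y π ρ τ k) (h' : Ord x y π ρ τ l) : k = l := by
  have h1 := tendsto_nhds_unique h h'
  have : (k : ℝ) = l := by linarith
  exact_mod_cast this

/-- the mean value of a product of characters -/
theorem avg_ord {k : ℤ} (hk : Ord x y π ρ 0 k) (hc : ∀ τ : ℝ, ∃ Λ, Ct x y π ρ τ Λ)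
    (h0 : ∀ τ : ℝ, τ ≠ 0 → ∀ l : ℤ, Ord x y π ρ τ l → l = 0) :
    Tendsto (mn fun v => chi π (x v) * chi ρ (y v)) atTop (𝓝 (-(k : ℂ))) := by
  obtain ⟨α, h1, h2, h3⟩ := exists_al π x ρ y
  have h4 := taub_ord h1 (L := LP π x ρ y) (fun s _ => by
    unfold LP
    exact tprod_congr fun v => by rw [h3]) k (fun τ => by
    obtain ⟨Λ, hΛ⟩ := hc τ
    obtain ⟨l, h5, h6⟩ := hΛ.ord
    refine ⟨Λ, hΛ.1, hΛ.2, ?_⟩
    rw [h5]
    by_cases hτ : τ = 0
    · subst hτ
      rw [if_pos rfl, hk.unique h6]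
    · rw [if_neg hτ, h0 τ hτ l h6])
  refine h4.congr fun N => ?_
  congr 1
  funext v
  exact h2 v

/-- the hypotheses for natural density -/
structure Line (x : HeightOneSpectrum (𝓞 K) → G) (y : HeightOneSpectrum (𝓞 K) → H)
    (μ : Measure G) (ν : Measure H) : Prop where
  lx : Law x μ
  ly : Law y ν
  ct : ∀ (n m : ℕ) (π : G →* Matrix.unitaryGroup (Fin n) ℂ)
    (ρ : H →* Matrix.unitaryGroup (Fin m) ℂ), NI π → NI ρ → ∀ τ : ℝ, ∃ Λ, Ct x y π ρ τ Λ
  one : ∀ (σ : G →* Matrix.unitaryGroup (Fin 1) ℂ) (σ' : H →* Matrix.unitaryGroup (Fin 1) ℂ),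
    NI σ → NI σ' → Inf σ → Inf σ' → ∀ τ : ℝ, τ ≠ 0 → Ord x y σ σ' τ 0

theorem Line.off (S : Line x y μ ν) (hπ : NI π) (hρ : NI ρ) {τ : ℝ} (hτ : τ ≠ 0) {k : ℤ}
    (hk : Ord x y π ρ τ k) : k = 0 :=
  ord_twist S.lx S.ly (fun n m π ρ h1 h2 τ => by
    obtain ⟨Λ, hΛ⟩ := S.ct n m π ρ h1 h2 τ
    obtain ⟨l, -, h3⟩ := hΛ.ord
    exact ⟨l, h3⟩) S.one hπ hρ hτ hk

theorem Line.avg (S : Line x y μ ν) (hπ : NI π) (hρ : NI ρ) {k : ℤ} (hk : Ord x y π ρ 0 k) :
    Tendsto (mn fun v => chi π (x v) * chi ρ (y v)) atTop (𝓝 (-(k : ℂ))) :=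
  avg_ord hk (S.ct n m π ρ hπ hρ) fun _ hτ _ hl => S.off hπ hρ hτ hl

theorem triv_left (hy : Law y ν) (hc' : Continuous ρ) (h1 : ∀ g, π g = 1) :
    Tendsto (mn fun v => chi π (x v) * chi ρ (y v)) atTop
      (𝓝 ((∫ g, chi π g ∂μ) * ∫ g, chi ρ g ∂ν)) := by
  have h3 := (law_c hy (cont_chi hc') (fun g h => chi_cls ρ g h)).const_mul (n : ℂ)
  have h4 : ∫ g, chi π g ∂μ = n := by
    simp only [chi_triv h1]
    simp
  rw [h4]
  refine h3.congr fun N => ?_
  rw [← mn_mul]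
  congr 1
  funext v
  rw [chi_triv h1]

theorem triv_right (hx : Law x μ) (hc : Continuous π) (h2 : ∀ g, ρ g = 1) :
    Tendsto (mn fun v => chi π (x v) * chi ρ (y v)) atTop
      (𝓝 ((∫ g, chi π g ∂μ) * ∫ g, chi ρ g ∂ν)) := by
  have h3 := (law_c hx (cont_chi hc) (fun g h => chi_cls π g h)).const_mul (m : ℂ)
  have h4 : ∫ g, chi ρ g ∂ν = m := by
    simp only [chi_triv h2]
    simp
  rw [h4, mul_comm]
  refine h3.congr fun N => ?_
  rw [← mn_mul]
  congr 1
  funext v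
  rw [chi_triv h2, mul_comm]

/-- all products of irreducible characters have a mean value -/
theorem Line.avg_ex (S : Line x y μ ν) (hc : Continuous π) (hs : Schur π) (hc' : Continuous ρ)
    (hs' : Schur ρ) : ∃ c, Tendsto (mn fun v => chi π (x v) * chi ρ (y v)) atTop (𝓝 c) := by
  by_cases h1 : ∃ g, π g ≠ 1
  · by_cases h2 : ∃ g, ρ g ≠ 1
    · have hπ : NI π := ⟨hc, hs, h1⟩
      have hρ : NI ρ := ⟨hc', hs', h2⟩
      obtain ⟨Λ, hΛ⟩ := S.ct n m π ρ hπ hρ 0
      obtain ⟨k, -, hk⟩ := hΛ.ord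
      exact ⟨_, S.avg hπ hρ hk⟩
    · push Not at h2
      exact ⟨_, triv_right (μ := μ) (ν := ν) S.lx hc h2⟩
  · push Not at h1
    exact ⟨_, triv_left (μ := μ) (ν := ν) S.ly hc' h1⟩

/-- **The joint law exists.** -/
theorem Line.law_ex [T2Space G] [T2Space H] (S : Line x y μ ν) {f : G × H → ℂ} (hf : Continuous f)
    (hcl : ∀ g g' k k', f (k * g * k⁻¹, k' * g' * k'⁻¹) = f (g, g')) :
    ∃ c, Tendsto (mn fun v => f (x v, y v)) atTop (𝓝 c) := by
  refine mn_unif_ex fun ε hε => ?_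
  obtain ⟨k, m, m', ρ, ρ', a, h1, h2, h4⟩ := class_dense2 hf hcl hε
  choose c hc using fun i => S.avg_ex (h1 i).1 (h1 i).2 (h2 i).1 (h2 i).2
  refine ⟨fun v => ∑ i, a i * (chi (ρ i) (x v) * chi (ρ' i) (y v)), ∑ i, a i * c i,
    fun v => h4 _ _, ?_⟩
  have h5 : Tendsto (fun N => ∑ i, a i * mn (fun v => chi (ρ i) (x v) * chi (ρ' i) (y v)) N)
      atTop (𝓝 (∑ i, a i * c i)) := tendsto_finsetSum _ fun i _ => (hc i).const_mul _
  refine h5.congr fun N => ?_
  rw [mn_sum]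
  exact Finset.sum_congr rfl fun i _ => (mn_mul _ _ _).symm

/-- **Joint equidistribution.** -/
theorem joint_of [T2Space G] [T2Space H] {f : G × H → ℂ} (hf : Continuous f)
    (hcl : ∀ g g' k k', f (k * g * k⁻¹, k' * g' * k'⁻¹) = f (g, g'))
    (hc : ∀ (n m : ℕ) (π : G →* Matrix.unitaryGroup (Fin n) ℂ)
      (ρ : H →* Matrix.unitaryGroup (Fin m) ℂ), Continuous π → Schur π → Continuous ρ → Schur ρ →
      Tendsto (mn fun v => chi π (x v) * chi ρ (y v)) atTop
        (𝓝 ((∫ g, chi π g ∂μ) * ∫ g, chi ρ g ∂ν))) :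
    Tendsto (mn fun v => f (x v, y v)) atTop (𝓝 (∫ g, ∫ h, f (g, h) ∂ν ∂μ)) := by
  refine mn_unif fun ε hε => ?_
  obtain ⟨k, m, m', ρ, ρ', a, h1, h2, h4⟩ := class_dense2 hf hcl hε
  refine ⟨fun v => ∑ i, a i * (chi (ρ i) (x v) * chi (ρ' i) (y v)),
    ∑ i, a i * ((∫ g, chi (ρ i) g ∂μ) * ∫ g, chi (ρ' i) g ∂ν), fun v => h4 _ _, ?_, ?_⟩
  · have hcf : ∀ g, Continuous fun h => f (g, h) := fun g => hf.comp (by fun_prop)
    have hF : ∀ g, Continuous fun h => ∑ i, a i * (chi (ρ i) g * chi (ρ' i) h) := fun g =>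
      continuous_finsetSum _ fun i _ => continuous_const.mul
        (continuous_const.mul (cont_chi (h2 i).1))
    have e1 : ∀ g, ∫ h, (∑ i, a i * (chi (ρ i) g * chi (ρ' i) h)) ∂ν =
        ∑ i, a i * (chi (ρ i) g * ∫ h, chi (ρ' i) h ∂ν) := by
      intro g
      rw [integral_finsetSum Finset.univ (f := fun i h => a i * (chi (ρ i) g * chi (ρ' i) h))
        fun i _ => ((intg (cont_chi (h2 i).1)).const_mul _).const_mul _]
      refine Finset.sum_congr rfl fun i _ => ?_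
      rw [integral_const_mul, integral_const_mul]
    have e2 : ∫ g, (∑ i, a i * (chi (ρ i) g * ∫ h, chi (ρ' i) h ∂ν)) ∂μ =
        ∑ i, a i * ((∫ g, chi (ρ i) g ∂μ) * ∫ h, chi (ρ' i) h ∂ν) := by
      rw [integral_finsetSum Finset.univ (f := fun i g => a i * (chi (ρ i) g *
        ∫ h, chi (ρ' i) h ∂ν)) fun i _ => ((intg (cont_chi (h1 i).1)).mul_const _).const_mul _]
      refine Finset.sum_congr rfl fun i _ => ?_
      rw [integral_const_mul, integral_mul_const]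
    have hG : Continuous fun g => ∑ i, a i * (chi (ρ i) g * ∫ h, chi (ρ' i) h ∂ν) :=
      continuous_finsetSum _ fun i _ => continuous_const.mul
        ((cont_chi (h1 i).1).mul continuous_const)
    -- the inner integral of f is the integral of a uniform limit
    have hfi : Continuous fun g => ∫ h, f (g, h) ∂ν := by
      refine continuous_of_uniform_approx_of_continuous fun u hu => ?_
      obtain ⟨δ, hδ, hδu⟩ := Metric.mem_uniformity_dist.1 hu
      obtain ⟨k, m, m', ρ, ρ', a, h1, h2, h4⟩ := class_dense2 hf hcl (half_pos hδ)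
      refine ⟨fun g => ∑ i, a i * (chi (ρ i) g * ∫ h, chi (ρ' i) h ∂ν),
        continuous_finsetSum _ fun i _ => continuous_const.mul
          ((cont_chi (h1 i).1).mul continuous_const), fun g => hδu ?_⟩
      rw [dist_eq_norm]
      beta_reduce
      have hF : Continuous fun h => ∑ i, a i * (chi (ρ i) g * chi (ρ' i) h) :=
        continuous_finsetSum _ fun i _ => continuous_const.mul
          (continuous_const.mul (cont_chi (h2 i).1))
      have e1 : ∫ h, (∑ i, a i * (chi (ρ i) g * chi (ρ' i) h)) ∂ν =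
          ∑ i, a i * (chi (ρ i) g * ∫ h, chi (ρ' i) h ∂ν) := by
        rw [integral_finsetSum Finset.univ (f := fun i h => a i * (chi (ρ i) g * chi (ρ' i) h))
          fun i _ => ((intg (cont_chi (h2 i).1)).const_mul _).const_mul _]
        refine Finset.sum_congr rfl fun i _ => ?_
        rw [integral_const_mul, integral_const_mul]
      rw [← e1, ← integral_sub (intg (hcf g)) (intg hF)]
      refine lt_of_le_of_lt (norm_integral_le_integral_norm _) ?_
      have h6 : ∫ h, ‖f (g, h) - ∑ i, a i * (chi (ρ i) g * chi (ρ' i) h)‖ ∂ν ≤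
          ∫ _, δ / 2 ∂ν := by
        refine integral_mono (intg ((hcf g).sub hF)).norm (integrable_const _) fun h => h4 g h
      have h7 : ∫ _ : H, δ / 2 ∂ν = δ / 2 := by simp
      linarith
    rw [← e2, ← integral_sub (intg hG) (intg hfi)]
    refine (norm_integral_le_integral_norm _).trans ?_
    have h8 : ∀ g, ‖(∑ i, a i * (chi (ρ i) g * ∫ h, chi (ρ' i) h ∂ν)) - ∫ h, f (g, h) ∂ν‖ ≤ ε := by
      intro g
      rw [← e1, ← integral_sub (intg (hF g)) (intg (hcf g))]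
      refine (norm_integral_le_integral_norm _).trans ?_
      have h9 : ∫ h, ‖(∑ i, a i * (chi (ρ i) g * chi (ρ' i) h)) - f (g, h)‖ ∂ν ≤ ∫ _, ε ∂ν := by
        refine integral_mono (intg ((hF g).sub (hcf g))).norm (integrable_const _) fun h => ?_
        simp only
        rw [norm_sub_rev]
        exact h4 g h
      simpa using h9
    have h9 : ∫ g, ‖(∑ i, a i * (chi (ρ i) g * ∫ h, chi (ρ' i) h ∂ν)) - ∫ h, f (g, h) ∂ν‖ ∂μ ≤
        ∫ _, ε ∂μ := by
      refine integral_mono (intg (hG.sub hfi)).norm (integrable_const _) fun g => h8 g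
    simpa using h9
  · have h5 : Tendsto (fun N => ∑ i, a i * mn (fun v => chi (ρ i) (x v) * chi (ρ' i) (y v)) N)
        atTop (𝓝 (∑ i, a i * ((∫ g, chi (ρ i) g ∂μ) * ∫ g, chi (ρ' i) g ∂ν))) :=
      tendsto_finsetSum _ fun i _ => (hc _ _ _ _ (h1 i).1 (h1 i).2 (h2 i).1 (h2 i).2).const_mul _
    refine h5.congr fun N => ?_
    rw [mn_sum]
    exact Finset.sum_congr rfl fun i _ => (mn_mul _ _ _).symm

/-- the situation at `s = 1` -/
theorem sit_of (hx : Law x μ) (hy : Law y ν)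
    (hc : ∀ (n m : ℕ) (π : G →* Matrix.unitaryGroup (Fin n) ℂ)
    (ρ : H →* Matrix.unitaryGroup (Fin m) ℂ), NI π → NI ρ → ∃ Λ, Ct x y π ρ 0 Λ) :
    Sit x y μ ν := by
  refine ⟨hx, hy, fun n m π ρ h1 h2 => ?_⟩
  obtain ⟨Λ, hΛ⟩ := hc n m π ρ h1 h2
  obtain ⟨k, -, hk⟩ := hΛ.ord
  exact ⟨k, hk.cor⟩

/-- linked representations and orders -/
theorem Ct.lk {Λ : ℂ → ℂ} (h : Ct x y π ρ 0 Λ) {k : ℤ}
    (hk : meromorphicOrderAt Λ (1 + (0 : ℝ) * I) = k) : Ord x y π ρ 0 k ∧ (Lk x y π ρ ↔ k ≠ 0) := by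
  obtain ⟨l, h1, h2⟩ := h.ord
  have h3 : l = k := by
    rw [h1] at hk
    exact_mod_cast hk
  subst h3
  refine ⟨h2, ?_, ?_⟩
  · intro h3 h4
    subst h4
    apply h3
    have := h2.cor
    simpa using this
  · intro h3 h4
    have h5 := h2.cor.unique h4
    apply h3
    have : (l : ℝ) = ((0 : ℤ) : ℝ) := by
      push_cast
      linarith
    exact_mod_cast this

theorem Line.joint [T2Space G] [T2Space H] (S : Line x y μ ν)
    (h0 : ∀ (n m : ℕ) (π : G →* Matrix.unitaryGroup (Fin n) ℂ)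
      (ρ : H →* Matrix.unitaryGroup (Fin m) ℂ), NI π → NI ρ → ¬ Lk x y π ρ)
    {f : G × H → ℂ} (hf : Continuous f)
    (hcl : ∀ g g' k k', f (k * g * k⁻¹, k' * g' * k'⁻¹) = f (g, g')) :
    Tendsto (mn fun v => f (x v, y v)) atTop (𝓝 (∫ g, ∫ h, f (g, h) ∂ν ∂μ)) := by
  refine joint_of hf hcl fun n m π ρ hc hs hc' hs' => ?_
  by_cases h1 : ∃ g, π g ≠ 1
  · by_cases h2 : ∃ g, ρ g ≠ 1
    · have hπ : NI π := ⟨hc, hs, h1⟩
      have hρ : NI ρ := ⟨hc', hs', h2⟩
      obtain ⟨Λ, hΛ⟩ := S.ct n m π ρ hπ hρ 0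
      obtain ⟨k, hk0, hk⟩ := hΛ.ord
      have h3 := S.avg hπ hρ hk
      have h4 : k = 0 := by
        by_contra h5
        exact h0 n m π ρ hπ hρ ((hΛ.lk hk0).2.2 h5)
      subst h4
      rw [int_chi hc hs h1, zero_mul]
      simpa using h3
    · push Not at h2
      exact triv_right S.lx hc h2
  · push Not at h1
    exact triv_left S.ly hc' h1

/-- the converse -/
theorem not_lk_of_joint (S : Line x y μ ν) (hπ : NI π) (hρ : NI ρ)
    (h : Tendsto (mn fun v => chi π (x v) * chi ρ (y v)) atTop (𝓝 0)) : ¬ Lk x y π ρ := by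
  obtain ⟨Λ, hΛ⟩ := S.ct n m π ρ hπ hρ 0
  obtain ⟨k, hk0, hk⟩ := hΛ.ord
  have h3 := tendsto_nhds_unique h (S.avg hπ hρ hk)
  intro h4
  apply (hΛ.lk hk0).2.1 h4
  have : (k : ℂ) = 0 := by
    have := h3.symm
    rwa [neg_eq_zero] at this
  exact_mod_cast this

/-- nothing is linked if and only if the subgroup is everything -/
theorem kerN_top : kerN x y = ⊤ ↔ ∀ (n m : ℕ)
    (π : G →* Matrix.unitaryGroup (Fin n) ℂ) (ρ : H →* Matrix.unitaryGroup (Fin m) ℂ),
    NI π → NI ρ → ¬ Lk x y π ρ := by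
  constructor
  · intro h n m π ρ hπ hρ hl
    obtain ⟨g, hg⟩ := hπ.nt
    have h1 : g ∈ kerN x y := by
      rw [h]
      trivial
    exact hg (h1 n π hπ ⟨m, ρ, hρ, hl⟩)
  · intro h
    rw [eq_top_iff]
    intro g _ n π hπ ⟨m, ρ, hρ, hl⟩
    exact absurd hl (h n m π ρ hπ hρ)

/-- the norms in natural density -/
theorem Line.sq (S : Line x y μ ν) (hπ : NI π) (hρ : NI ρ) {k : ℤ} (hk : Ord x y π ρ 0 k)
    (h0 : k ≠ 0) : Tendsto (mn fun v => ((‖chi π (x v) + (k : ℂ) * conj (chi ρ (y v))‖ ^ 2 : ℝ) : ℂ))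
      atTop (𝓝 0) := by
  have h1 := S.avg hπ hρ hk
  have hk1 : (k : ℂ) ^ 2 = 1 := by
    have h2 := (hk.edge S.lx S.ly hπ hρ h0).1
    have h3 : k ^ 2 = 1 := by
      rw [← sq_abs, h2, one_pow]
    exact_mod_cast h3
  have c1 : Continuous fun g => chi π g * conj (chi π g) :=
    (cont_chi hπ.cont).mul (Complex.continuous_conj.comp (cont_chi hπ.cont))
  have c2 : Continuous fun g => chi ρ g * conj (chi ρ g) :=
    (cont_chi hρ.cont).mul (Complex.continuous_conj.comp (cont_chi hρ.cont))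
  have h2 := law_c S.lx c1 fun g h => by simp only [chi_cls]
  have h3 := law_c S.ly c2 fun g h => by simp only [chi_cls]
  rw [int_norm_sq hπ] at h2
  rw [int_norm_sq hρ] at h3
  have h4 := (Complex.continuous_conj.tendsto _).comp h1
  have h5 := ((h2.add h3).add (h1.const_mul (k : ℂ))).add (h4.const_mul (k : ℂ))
  have e1 : (1 : ℂ) + 1 + k * -k + k * conj (-(k : ℂ)) = 0 := by
    rw [map_neg, map_intCast]
    linear_combination (-2) * hk1
  rw [e1] at h5
  refine h5.congr fun N => ?_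
  have e2 : ∀ f : HeightOneSpectrum (𝓞 K) → ℂ, conj (mn f N) = mn (fun v => conj (f v)) N := by
    intro f
    unfold mn
    rw [Complex.real_smul, Complex.real_smul, map_mul, Complex.conj_ofReal, map_sum]
  simp only [Function.comp]
  rw [e2, ← mn_mul, ← mn_mul]
  unfold mn
  rw [← smul_add, ← smul_add, ← smul_add, ← Finset.sum_add_distrib, ← Finset.sum_add_distrib,
    ← Finset.sum_add_distrib]
  congr 1
  refine Finset.sum_congr rfl fun v _ => ?_
  push_cast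
  have e3 : conj ((k : ℂ) * conj (chi ρ (y v))) = (k : ℂ) * chi ρ (y v) := by
    rw [map_mul, map_intCast, Complex.conj_conj]
  rw [← Complex.mul_conj', map_add, e3, map_mul]
  linear_combination (-(conj (chi ρ (y v)) * chi ρ (y v))) * hk1

end

end Pool.Agent.HX6.GO
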