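import Pool.Agent.HX6.GO.E

set_option autoImplicit false
set_option linter.unusedSectionVars false

/-!
# Finite families: Euler products and Kronecker products
-/

namespace Pool.Agent.HX6.GO

open Complex Filter Topology ComplexConjugate NumberField IsDedekindDomain MeasureTheory
  Pool.Agent.TH553.RS Pool.Agent.TH553.ST Pool.Agent.W540.BE
open scoped Matrix Kronecker Polynomial

section al

variable {K : Type} [Field K] [NumberField K] {b : ℕ}

/-- the Euler product -/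
noncomputable def LA (α : HeightOneSpectrum (𝓞 K) → Fin b → ℂ) (s : ℂ) : ℂ :=
  ∏' v, (∏ j, (1 - α v j * ((nm K v : ℕ) : ℂ) ^ (-s)))⁻¹

theorem size_LA {α : HeightOneSpectrum (𝓞 K) → Fin b → ℂ} (hα : ∀ v j, ‖α v j‖ = 1) (τ : ℝ) :
    (∀ᶠ ε : ℝ in 𝓝[>] 0, LA α (1 + τ * I + ε) ≠ 0) ∧
    Tendsto (fun ε : ℝ => qt (nm K) (fun v => ((∑ j, α v j) * tw K τ v).re) ε -
      Real.log ‖LA α (1 + τ * I + ε)‖ / Real.log (1 / ε)) (𝓝[>] 0) (𝓝 0) := by
  set B : HeightOneSpectrum (𝓞 K) → Polynomial ℂ := fun v =>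
    ∏ j, (1 - Polynomial.C (α v j) * Polynomial.X) with hB
  have hBe : ∀ v z, (B v).eval z = ∏ j, (1 - α v j * z) := by
    intro v z
    rw [hB]
    simp [Polynomial.eval_prod]
  exact size_unit (sysF K) α (Filter.Eventually.of_forall hα)
    (t := fun v => ∑ j, α v j) (C := (b : ℝ)) (sum_le hα)
    (Filter.Eventually.of_forall fun v => rfl) τ B (Filter.Eventually.of_forall hBe)
    (fun v => by
      rw [hBe, Finset.prod_ne_zero_iff]
      intro j _ h4
      have h5 : ‖α v j * ((nm K v : ℕ) : ℂ) ^ (-(1 + τ * I : ℂ))‖ = 1 := by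
        have : α v j * ((nm K v : ℕ) : ℂ) ^ (-(1 + τ * I : ℂ)) = 1 := by linear_combination -h4
        rw [this, norm_one]
      rw [norm_mul, hα, one_mul] at h5
      have h6 := cpow_le_half normSys v (s := 1 + τ * I) (by simp)
      linarith) (LA α)
    (fun s _ => by
      unfold LA
      refine tprod_congr fun v => ?_
      rw [hBe])

/-- the order at `1 + iτ` -/
def OrdA (α : HeightOneSpectrum (𝓞 K) → Fin b → ℂ) (τ : ℝ) (k : ℤ) : Prop :=
  Tendsto (fun ε : ℝ => Real.log ‖LA α (1 + τ * I + ε)‖ / Real.log (1 / ε)) (𝓝[>] 0)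
    (𝓝 (-(k : ℝ)))

theorem OrdA.mean {α : HeightOneSpectrum (𝓞 K) → Fin b → ℂ} (hα : ∀ v j, ‖α v j‖ = 1) {τ : ℝ}
    {k : ℤ} (h : OrdA α τ k) {U : Ultrafilter ℝ} (hU : (U : Filter ℝ) ≤ 𝓝[>] 0) :
    (M (nm K) U fun v => ((∑ j, α v j) * tw K τ v).re) = -(k : ℝ) := by
  have hb : Bc fun v => (∑ j, α v j) * tw K τ v := Bc.mul ⟨b, sum_le hα⟩ (bc_tw τ)
  have h1 := M_lim (sysF K) hU hb.re
  have h2 := h1.sub ((size_LA hα τ).2.mono_left hU)
  rw [sub_zero] at h2
  exact tendsto_nhds_unique (h2.congr fun ε => by ring) (h.mono_left hU)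

theorem order_LA {α : HeightOneSpectrum (𝓞 K) → Fin b → ℂ} (hα : ∀ v j, ‖α v j‖ = 1) {τ : ℝ}
    {Λ : ℂ → ℂ} (h1 : MeromorphicAt Λ (1 + τ * I))
    (h2 : ∀ᶠ s in 𝓝 ((1 : ℂ) + τ * I), (1 : ℝ) < s.re → Λ s = LA α s) :
    ∃ k : ℤ, meromorphicOrderAt Λ (1 + τ * I) = k ∧ OrdA α τ k :=
  order_unit (size_LA hα τ).1 h1 h2

theorem OrdA.unique {α : HeightOneSpectrum (𝓞 K) → Fin b → ℂ} {τ : ℝ} {k l : ℤ}
    (h : OrdA α τ k) (h' : OrdA α τ l) : k = l := by
  have h1 := tendsto_nhds_unique h h'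
  have : (k : ℝ) = l := by linarith
  exact_mod_cast this

end al

section kron

variable {I : Type} [Fintype I] [DecidableEq I] {n : I → ℕ}

/-- the Kronecker product of a family -/
noncomputable def kp (A : ∀ i, Matrix (Fin (n i)) (Fin (n i)) ℂ) :
    Matrix (∀ i, Fin (n i)) (∀ i, Fin (n i)) ℂ := Matrix.of fun f f' => ∏ i, A i (f i) (f' i)

theorem kp_mul (A A' : ∀ i, Matrix (Fin (n i)) (Fin (n i)) ℂ) :
    kp A * kp A' = kp fun i => A i * A' i := by
  ext f f''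
  rw [Matrix.mul_apply]
  simp only [kp, Matrix.of_apply, Matrix.mul_apply]
  rw [Finset.prod_univ_sum, Fintype.piFinset_univ]
  refine Finset.sum_congr rfl fun f' _ => ?_
  rw [Finset.prod_mul_distrib]

theorem kp_one : kp (fun i => (1 : Matrix (Fin (n i)) (Fin (n i)) ℂ)) = 1 := by
  ext f f'
  simp only [kp, Matrix.of_apply, Matrix.one_apply]
  by_cases h : f = f'
  · subst h
    simp
  · rw [if_neg h]
    obtain ⟨i, hi⟩ := Function.ne_iff.1 h
    exact Finset.prod_eq_zero (Finset.mem_univ i) (if_neg hi)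

theorem kp_star (A : ∀ i, Matrix (Fin (n i)) (Fin (n i)) ℂ) : star (kp A) = kp fun i => star (A i) := by
  ext f f'
  simp only [kp, Matrix.star_apply, Matrix.of_apply, star_prod]

theorem kp_unitary (u : ∀ i, Matrix.unitaryGroup (Fin (n i)) ℂ) :
    kp (fun i => (u i : Matrix (Fin (n i)) (Fin (n i)) ℂ)) ∈
      Matrix.unitaryGroup (∀ i, Fin (n i)) ℂ := by
  rw [Matrix.mem_unitaryGroup_iff', kp_star, kp_mul]
  simp only [Unitary.coe_star_mul_self]
  exact kp_one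

theorem kp_trace (A : ∀ i, Matrix (Fin (n i)) (Fin (n i)) ℂ) : (kp A).trace = ∏ i, (A i).trace := by
  unfold Matrix.trace
  simp only [kp, Matrix.diag_apply, Matrix.of_apply]
  rw [Finset.prod_univ_sum, Fintype.piFinset_univ]

end kron

section fam

variable {K : Type} [Field K] [NumberField K]
variable {I : Type} [Fintype I] [DecidableEq I] {G : I → Type} [∀ i, Group (G i)]
  {n : I → ℕ}

/-- the Euler product of a family -/
noncomputable def LF (π : ∀ i, G i →* Matrix.unitaryGroup (Fin (n i)) ℂ)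
    (x : ∀ i, HeightOneSpectrum (𝓞 K) → G i) (s : ℂ) : ℂ :=
  ∏' v, (Matrix.det (1 - (((nm K v : ℕ) : ℂ) ^ (-s)) •
    kp fun i => (π i (x i v) : Matrix (Fin (n i)) (Fin (n i)) ℂ)))⁻¹

theorem exists_alF (π : ∀ i, G i →* Matrix.unitaryGroup (Fin (n i)) ℂ)
    (x : ∀ i, HeightOneSpectrum (𝓞 K) → G i) :
    ∃ α : HeightOneSpectrum (𝓞 K) → Fin (Fintype.card (∀ i, Fin (n i))) → ℂ,
      (∀ v j, ‖α v j‖ = 1) ∧ (∀ v, ∑ j, α v j = ∏ i, chi (π i) (x i v)) ∧
      ∀ s, LF π x s = LA α s := by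
  have h : ∀ v, kp (fun i => (π i (x i v) : Matrix (Fin (n i)) (Fin (n i)) ℂ)) ∈
      Matrix.unitaryGroup (∀ i, Fin (n i)) ℂ := fun v => kp_unitary fun i => π i (x i v)
  choose α h1 h2 h3 using fun v => exists_eig (h v)
  refine ⟨α, h1, fun v => ?_, fun s => ?_⟩
  · rw [h2, kp_trace]
    rfl
  · unfold LF LA
    refine tprod_congr fun v => ?_
    rw [h3]

end fam

end Pool.Agent.HX6.GO
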