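import Pool.Agent.HX6.GO.F

set_option autoImplicit false
set_option linter.unusedSectionVars false

/-!
# Finite families: pairwise independence implies independence
-/

namespace Pool.Agent.HX6.GO

open Complex Filter Topology ComplexConjugate NumberField IsDedekindDomain MeasureTheory
  Pool.Agent.TH553.RS Pool.Agent.TH553.ST Pool.Agent.W540.BE
open scoped Matrix Kronecker

section one

variable {G : Type} [Group G] [TopologicalSpace G] [IsTopologicalGroup G] [CompactSpace G]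
  [MeasurableSpace G] [BorelSpace G] {μ : Measure G} [IsProbabilityMeasure μ] [μ.IsHaarMeasure]
  {n : ℕ} {π : G →* Matrix.unitaryGroup (Fin n) ℂ}

/-- only one-dimensional representations have fourth moment one -/
theorem dim_one (hπ : NI π) (h : ∫ g, (‖chi π g‖ ^ 2) ^ 2 ∂μ = 1) : n = 1 := by
  have h2 := int_sq (μ := μ) hπ.cont hπ.schur hπ.pos
  set f : G → ℝ := fun g => (‖chi π g‖ ^ 2 - 1) ^ 2 with hf
  have hc1 : Continuous fun g => ‖chi π g‖ ^ 2 := by
    have := cont_sq hπ.cont 1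
    simpa using this
  have hc2 : Continuous fun g => (‖chi π g‖ ^ 2) ^ 2 := cont_sq hπ.cont 2
  have hfc : Continuous f := (hc1.sub continuous_const).pow 2
  have h3 : ∫ g, f g ∂μ = 0 := by
    have e : f = fun g => ((‖chi π g‖ ^ 2) ^ 2 - 2 * ‖chi π g‖ ^ 2) + 1 := by
      funext g
      rw [hf]
      ring
    have i1 : Integrable (fun g => (‖chi π g‖ ^ 2) ^ 2) μ := intg hc2
    have i2 : Integrable (fun g => 2 * ‖chi π g‖ ^ 2) μ := (intg hc1).const_mul _
    have i3 : Integrable (fun g => (‖chi π g‖ ^ 2) ^ 2 - 2 * ‖chi π g‖ ^ 2) μ := i1.sub i2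
    have e' : ∫ g, f g ∂μ = ∫ g, ((‖chi π g‖ ^ 2) ^ 2 - 2 * ‖chi π g‖ ^ 2 + 1) ∂μ := by
      rw [e]
    rw [e', integral_add i3 (integrable_const _), integral_sub i1 i2, h,
      integral_const_mul, h2]
    simp
    norm_num
  by_contra hn
  have h4 : f 1 ≠ 0 := by
    rw [hf]
    simp only [chi_one, Complex.norm_natCast]
    intro h5
    have h6 : (n : ℝ) ^ 2 - 1 = 0 := pow_eq_zero_iff two_ne_zero |>.1 h5
    have h7 : (n : ℝ) ^ 2 = 1 := by linarith
    have h8 : (n : ℝ) = 1 := (pow_eq_one_iff_of_nonneg (Nat.cast_nonneg n) two_ne_zero).1 h7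
    exact hn (by exact_mod_cast h8)
  have h5 := int_pos (μ := μ) hfc (fun g => sq_nonneg _) h4
  linarith

theorem RD.her' {f : G → ℂ} (hf : RD f) : Her f := ⟨hf.cont, hf.cls, hf.her⟩

theorem RD.int {f : G → ℂ} (hf : RD f) : ∫ g, f g ∂μ = (((∫ g, f g ∂μ).re : ℝ) : ℂ) :=
  her_real hf.her'

/-- powers of the absolute value of the square of a character -/
theorem rd_sq (hc : Continuous π) (k : ℕ) : RD fun g => (((‖chi π g‖ ^ 2) ^ k : ℝ) : ℂ) := by
  have h := rd_pow ((rd_chi hc).mul (rd_chi hc).conj) k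
  have e : (fun g => (chi π g * conj (chi π g)) ^ k) = fun g => (((‖chi π g‖ ^ 2) ^ k : ℝ) : ℂ) := by
    funext g
    rw [Complex.mul_conj']
    push_cast
    rfl
  rw [e] at h
  exact h

theorem int_ofReal_re {f : G → ℝ} : (∫ g, ((f g : ℝ) : ℂ) ∂μ).re = ∫ g, f g ∂μ := by
  have : ∫ g, ((f g : ℝ) : ℂ) ∂μ = ((∫ g, f g ∂μ : ℝ) : ℂ) := integral_ofReal
  rw [this, Complex.ofReal_re]

end one

section

variable {K : Type} [Field K] [NumberField K]
variable {I : Type} [Fintype I] [DecidableEq I] {G : I → Type} [∀ i, Group (G i)]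
  [∀ i, TopologicalSpace (G i)] [∀ i, IsTopologicalGroup (G i)] [∀ i, CompactSpace (G i)]
  [∀ i, MeasurableSpace (G i)] [∀ i, BorelSpace (G i)] {μ : ∀ i, Measure (G i)}
  [∀ i, IsProbabilityMeasure (μ i)] [∀ i, (μ i).IsHaarMeasure]
  {x : ∀ i, HeightOneSpectrum (𝓞 K) → G i}

/-- pairwise independence -/
structure Pw (x : ∀ i, HeightOneSpectrum (𝓞 K) → G i) (μ : ∀ i, Measure (G i)) : Prop where
  single : ∀ i, Law (x i) (μ i)
  pair : ∀ i j, i ≠ j → ∀ (f : G i → ℂ) (h : G j → ℂ), Continuous f → Continuous h →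
    (∀ g k, f (k * g * k⁻¹) = f g) → (∀ g k, h (k * g * k⁻¹) = h g) →
    Tendsto (mn fun v => f (x i v) * h (x j v)) atTop (𝓝 ((∫ g, f g ∂(μ i)) * ∫ g, h g ∂(μ j)))

/-- independence of the coordinates in `T`, along an ultrafilter -/
def Ind (x : ∀ i, HeightOneSpectrum (𝓞 K) → G i) (μ : ∀ i, Measure (G i)) (U : Ultrafilter ℝ)
    (T : Finset I) : Prop :=
  ∀ f : ∀ i, G i → ℂ, (∀ i, RD (f i)) → (∀ i, i ∉ T → ∀ g, f i g = 1) →
    (M (nm K) U fun v => (∏ i, f i (x i v)).re) = ∏ i, (∫ g, f i g ∂(μ i)).re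

theorem bc_prod {f : ∀ i, G i → ℂ} (hf : ∀ i, Continuous (f i)) (T : Finset I) :
    Bc fun v => ∏ i ∈ T, f i (x i v) := by
  induction T using Finset.induction_on with
  | empty => simpa using Bc.const (P := HeightOneSpectrum (𝓞 K)) 1
  | insert a T ha ih =>
    simp only [Finset.prod_insert ha]
    exact (bc_cont (hf a) (x a)).mul ih

theorem prod_one_of {A : Type} [CommMonoid A] {T : Finset I} {c : I → A} (h : ∀ i, i ∉ T → c i = 1) :
    ∏ i, c i = ∏ i ∈ T, c i :=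
  (Finset.prod_subset (Finset.subset_univ T) fun i _ hi => h i hi).symm

variable {U : Ultrafilter ℝ} (hU : (U : Filter ℝ) ≤ 𝓝[>] 0)
include hU

theorem ind_small (P : Pw x μ) {T : Finset I} (hT : T.card ≤ 2) : Ind x μ U T := by
  intro f hf h1
  have hN := sysF K
  have e1 : ∀ v, ∏ i, f i (x i v) = ∏ i ∈ T, f i (x i v) := fun v =>
    prod_one_of fun i hi => h1 i hi _
  have e2 : ∏ i, (∫ g, f i g ∂(μ i)).re = ∏ i ∈ T, (∫ g, f i g ∂(μ i)).re := by
    refine prod_one_of fun i hi => ?_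
    simp only [h1 i hi]
    simp
  simp only [e1]
  rw [e2]
  have hcase : T.card = 0 ∨ T.card = 1 ∨ T.card = 2 := by omega
  rcases hcase with h | h | h
  · rw [Finset.card_eq_zero.1 h]
    simp only [Finset.prod_empty, Complex.one_re]
    exact M_const hN hU 1
  · obtain ⟨i, rfl⟩ := Finset.card_eq_one.1 h
    simp only [Finset.prod_singleton]
    rw [← Mc_re, Mc_law (P.single i) hU (hf i).cont fun g h => (hf i).cls g h]
  · obtain ⟨i, j, hij, rfl⟩ := Finset.card_eq_two.1 h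
    simp only [Finset.prod_pair hij]
    have h2 := P.pair i j hij (f i) (f j) (hf i).cont (hf j).cont (hf i).cls (hf j).cls
    have h3 := (Complex.continuous_re.tendsto _).comp h2
    have h4 : Tendsto (mn fun v => (f i (x i v) * f j (x j v)).re) atTop
        (𝓝 ((∫ g, f i g ∂(μ i)).re * (∫ g, f j g ∂(μ j)).re)) := by
      have e3 : ((∫ g, f i g ∂(μ i)) * ∫ g, f j g ∂(μ j)).re =
          (∫ g, f i g ∂(μ i)).re * (∫ g, f j g ∂(μ j)).re := by
        rw [(hf i).int, (hf j).int, Complex.re_ofReal_mul, Complex.ofReal_re, Complex.ofReal_re]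
      rw [e3] at h3
      refine h3.congr fun N => ?_
      simp only [Function.comp]
      exact re_mn _ _
    exact M_of_mn hU ((bc_cont (hf i).cont (x i)).mul (bc_cont (hf j).cont (x j))).re h4

/-- moments -/
theorem ind_mom {T : Finset I} (h : Ind x μ U T) {n : I → ℕ}
    {π : ∀ i, G i →* Matrix.unitaryGroup (Fin (n i)) ℂ} (hc : ∀ i, Continuous (π i)) (e : I → ℕ)
    (he : ∀ i, i ∉ T → e i = 0) :
    (M (nm K) U fun v => ∏ i, (‖chi (π i) (x i v)‖ ^ 2) ^ e i) =
      ∏ i, ∫ g, (‖chi (π i) g‖ ^ 2) ^ e i ∂(μ i) := by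
  have h1 := h (fun i g => (((‖chi (π i) g‖ ^ 2) ^ e i : ℝ) : ℂ)) (fun i => rd_sq (hc i) (e i))
    fun i hi g => by simp [he i hi]
  have h2 : ∀ v, (∏ i, (((‖chi (π i) (x i v)‖ ^ 2) ^ e i : ℝ) : ℂ)).re =
      ∏ i, (‖chi (π i) (x i v)‖ ^ 2) ^ e i := by
    intro v
    rw [← Complex.ofReal_prod, Complex.ofReal_re]
  simp only [h2] at h1
  rw [h1]
  exact Finset.prod_congr rfl fun i _ => int_ofReal_re

/-- **The edge for families.** -/
theorem fam_edge {T : Finset I} (hT : 3 ≤ T.card) (h : ∀ T', T' ⊂ T → Ind x μ U T') {n : I → ℕ}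
    {π : ∀ i, G i →* Matrix.unitaryGroup (Fin (n i)) ℂ} (hc : ∀ i, Continuous (π i))
    (hπ : ∀ i ∈ T, NI (π i)) (h1 : ∀ i, i ∉ T → ∀ g, chi (π i) g = 1) {τ : ℝ} {k : ℤ}
    (hk : (M (nm K) U fun v => ((∏ i, chi (π i) (x i v)) * tw K τ v).re) = -(k : ℝ)) (h0 : k ≠ 0) :
    ∀ i ∈ T, n i = 1 := by
  intro i₁ hi₁
  have hN := sysF K
  have hr1 : (1 : ℝ) ≤ (-(k : ℝ)) ^ 2 := by
    rw [neg_sq]
    have : 1 ≤ k ^ 2 := by
      have := Int.one_le_abs h0
      rw [← sq_abs]
      nlinarith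
    exact_mod_cast this
  obtain ⟨i₀, hi₀, hne⟩ := Finset.exists_mem_ne (by omega : 1 < T.card) i₁
  have hsub1 : T.erase i₀ ⊂ T := Finset.erase_ssubset hi₀
  have hsub2 : {i₀, i₁} ⊂ T := by
    refine Finset.ssubset_iff_subset_ne.2 ⟨?_, fun h2 => ?_⟩
    · intro i hi
      rw [Finset.mem_insert, Finset.mem_singleton] at hi
      rcases hi with rfl | rfl
      · exact hi₀
      · exact hi₁
    · rw [← h2, Finset.card_pair hne] at hT
      omega
  have hi₁' : i₁ ∈ T.erase i₀ := Finset.mem_erase.2 ⟨hne.symm, hi₁⟩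
  -- the two factors
  set t : HeightOneSpectrum (𝓞 K) → ℂ := fun v => ∏ i ∈ T.erase i₀, chi (π i) (x i v) with ht
  set c : HeightOneSpectrum (𝓞 K) → ℂ := fun v => chi (π i₀) (x i₀ v) * tw K τ v with hcdef
  have htb : Bc t := bc_prod (f := fun i => chi (π i)) (fun i => cont_chi (hc i)) _
  have hcb : Bc c := (bc_chi (x i₀) (π i₀)).mul (bc_tw τ)
  have htc : ∀ v, (∏ i, chi (π i) (x i v)) * tw K τ v = t v * c v := by
    intro v
    rw [prod_one_of (T := T) fun i hi => h1 i hi _, ← Finset.mul_prod_erase T _ hi₀]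
    simp only [ht, hcdef]
    ring
  simp only [htc] at hk
  have hnt : ∀ v, ‖t v‖ ^ 2 = ∏ i ∈ T.erase i₀, ‖chi (π i) (x i v)‖ ^ 2 := by
    intro v
    simp only [ht]
    rw [norm_prod, Finset.prod_pow]
  have hncv : ∀ v, ‖c v‖ ^ 2 = ‖chi (π i₀) (x i₀ v)‖ ^ 2 := by
    intro v
    simp only [hcdef]
    rw [norm_mul]
    have : ‖tw K τ v‖ = 1 := norm_cpow_I (nm_pos v) τ
    rw [this, mul_one]
  have hsq : ∀ i ∈ T, ∫ g, ‖chi (π i) g‖ ^ 2 ∂(μ i) = 1 := fun i hi =>
    int_sq (hπ i hi).cont (hπ i hi).schur (hπ i hi).pos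
  -- the second moments
  have m1 : (M (nm K) U fun v => ‖t v‖ ^ 2) = 1 := by
    have h2 := ind_mom hU (h _ hsub1) hc (fun i => if i ∈ T.erase i₀ then 1 else 0)
      fun i hi => if_neg hi
    have e1 : ∀ v, ∏ i, (‖chi (π i) (x i v)‖ ^ 2) ^ (if i ∈ T.erase i₀ then 1 else 0) =
        ‖t v‖ ^ 2 := by
      intro v
      rw [hnt, prod_one_of (T := T.erase i₀) fun i hi => by rw [if_neg hi, pow_zero]]
      exact Finset.prod_congr rfl fun i hi => by rw [if_pos hi, pow_one]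
    have e2 : ∏ i, ∫ g, (‖chi (π i) g‖ ^ 2) ^ (if i ∈ T.erase i₀ then 1 else 0) ∂(μ i) = 1 := by
      refine Finset.prod_eq_one fun i _ => ?_
      by_cases hi : i ∈ T.erase i₀
      · simp only [if_pos hi, pow_one]
        exact hsq i (Finset.mem_of_mem_erase hi)
      · simp only [if_neg hi, pow_zero]
        simp
    simp only [e1] at h2
    rw [h2, e2]
  have m2 : (M (nm K) U fun v => ‖c v‖ ^ 2) = 1 := by
    have h2 := ind_mom hU (h _ hsub2) hc (fun i => if i = i₀ then 1 else 0)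
      fun i hi => if_neg (by
        rintro rfl
        exact hi (Finset.mem_insert_self _ _))
    have e1 : ∀ v, ∏ i, (‖chi (π i) (x i v)‖ ^ 2) ^ (if i = i₀ then 1 else 0) = ‖c v‖ ^ 2 := by
      intro v
      rw [hncv, Finset.prod_eq_single i₀ (fun i _ hi => by rw [if_neg hi, pow_zero])
        (fun hi => absurd (Finset.mem_univ _) hi), if_pos rfl, pow_one]
    have e2 : ∏ i, ∫ g, (‖chi (π i) g‖ ^ 2) ^ (if i = i₀ then 1 else 0) ∂(μ i) = 1 := by
      refine Finset.prod_eq_one fun i _ => ?_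
      by_cases hi : i = i₀
      · simp only [if_pos hi, pow_one]
        rw [hi]
        exact hsq i₀ hi₀
      · simp only [if_neg hi, pow_zero]
        simp
    simp only [e1] at h2
    rw [h2, e2]
  have hk2 := edge_le hN hU htb hcb m1.le m2.le
  rw [hk] at hk2
  have hr : (-(k : ℝ)) ^ 2 = 1 := le_antisymm hk2 hr1
  have h2 := edge_eq hN hU htb hcb m1.le m2.le hk hr1
  have h3 : Cl (nm K) U t fun v => ((-(k : ℝ) : ℝ) : ℂ) * conj (c v) := by
    have h4 := M_zero_of_sq hN hU (Bc.df htb hcb (-(k : ℝ))).norm h2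
    unfold Cl
    exact h4
  have hb1 : Bc fun v => ((-(k : ℝ) : ℝ) : ℂ) * conj (c v) := (Bc.const _).mul hcb.conj
  have h4 := Cl.mul hN hU htb hb1 htb.conj hb1.conj h3 (Cl.conj hN hU h3)
  -- mixed fourth moment
  set w : HeightOneSpectrum (𝓞 K) → ℂ := fun v => ((‖chi (π i₁) (x i₁ v)‖ ^ 2 : ℝ) : ℂ) with hw
  have hwb : Bc w := by
    have := (bc_chi (x i₁) (π i₁)).mul (bc_chi (x i₁) (π i₁)).conj
    obtain ⟨C, hC⟩ := this
    refine ⟨C, fun v => ?_⟩
    have h5 : ‖chi (π i₁) (x i₁ v) * conj (chi (π i₁) (x i₁ v))‖ ≤ C := hC v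
    rw [Complex.mul_conj'] at h5
    simp only [hw]
    push_cast
    exact h5
  have h5 := Cl.mean hN hU ((htb.mul htb.conj).mul hwb) ((hb1.mul hb1.conj).mul hwb)
    (Cl.mul_right hN hU (htb.mul htb.conj) (hb1.mul hb1.conj) hwb h4)
  have h6 := congrArg Complex.re h5
  rw [Mc_re, Mc_re] at h6
  have e1 : ∀ v, (t v * conj (t v) * w v).re = ∏ i, (‖chi (π i) (x i v)‖ ^ 2) ^
      ((if i ∈ T.erase i₀ then 1 else 0) + (if i = i₁ then 1 else 0)) := by
    intro v
    have h7 : t v * conj (t v) * w v = ((‖t v‖ ^ 2 * ‖chi (π i₁) (x i₁ v)‖ ^ 2 : ℝ) : ℂ) := by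
      rw [Complex.mul_conj']
      simp only [hw]
      push_cast
      rfl
    rw [h7, Complex.ofReal_re, hnt]
    simp only [pow_add]
    rw [Finset.prod_mul_distrib]
    congr 1
    · rw [prod_one_of (T := T.erase i₀) fun i hi => by rw [if_neg hi, pow_zero]]
      exact (Finset.prod_congr rfl fun i hi => by rw [if_pos hi, pow_one]).symm
    · rw [Finset.prod_eq_single i₁ (fun i _ hi => by rw [if_neg hi, pow_zero])
        (fun hi => absurd (Finset.mem_univ _) hi), if_pos rfl, pow_one]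
  have e2 : ∀ v, (((-(k : ℝ) : ℝ) : ℂ) * conj (c v) * conj (((-(k : ℝ) : ℝ) : ℂ) * conj (c v)) *
      w v).re = ∏ i, (‖chi (π i) (x i v)‖ ^ 2) ^
      ((if i = i₀ then 1 else 0) + (if i = i₁ then 1 else 0)) := by
    intro v
    have h7 : ((-(k : ℝ) : ℝ) : ℂ) * conj (c v) * conj (((-(k : ℝ) : ℝ) : ℂ) * conj (c v)) * w v =
        (((-(k : ℝ)) ^ 2 * (‖c v‖ ^ 2 * ‖chi (π i₁) (x i₁ v)‖ ^ 2) : ℝ) : ℂ) := by
      rw [Complex.mul_conj', norm_mul, Complex.norm_real, Complex.norm_conj]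
      simp only [hw]
      have : (‖(-(k : ℝ))‖ : ℝ) ^ 2 = (-(k : ℝ)) ^ 2 := by
        rw [Real.norm_eq_abs, sq_abs]
      rw [← this]
      push_cast
      ring
    rw [h7, Complex.ofReal_re, hr, one_mul, hncv]
    simp only [pow_add]
    rw [Finset.prod_mul_distrib]
    congr 1
    · rw [Finset.prod_eq_single i₀ (fun i _ hi => by rw [if_neg hi, pow_zero])
        (fun hi => absurd (Finset.mem_univ _) hi), if_pos rfl, pow_one]
    · rw [Finset.prod_eq_single i₁ (fun i _ hi => by rw [if_neg hi, pow_zero])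
        (fun hi => absurd (Finset.mem_univ _) hi), if_pos rfl, pow_one]
  simp only [e1, e2] at h6
  rw [ind_mom hU (h _ hsub1) hc (fun i => (if i ∈ T.erase i₀ then 1 else 0) +
      (if i = i₁ then 1 else 0)) (fun i hi => by
        rw [if_neg hi, if_neg (by rintro rfl; exact hi hi₁')]),
    ind_mom hU (h _ hsub2) hc (fun i => (if i = i₀ then 1 else 0) +
      (if i = i₁ then 1 else 0)) (fun i hi => by
        rw [Finset.mem_insert, Finset.mem_singleton, not_or] at hi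
        rw [if_neg hi.1, if_neg hi.2])] at h6
  have e3 : ∏ i, ∫ g, (‖chi (π i) g‖ ^ 2) ^ ((if i ∈ T.erase i₀ then 1 else 0) +
      (if i = i₁ then 1 else 0)) ∂(μ i) = ∫ g, (‖chi (π i₁) g‖ ^ 2) ^ 2 ∂(μ i₁) := by
    rw [Finset.prod_eq_single i₁]
    · rw [if_pos hi₁', if_pos rfl]
    · intro i _ hi
      rw [if_neg hi, add_zero]
      by_cases hi' : i ∈ T.erase i₀
      · simp only [if_pos hi', pow_one]
        exact hsq i (Finset.mem_of_mem_erase hi')
      · simp only [if_neg hi', pow_zero]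
        simp
    · exact fun hi => absurd (Finset.mem_univ _) hi
  have e4 : ∏ i, ∫ g, (‖chi (π i) g‖ ^ 2) ^ ((if i = i₀ then 1 else 0) +
      (if i = i₁ then 1 else 0)) ∂(μ i) = 1 := by
    refine Finset.prod_eq_one fun i _ => ?_
    by_cases hi : i = i₀
    · have hi' : i ≠ i₁ := by
        rw [hi]
        exact hne
      simp only [if_pos hi, if_neg hi', add_zero, pow_one]
      rw [hi]
      exact hsq i₀ hi₀
    · by_cases hi' : i = i₁
      · simp only [if_neg hi, if_pos hi', zero_add, pow_one]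
        rw [hi']
        exact hsq i₁ hi₁
      · simp only [if_neg hi, if_neg hi', add_zero, pow_zero]
        simp
  rw [e3, e4] at h6
  exact dim_one (hπ i₁ hi₁) h6

end

end Pool.Agent.HX6.GO
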