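import Pool.Agent.HX6.GO.F2

set_option autoImplicit false
set_option linter.unusedSectionVars false

/-!
# Finite families: the conclusions
-/

namespace Pool.Agent.HX6.GO

open Complex Filter Topology ComplexConjugate NumberField IsDedekindDomain MeasureTheory
  Pool.Agent.TH553.RS Pool.Agent.TH553.ST Pool.Agent.W540.BE
open scoped Matrix Kronecker

section

variable {K : Type} [Field K] [NumberField K]
variable {Ix : Type} [Fintype Ix] [DecidableEq Ix] {G : Ix → Type} [∀ i, Group (G i)]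
  [∀ i, TopologicalSpace (G i)] [∀ i, IsTopologicalGroup (G i)] [∀ i, CompactSpace (G i)]
  [∀ i, MeasurableSpace (G i)] [∀ i, BorelSpace (G i)] {μ : ∀ i, Measure (G i)}
  [∀ i, IsProbabilityMeasure (μ i)] [∀ i, (μ i).IsHaarMeasure]
  {x : ∀ i, HeightOneSpectrum (𝓞 K) → G i}

/-- a family of representations which are nontrivial irreducible for the indices in `T`, and
one-dimensional trivial for the others -/
structure Supp (T : Finset Ix) {n : Ix → ℕ} (π : ∀ i, G i →* Matrix.unitaryGroup (Fin (n i)) ℂ) :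
    Prop where
  ni : ∀ i ∈ T, NI (π i)
  dim : ∀ i, i ∉ T → n i = 1
  triv : ∀ i, i ∉ T → ∀ g, π i g = 1

theorem Supp.cont {T : Finset Ix} {n : Ix → ℕ}
    {π : ∀ i, G i →* Matrix.unitaryGroup (Fin (n i)) ℂ} (h : Supp T π) (i : Ix) :
    Continuous (π i) := by
  by_cases hi : i ∈ T
  · exact (h.ni i hi).cont
  · have : (fun g => π i g) = fun _ => 1 := funext (h.triv i hi)
    have h2 : (⇑(π i) : G i → Matrix.unitaryGroup (Fin (n i)) ℂ) = fun _ => 1 := this
    rw [h2]
    exact continuous_const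

theorem Supp.chi {T : Finset Ix} {n : Ix → ℕ}
    {π : ∀ i, G i →* Matrix.unitaryGroup (Fin (n i)) ℂ} (h : Supp T π) {i : Ix} (hi : i ∉ T)
    (g : G i) : chi (π i) g = 1 := by
  rw [chi_triv (h.triv i hi), h.dim i hi]
  simp

/-- the hypotheses for families -/
structure FH (x : ∀ i, HeightOneSpectrum (𝓞 K) → G i) (μ : ∀ i, Measure (G i)) : Prop where
  pw : Pw x μ
  ct : ∀ (T : Finset Ix), 3 ≤ T.card → ∀ (n : Ix → ℕ)
    (π : ∀ i, G i →* Matrix.unitaryGroup (Fin (n i)) ℂ), Supp T π → ∀ τ : ℝ, ∃ Λ : ℂ → ℂ,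
    MeromorphicAt Λ (1 + τ * I) ∧
      ∀ᶠ s in 𝓝 ((1 : ℂ) + τ * I), (1 : ℝ) < s.re → Λ s = LF π x s
  one : ∀ (T : Finset Ix), 3 ≤ T.card →
    ∀ π : ∀ i, G i →* Matrix.unitaryGroup (Fin 1) ℂ, Supp T (n := fun _ => 1) π → ∀ τ : ℝ,
    ∃ Λ : ℂ → ℂ, MeromorphicAt Λ (1 + τ * I) ∧
      (∀ᶠ s in 𝓝 ((1 : ℂ) + τ * I), (1 : ℝ) < s.re → Λ s = LF (n := fun _ => 1) π x s) ∧
      meromorphicOrderAt Λ (1 + τ * I) = 0

/-- no zeros and poles, given the independence of the smaller families -/
theorem FH.zero (S : FH x μ) {T : Finset Ix} (hT : 3 ≤ T.card) {U : Ultrafilter ℝ}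
    (hU : (U : Filter ℝ) ≤ 𝓝[>] 0) (h : ∀ T', T' ⊂ T → Ind x μ U T') {n : Ix → ℕ}
    {π : ∀ i, G i →* Matrix.unitaryGroup (Fin (n i)) ℂ} (hπ : Supp T π) {b : ℕ}
    {α : HeightOneSpectrum (𝓞 K) → Fin b → ℂ} (hα : ∀ v j, ‖α v j‖ = 1)
    (hs : ∀ v, ∑ j, α v j = ∏ i, chi (π i) (x i v)) (hL : ∀ s, LF π x s = LA α s) {τ : ℝ} {k : ℤ}
    (hk : OrdA α τ k) : k = 0 := by
  by_contra h0
  have h1 := hk.mean hα hU
  simp only [hs] at h1
  have h2 := fam_edge hU hT h hπ.cont hπ.ni (fun i hi g => hπ.chi hi g) h1 h0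
  have h3 : n = fun _ => 1 := by
    funext i
    by_cases hi : i ∈ T
    · exact h2 i hi
    · exact hπ.dim i hi
  subst h3
  obtain ⟨Λ, h4, h5, h6⟩ := S.one T hT π hπ τ
  obtain ⟨l, h7, h8⟩ := order_LA hα h4 (h5.mono fun s hs1 hs2 => by rw [hs1 hs2, hL])
  have h9 : l = 0 := by
    rw [h7] at h6
    exact_mod_cast h6
  exact h0 (by rw [hk.unique h8, h9])

/-- **Independence along ultrafilters.** -/
theorem FH.ind (S : FH x μ) {U : Ultrafilter ℝ} (hU : (U : Filter ℝ) ≤ 𝓝[>] 0) (T : Finset Ix) :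
    Ind x μ U T := by
  have hN := sysF K
  induction T using Finset.strongInduction with
  | H T ih =>
  by_cases hT : T.card ≤ 2
  · exact ind_small hU S.pw hT
  push Not at hT
  intro f hf h1
  -- expansions
  have hex : ∀ i, ∃ (J : Type) (_ : Fintype J) (m : J → ℕ)
      (ρ : ∀ j, G i →* Matrix.unitaryGroup (Fin (m j)) ℂ) (a : J → ℝ),
      (∀ j, Continuous (ρ j) ∧ Schur (ρ j)) ∧ (∀ g, f i g = ∑ j, (a j : ℂ) * chi (ρ j) g) ∧
      (i ∉ T → ∀ j, m j = 1 ∧ ∀ g, ρ j g = 1) := by
    intro i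
    by_cases hi : i ∈ T
    · obtain ⟨J, iJ, m, ρ, a, h2, h3⟩ := (hf i).expand
      exact ⟨J, iJ, m, ρ, a, h2, h3, fun h => absurd hi h⟩
    · refine ⟨Unit, inferInstance, fun _ => 1, fun _ => 1, fun _ => 1,
        fun _ => ⟨continuous_const, schur_one _⟩, fun g => ?_, fun _ _ => ⟨rfl, fun _ => rfl⟩⟩
      have e0 : chi (1 : G i →* Matrix.unitaryGroup (Fin 1) ℂ) g = ((1 : ℕ) : ℂ) :=
        chi_triv (fun _ => rfl) g
      rw [h1 i hi]
      simp only [Finset.univ_unique, Finset.sum_singleton]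
      rw [e0]
      simp
  choose J iJ m ρ a h2 h3 h4 using hex
  have hcχ : ∀ (p : ∀ i, J i) i, Continuous (chi (ρ i (p i))) := fun p i => cont_chi (h2 i _).1
  -- the means of the products of characters
  have key : ∀ p : ∀ i, J i, (M (nm K) U fun v => (∏ i, chi (ρ i (p i)) (x i v)).re) =
      ∏ i, (∫ g, chi (ρ i (p i)) g ∂(μ i)).re := by
    intro p
    by_cases hall : ∀ i ∈ T, ∃ g, ρ i (p i) g ≠ 1
    · have hS : Supp T (n := fun i => m i (p i)) fun i => ρ i (p i) :=
        ⟨fun i hi => ⟨(h2 i _).1, (h2 i _).2, hall i hi⟩, fun i hi => (h4 i hi _).1,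
          fun i hi => (h4 i hi _).2⟩
      obtain ⟨α, b1, b2, b3⟩ := exists_alF (n := fun i => m i (p i)) (fun i => ρ i (p i)) x
      obtain ⟨Λ, c1, c2⟩ := S.ct T hT _ _ hS 0
      obtain ⟨k, -, c3⟩ := order_LA b1 c1 (c2.mono fun s hs1 hs2 => by rw [hs1 hs2, b3])
      have c4 := S.zero hT hU ih hS b1 b2 b3 c3
      subst c4
      have c5 := c3.mean b1 hU
      simp only [b2, tw_zero, mul_one] at c5
      rw [c5]
      obtain ⟨i, hi⟩ := Finset.card_pos.1 (by omega : 0 < T.card)
      rw [Finset.prod_eq_zero (Finset.mem_univ i)]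
      · simp
      · rw [int_chi (h2 i _).1 (h2 i _).2 (hall i hi)]
        rfl
    · push Not at hall
      obtain ⟨i, hi, htr⟩ := hall
      have c1 := ih (T.erase i) (Finset.erase_ssubset hi)
        (fun j => if j = i then fun _ => 1 else chi (ρ j (p j)))
        (fun j => by
          split_ifs
          · have := RD.const (G := G j) 1
            simpa using this
          · exact rd_chi (h2 j _).1)
        (fun j hj g => by
          split_ifs with hji
          · rfl
          · have hjT : j ∉ T := fun h => hj (Finset.mem_erase.2 ⟨hji, h⟩)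
            rw [chi_triv (h4 j hjT _).2, (h4 j hjT _).1]
            simp)
      have e1 : ∀ v, (∏ j, chi (ρ j (p j)) (x j v)).re = (m i (p i) : ℝ) *
          (∏ j, (if j = i then fun _ => 1 else chi (ρ j (p j)) : G j → ℂ) (x j v)).re := by
        intro v
        rw [← Complex.re_ofReal_mul]
        congr 1
        rw [← Finset.mul_prod_erase Finset.univ _ (Finset.mem_univ i),
          ← Finset.mul_prod_erase Finset.univ (fun j =>
            (if j = i then fun _ => 1 else chi (ρ j (p j)) : G j → ℂ) (x j v))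
            (Finset.mem_univ i), if_pos rfl, chi_triv htr, one_mul]
        push_cast
        congr 1
        refine Finset.prod_congr rfl fun j hj => ?_
        rw [if_neg (Finset.ne_of_mem_erase hj)]
      have hb : Bd fun v =>
          (∏ j, (if j = i then fun _ => 1 else chi (ρ j (p j)) : G j → ℂ) (x j v)).re := by
        refine (bc_prod (f := fun j => if j = i then fun _ => 1 else chi (ρ j (p j)))
          (fun j => ?_) Finset.univ).re
        split_ifs
        · exact continuous_const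
        · exact hcχ p j
      simp only [e1]
      rw [M_const_mul hN hU hb, c1, ← Finset.mul_prod_erase Finset.univ
          (fun j => (∫ g, chi (ρ j (p j)) g ∂(μ j)).re) (Finset.mem_univ i),
        ← Finset.mul_prod_erase Finset.univ (fun j => (∫ g,
          (if j = i then fun _ => 1 else chi (ρ j (p j)) : G j → ℂ) g ∂(μ j)).re)
          (Finset.mem_univ i)]
      have e2 : (∫ g, chi (ρ i (p i)) g ∂(μ i)).re = m i (p i) := by
        simp only [chi_triv htr]
        simp
      have e3 : (∫ g, (if i = i then fun _ => 1 else chi (ρ i (p i)) : G i → ℂ) g ∂(μ i)).re =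
          1 := by
        simp
      rw [e2, e3, one_mul]
      congr 1
      refine Finset.prod_congr rfl fun j hj => ?_
      rw [if_neg (Finset.ne_of_mem_erase hj)]
  -- the expansion of the products
  have e1 : ∀ v, (∏ i, f i (x i v)).re = ∑ p : ∀ i, J i, (∏ i, a i (p i)) *
      (∏ i, chi (ρ i (p i)) (x i v)).re := by
    intro v
    simp only [h3]
    rw [Finset.prod_univ_sum, Fintype.piFinset_univ, Complex.re_sum]
    refine Finset.sum_congr rfl fun p _ => ?_
    rw [Finset.prod_mul_distrib, ← Complex.ofReal_prod, Complex.re_ofReal_mul]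
  have e2 : ∏ i, (∫ g, f i g ∂(μ i)).re = ∑ p : ∀ i, J i, (∏ i, a i (p i)) *
      ∏ i, (∫ g, chi (ρ i (p i)) g ∂(μ i)).re := by
    have e3 : ∀ i, (∫ g, f i g ∂(μ i)).re = ∑ j, a i j * (∫ g, chi (ρ i j) g ∂(μ i)).re := by
      intro i
      simp only [h3]
      rw [integral_finsetSum _ fun j _ => (intg (cont_chi (h2 i j).1)).const_mul _,
        Complex.re_sum]
      refine Finset.sum_congr rfl fun j _ => ?_
      rw [integral_const_mul, Complex.re_ofReal_mul]
    simp only [e3]
    rw [Finset.prod_univ_sum, Fintype.piFinset_univ]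
    refine Finset.sum_congr rfl fun p _ => ?_
    rw [Finset.prod_mul_distrib]
  simp only [e1]
  have hbp : ∀ p : ∀ i, J i, Bd fun v => (∏ i, chi (ρ i (p i)) (x i v)).re := fun p =>
    (bc_prod (f := fun i => chi (ρ i (p i))) (fun i => hcχ p i) Finset.univ).re
  rw [M_sum hN hU _ fun p _ => (hbp p).const_mul _, e2]
  refine Finset.sum_congr rfl fun p _ => ?_
  rw [M_const_mul hN hU (hbp p), key p]

/-- the natural mean values of products of nontrivial characters -/
theorem FH.avg (S : FH x μ) {T : Finset Ix} (hT : 3 ≤ T.card) {n : Ix → ℕ}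
    {π : ∀ i, G i →* Matrix.unitaryGroup (Fin (n i)) ℂ} (hπ : Supp T π) :
    Tendsto (mn fun v => ∏ i, chi (π i) (x i v)) atTop (𝓝 0) := by
  obtain ⟨α, b1, b2, b3⟩ := exists_alF π x
  obtain ⟨U, hU⟩ := Ultrafilter.exists_le (𝓝[>] (0 : ℝ))
  have h4 := taub_ord b1 (L := LA α) (fun s _ => rfl) 0 (fun τ => by
    obtain ⟨Λ, c1, c2⟩ := S.ct T hT _ _ hπ τ
    have c5 : ∀ᶠ s in 𝓝 ((1 : ℂ) + τ * I), (1 : ℝ) < s.re → Λ s = LA α s :=
      c2.mono fun s hs1 hs2 => by rw [hs1 hs2, b3]
    obtain ⟨k, c3, c4⟩ := order_LA b1 c1 c5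
    refine ⟨Λ, c1, c5, ?_⟩
    rw [c3, S.zero hT hU (fun T' _ => S.ind hU T') hπ b1 b2 b3 c4]
    simp)
  simp only [b2] at h4
  simpa using h4

theorem mn_const_lim (c : ℂ) : Tendsto (mn (K := K) fun _ => c) atTop (𝓝 c) := by
  have h8 : Tendsto (fun _ : ℕ => c) atTop (𝓝 c) := tendsto_const_nhds
  refine h8.congr' ?_
  filter_upwards [card_ev (K := K)] with N hN
  unfold mn
  rw [Finset.sum_const, Complex.real_smul, nsmul_eq_mul]
  push_cast
  have hN' : ((upto K N).card : ℂ) ≠ 0 := by exact_mod_cast hN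
  field_simp

/-- the mean values of products of all irreducible characters -/
theorem FH.avg' (S : FH x μ) {n : Ix → ℕ}
    {π : ∀ i, G i →* Matrix.unitaryGroup (Fin (n i)) ℂ} (hπ : ∀ i, Continuous (π i) ∧ Schur (π i)) :
    Tendsto (mn fun v => ∏ i, chi (π i) (x i v)) atTop (𝓝 (∏ i, ∫ g, chi (π i) g ∂(μ i))) := by
  classical
  set T : Finset Ix := Finset.univ.filter fun i => ∃ g, π i g ≠ 1 with hTdef
  have hTt : ∀ i, i ∉ T → ∀ g, π i g = 1 := by
    intro i hi
    rw [hTdef, Finset.mem_filter] at hi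
    push Not at hi
    exact hi (Finset.mem_univ _)
  have hTn : ∀ i ∈ T, ∃ g, π i g ≠ 1 := fun i hi => (Finset.mem_filter.1 hi).2
  set c : ℂ := ∏ i ∈ Tᶜ, (n i : ℂ) with hc
  have hsplit : ∀ F : Ix → ℂ, ∏ i, F i = (∏ i ∈ T, F i) * ∏ i ∈ Tᶜ, F i := fun F =>
    (Finset.prod_mul_prod_compl T F).symm
  have e1 : ∀ v, ∏ i, chi (π i) (x i v) = c * ∏ i ∈ T, chi (π i) (x i v) := by
    intro v
    rw [hsplit, mul_comm]
    congr 1
    exact Finset.prod_congr rfl fun i hi => chi_triv (hTt i (Finset.mem_compl.1 hi)) _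
  have e2 : ∏ i, ∫ g, chi (π i) g ∂(μ i) = c * ∏ i ∈ T, ∫ g, chi (π i) g ∂(μ i) := by
    rw [hsplit, mul_comm]
    congr 1
    refine Finset.prod_congr rfl fun i hi => ?_
    simp only [chi_triv (hTt i (Finset.mem_compl.1 hi))]
    simp
  simp only [e1]
  rw [e2]
  have h0 : Tendsto (mn fun v => ∏ i ∈ T, chi (π i) (x i v)) atTop
      (𝓝 (∏ i ∈ T, ∫ g, chi (π i) g ∂(μ i))) := by
    have hcase : T.card = 0 ∨ T.card = 1 ∨ T.card = 2 ∨ 3 ≤ T.card := by omega
    rcases hcase with h | h | h | h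
    · rw [Finset.card_eq_zero.1 h]
      simp only [Finset.prod_empty]
      exact mn_const_lim 1
    · obtain ⟨i, hi⟩ := Finset.card_eq_one.1 h
      rw [hi]
      simp only [Finset.prod_singleton]
      exact law_c (S.pw.single i) (cont_chi (hπ i).1) fun g h => chi_cls _ g h
    · obtain ⟨i, j, hij, hi⟩ := Finset.card_eq_two.1 h
      rw [hi]
      simp only [Finset.prod_pair hij]
      exact S.pw.pair i j hij _ _ (cont_chi (hπ i).1) (cont_chi (hπ j).1)
        (fun g h => chi_cls _ g h) (fun g h => chi_cls _ g h)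
    · -- the family with trivial one-dimensional representations outside of `T`
      set n' : Ix → ℕ := fun i => if i ∈ T then n i else 1 with hn'
      have hdef : ∀ i, ∃ σ : G i →* Matrix.unitaryGroup (Fin (n' i)) ℂ,
          (i ∈ T → NI σ ∧ ∀ g, chi σ g = chi (π i) g) ∧
          (i ∉ T → n' i = 1 ∧ ∀ g, σ g = 1) := by
        intro i
        by_cases hi : i ∈ T
        · have : n' i = n i := if_pos hi
          rw [this]
          exact ⟨π i, fun _ => ⟨⟨(hπ i).1, (hπ i).2, hTn i hi⟩, fun _ => rfl⟩,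
            fun h => absurd hi h⟩
        · have : n' i = 1 := if_neg hi
          rw [this]
          exact ⟨1, fun h => absurd h hi, fun _ => ⟨rfl, fun _ => rfl⟩⟩
      choose σ hσ1 hσ2 using hdef
      have hS : Supp T σ := ⟨fun i hi => (hσ1 i hi).1, fun i hi => (hσ2 i hi).1,
        fun i hi => (hσ2 i hi).2⟩
      have h5 := S.avg h hS
      have e3 : ∀ v, ∏ i, chi (σ i) (x i v) = ∏ i ∈ T, chi (π i) (x i v) := by
        intro v
        rw [prod_one_of (T := T) fun i hi => hS.chi hi _]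
        exact Finset.prod_congr rfl fun i hi => (hσ1 i hi).2 _
      simp only [e3] at h5
      obtain ⟨i, hi⟩ := Finset.card_pos.1 (by omega : 0 < T.card)
      rw [Finset.prod_eq_zero hi (int_chi (hπ i).1 (hπ i).2 (hTn i hi))]
      exact h5
  have h9 := h0.const_mul c
  refine h9.congr fun N => ?_
  rw [← mn_mul]

/-- extension by density in one coordinate -/
theorem ext_density {H : Type} [Group H] [TopologicalSpace H] [IsTopologicalGroup H]
    [CompactSpace H] [T2Space H] [MeasurableSpace H] [BorelSpace H] {ν : Measure H}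
    [IsProbabilityMeasure ν] [ν.IsHaarMeasure] {y : HeightOneSpectrum (𝓞 K) → H}
    {w : HeightOneSpectrum (𝓞 K) → ℂ} {B : ℝ} (hB : ∀ v, ‖w v‖ ≤ B) {c : ℂ} (hc : ‖c‖ ≤ B)
    (h : ∀ (n : ℕ) (π : H →* Matrix.unitaryGroup (Fin n) ℂ), Continuous π → Schur π →
      Tendsto (mn fun v => chi π (y v) * w v) atTop (𝓝 ((∫ g, chi π g ∂ν) * c)))
    {f : H → ℂ} (hf : Continuous f) (hcl : ∀ g k, f (k * g * k⁻¹) = f g) :
    Tendsto (mn fun v => f (y v) * w v) atTop (𝓝 ((∫ g, f g ∂ν) * c)) := by
  have hB0 : 0 ≤ B := (norm_nonneg _).trans hc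
  refine mn_unif fun ε hε => ?_
  have hδ : 0 < ε / (B + 1) := by positivity
  obtain ⟨Fn, h1, h2⟩ := class_dense hf hcl hδ
  obtain ⟨J, _, m, ρ, a, h3, h4⟩ := h1
  have hFc : Continuous Fn := by
    have : Fn = fun g => ∑ j, a j * chi (ρ j) g := funext h4
    rw [this]
    exact continuous_finsetSum _ fun j _ => continuous_const.mul (cont_chi (h3 j).1)
  have hle : ε / (B + 1) * B ≤ ε := by
    rw [div_mul_eq_mul_div, div_le_iff₀ (by positivity)]
    nlinarith
  refine ⟨fun v => Fn (y v) * w v, (∫ g, Fn g ∂ν) * c, fun v => ?_, ?_, ?_⟩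
  · rw [← sub_mul, norm_mul]
    exact (mul_le_mul (h2 _) (hB v) (norm_nonneg _) hδ.le).trans hle
  · rw [← sub_mul, norm_mul, ← integral_sub (intg hFc) (intg hf)]
    refine (mul_le_mul ?_ hc (norm_nonneg _) hδ.le).trans hle
    refine (norm_integral_le_integral_norm _).trans ?_
    have h5 : ∫ g, ‖Fn g - f g‖ ∂ν ≤ ∫ _, ε / (B + 1) ∂ν := by
      refine integral_mono ((intg hFc).sub (intg hf)).norm (integrable_const _) fun g => ?_
      simp only
      rw [norm_sub_rev]
      exact h2 g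
    have h6 : ∫ _ : H, ε / (B + 1) ∂ν = ε / (B + 1) := by simp
    linarith
  · have h5 : (∫ g, Fn g ∂ν) * c = ∑ j, a j * ((∫ g, chi (ρ j) g ∂ν) * c) := by
      simp only [h4]
      rw [integral_finsetSum _ fun j _ => (intg (cont_chi (h3 j).1)).const_mul _, Finset.sum_mul]
      refine Finset.sum_congr rfl fun j _ => ?_
      rw [integral_const_mul, mul_assoc]
    rw [h5]
    have h7 : Tendsto (fun N => ∑ j, a j * mn (fun v => chi (ρ j) (y v) * w v) N) atTop
        (𝓝 (∑ j, a j * ((∫ g, chi (ρ j) g ∂ν) * c))) :=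
      tendsto_finsetSum _ fun j _ => (h _ _ (h3 j).1 (h3 j).2).const_mul _
    refine h7.congr fun N => ?_
    have e : (fun v => Fn (y v) * w v) = fun v => ∑ j, a j * (chi (ρ j) (y v) * w v) := by
      funext v
      rw [h4, Finset.sum_mul]
      exact Finset.sum_congr rfl fun j _ => by ring
    rw [e, mn_sum]
    exact Finset.sum_congr rfl fun j _ => (mn_mul _ _ _).symm

/-- **Pairwise independence implies independence.** -/
theorem FH.indep [∀ i, T2Space (G i)] (S : FH x μ) {f : ∀ i, G i → ℂ} (hf : ∀ i, Continuous (f i))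
    (hcl : ∀ i g k, f i (k * g * k⁻¹) = f i g) :
    Tendsto (mn fun v => ∏ i, f i (x i v)) atTop (𝓝 (∏ i, ∫ g, f i g ∂(μ i))) := by
  classical
  have key : ∀ T : Finset Ix, ∀ f : ∀ i, G i → ℂ, (∀ i, Continuous (f i)) →
      (∀ i g k, f i (k * g * k⁻¹) = f i g) → (∀ i, i ∉ T → ∃ (n : ℕ)
        (π : G i →* Matrix.unitaryGroup (Fin n) ℂ), Continuous π ∧ Schur π ∧ f i = chi π) →
      Tendsto (mn fun v => ∏ i, f i (x i v)) atTop (𝓝 (∏ i, ∫ g, f i g ∂(μ i))) := by
    intro T
    induction T using Finset.induction_on with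
    | empty =>
      intro f _ _ h
      choose n π h1 h2 h3 using fun i => h i (Finset.notMem_empty i)
      simp only [h3]
      exact S.avg' fun i => ⟨h1 i, h2 i⟩
    | insert i₀ T hi ih =>
      intro f hf hcl h
      have hb : ∀ j, ∃ C, ∀ g, ‖f j g‖ ≤ C := fun j => by
        obtain ⟨C, hC⟩ := (isCompact_univ (X := G j)).exists_bound_of_continuousOn
          (hf j).continuousOn
        exact ⟨C, fun g => hC g (Set.mem_univ _)⟩
      obtain ⟨B, hB⟩ : ∃ B, ∀ v, ‖∏ j ∈ Finset.univ.erase i₀, f j (x j v)‖ ≤ B :=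
        bc_prod hf _
      have e1 : ∀ v, ∏ j, f j (x j v) = f i₀ (x i₀ v) * ∏ j ∈ Finset.univ.erase i₀, f j (x j v) :=
        fun v => (Finset.mul_prod_erase _ _ (Finset.mem_univ _)).symm
      have e2 : ∏ j, ∫ g, f j g ∂(μ j) = (∫ g, f i₀ g ∂(μ i₀)) *
          ∏ j ∈ Finset.univ.erase i₀, ∫ g, f j g ∂(μ j) :=
        (Finset.mul_prod_erase _ _ (Finset.mem_univ _)).symm
      simp only [e1]
      rw [e2]
      refine ext_density (B := max B ‖∏ j ∈ Finset.univ.erase i₀, ∫ g, f j g ∂(μ j)‖)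
        (fun v => (hB v).trans (le_max_left _ _)) (le_max_right _ _) ?_ (hf i₀) (hcl i₀)
      intro n π hc hs
      have h5 := ih (Function.update f i₀ (chi π)) (fun j => by
          by_cases hj : j = i₀
          · subst hj
            rw [Function.update_self]
            exact cont_chi hc
          · rw [Function.update_of_ne hj]
            exact hf j) (fun j => by
          by_cases hj : j = i₀
          · subst hj
            rw [Function.update_self]
            exact fun g k => chi_cls π g k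
          · rw [Function.update_of_ne hj]
            exact hcl j) (fun j hjT => by
          by_cases hj : j = i₀
          · subst hj
            rw [Function.update_self]
            exact ⟨n, π, hc, hs, rfl⟩
          · rw [Function.update_of_ne hj]
            exact h j fun hj2 => (Finset.mem_insert.1 hj2).elim hj hjT)
      have e3 : ∀ v, ∏ j, (Function.update f i₀ (chi π)) j (x j v) =
          chi π (x i₀ v) * ∏ j ∈ Finset.univ.erase i₀, f j (x j v) := by
        intro v
        rw [← Finset.mul_prod_erase _ _ (Finset.mem_univ i₀), Function.update_self]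
        congr 1
        refine Finset.prod_congr rfl fun j hj => ?_
        rw [Function.update_of_ne (Finset.ne_of_mem_erase hj)]
      have e4 : ∏ j, ∫ g, (Function.update f i₀ (chi π)) j g ∂(μ j) =
          (∫ g, chi π g ∂(μ i₀)) * ∏ j ∈ Finset.univ.erase i₀, ∫ g, f j g ∂(μ j) := by
        rw [← Finset.mul_prod_erase _ _ (Finset.mem_univ i₀), Function.update_self]
        congr 1
        refine Finset.prod_congr rfl fun j hj => ?_
        rw [Function.update_of_ne (Finset.ne_of_mem_erase hj)]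
      simp only [e3] at h5
      rw [e4] at h5
      exact h5
  exact key Finset.univ f hf hcl fun i hi => absurd (Finset.mem_univ i) hi

end

end Pool.Agent.HX6.GO
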