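import Pool.Agent.HX6.GO.F3

set_option autoImplicit false
set_option linter.unusedSectionVars false

/-!
# Multiplicities
-/

namespace Pool.Agent.HX6.GO

open Complex Filter Topology ComplexConjugate NumberField IsDedekindDomain MeasureTheory
  Pool.Agent.TH553.RS Pool.Agent.TH553.ST Pool.Agent.W540.BE
open scoped Matrix Kronecker

section

variable {G : Type} [Group G] [TopologicalSpace G] [IsTopologicalGroup G] [CompactSpace G]
  [MeasurableSpace G] [BorelSpace G] {μ : Measure G} [IsProbabilityMeasure μ] [μ.IsHaarMeasure]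

theorem triple_nonneg {n₁ n₂ n₃ : ℕ} {π₁ : G →* Matrix.unitaryGroup (Fin n₁) ℂ}
    {π₂ : G →* Matrix.unitaryGroup (Fin n₂) ℂ} {π₃ : G →* Matrix.unitaryGroup (Fin n₃) ℂ}
    (h1 : Continuous π₁) (h2 : Continuous π₂) (h3 : Continuous π₃) :
    ∃ a : ℝ, 0 ≤ a ∧ ∫ g, chi π₁ g * chi π₂ g * chi π₃ g ∂μ = a := by
  have hT := cont_tp (cont_tp h1 h2) h3
  have h4 := int_trace (μ := μ) hT
  have h5 : ∀ g, chi π₁ g * chi π₂ g * chi π₃ g = (tp (tp π₁ π₂) π₃ g :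
      Matrix ((Fin n₁ × Fin n₂) × Fin n₃) ((Fin n₁ × Fin n₂) × Fin n₃) ℂ).trace := by
    intro g
    rw [tp_val, Matrix.trace_kronecker, tp_val, Matrix.trace_kronecker]
    rfl
  simp only [h5]
  exact ⟨_, Finset.sum_nonneg fun j _ => Finset.sum_nonneg fun i _ => by positivity, h4⟩

end

section

variable {K : Type} [Field K] [NumberField K]
variable {G : Type} [Group G] [TopologicalSpace G] [IsTopologicalGroup G] [CompactSpace G]
  [MeasurableSpace G] [BorelSpace G] {μ : Measure G} [IsProbabilityMeasure μ] [μ.IsHaarMeasure]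
variable {H : Type} [Group H] [TopologicalSpace H] [IsTopologicalGroup H] [CompactSpace H]
  [MeasurableSpace H] [BorelSpace H] {ν : Measure H} [IsProbabilityMeasure ν] [ν.IsHaarMeasure]
  {x : HeightOneSpectrum (𝓞 K) → G} {y : HeightOneSpectrum (𝓞 K) → H}

/-- **Equality of the multiplicities.** -/
theorem Sit.mult (S : Sit x y μ ν) {n₁ n₂ n₃ m₁ m₂ m₃ : ℕ}
    {π₁ : G →* Matrix.unitaryGroup (Fin n₁) ℂ} {π₂ : G →* Matrix.unitaryGroup (Fin n₂) ℂ}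
    {π₃ : G →* Matrix.unitaryGroup (Fin n₃) ℂ} {ρ₁ : H →* Matrix.unitaryGroup (Fin m₁) ℂ}
    {ρ₂ : H →* Matrix.unitaryGroup (Fin m₂) ℂ} {ρ₃ : H →* Matrix.unitaryGroup (Fin m₃) ℂ}
    (h1 : NI π₁) (h2 : NI π₂) (h3 : NI π₃) (k1 : NI ρ₁) (k2 : NI ρ₂) (k3 : NI ρ₃)
    {l₁ l₂ l₃ : ℤ} (c1 : Ord x y π₁ ρ₁ 0 l₁) (c2 : Ord x y π₂ ρ₂ 0 l₂) (c3 : Ord x y π₃ ρ₃ 0 l₃)
    (z1 : l₁ ≠ 0) (z2 : l₂ ≠ 0) (z3 : l₃ ≠ 0) :
    ∫ g, chi π₁ g * chi π₂ g * chi π₃ g ∂μ = ∫ h, chi ρ₁ h * chi ρ₂ h * chi ρ₃ h ∂ν ∧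
    (∫ g, chi π₁ g * chi π₂ g * chi π₃ g ∂μ ≠ 0 → l₁ * l₂ * l₃ = -1) := by
  obtain ⟨a, ha, h4⟩ := triple_nonneg (μ := μ) h1.cont h2.cont h3.cont
  obtain ⟨b, hb, h5⟩ := triple_nonneg (μ := ν) k1.cont k2.cont k3.cont
  have h6 := S.triple h1 h2 h3 k1 k2 k3 c1.cor c2.cor c3.cor
    (neg_ne_zero.2 (by exact_mod_cast z1)) (neg_ne_zero.2 (by exact_mod_cast z2))
    (neg_ne_zero.2 (by exact_mod_cast z3))
  have e1 := (c1.edge S.lx S.ly h1 k1 z1).1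
  have e2 := (c2.edge S.lx S.ly h2 k2 z2).1
  have e3 := (c3.edge S.lx S.ly h3 k3 z3).1
  have e4 : |l₁ * l₂ * l₃| = 1 := by rw [abs_mul, abs_mul, e1, e2, e3]; norm_num
  rw [h4, h5, Complex.conj_ofReal, ← Complex.ofReal_mul] at h6
  have h7 : a = -((l₁ * l₂ * l₃ : ℤ) : ℝ) * b := by
    have : a = -(l₁ : ℝ) * -(l₂ : ℝ) * -(l₃ : ℝ) * b := by exact_mod_cast h6
    rw [this]
    push_cast
    ring
  rw [h4, h5]
  rcases (abs_eq (by norm_num : (0 : ℤ) ≤ 1)).1 e4 with h8 | h8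
  · rw [h8] at h7
    have h9 : a = 0 := by
      push_cast at h7
      linarith
    have h10 : b = 0 := by
      push_cast at h7
      linarith
    refine ⟨by rw [h9, h10], fun h => absurd (by rw [h9]; simp) h⟩
  · rw [h8] at h7
    refine ⟨?_, fun _ => h8⟩
    push_cast at h7
    have : a = b := by linarith
    rw [this]

end

end Pool.Agent.HX6.GO
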