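import Pool.Agent.TH553.ST.Taub3
import Pool.Agent.TH553.ST.Pair2
import Pool.Agent.TH553.ST.Joint
import Pool.Agent.R426.QC.Ep

set_option autoImplicit false
set_option linter.unusedSectionVars false

/-!
# Natural mean values in the presence of a pole or a zero at one
-/

namespace Pool.Agent.HX6.GO

open Complex Filter Topology ComplexConjugate NumberField IsDedekindDomain MeasureTheory
  Pool.Agent.TH553.RS Pool.Agent.TH553.ST Pool.Agent.W540.BE H332.PIT

section zeta

variable {K : Type} [Field K] [NumberField K]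

/-- the term of a nonzero ideal -/
noncomputable def fC (s : ℂ) (I : Ideal (𝓞 K)) : ℂ :=
  open Classical in if I = ⊥ then 0 else ((Ideal.absNorm I : ℕ) : ℂ) ^ (-s)

lemma hasSum_fC {s : ℂ} (hs : 1 < s.re) : HasSum (fC (K := K) s) (dedekindZeta K s) := by
  classical
  have h := Pool.Agent.H484R2.hasSum_ideals K hs
  rw [← Pool.Agent.H484R2.zeta_eq K hs] at h
  have hinj : Function.Injective (fun I : Pool.Agent.H484R2.NZI K => I.1) :=
    Subtype.val_injective
  rw [← hinj.hasSum_iff]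
  · convert h using 1
    funext I
    simp only [Function.comp_apply, fC, if_neg I.2]
  · intro I hI
    unfold fC
    by_contra hne
    apply hI
    by_cases h0 : I = ⊥
    · rw [if_pos h0] at hne
      exact absurd rfl hne
    · exact ⟨⟨I, h0⟩, rfl⟩

lemma cmiC {s : ℂ} (hs : 1 < s.re) : Pool.Agent.R426.QC.CMI (fC (K := K) s) where
  zero := by
    unfold fC
    rw [if_pos rfl]
  one := by
    unfold fC
    rw [if_neg (by exact top_ne_bot), Ideal.absNorm_top]
    simp
  mul I J := by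
    unfold fC
    by_cases hI : I = ⊥
    · rw [if_pos hI, if_pos (by rw [hI, Ideal.bot_mul]), zero_mul]
    · by_cases hJ : J = ⊥
      · rw [if_pos hJ, if_pos (by rw [hJ, Ideal.mul_bot]), mul_zero]
      · rw [if_neg hI, if_neg hJ, if_neg (by
          intro h
          rcases Ideal.mul_eq_bot.mp h with h | h
          · exact hI h
          · exact hJ h), map_mul]
        push_cast
        rw [← Complex.natCast_mul_natCast_cpow]
  summ := (hasSum_fC hs).summable

lemma hasProd_zeta {s : ℂ} (hs : 1 < s.re) :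
    HasProd (fun v : HeightOneSpectrum (𝓞 K) => (1 - ((nm K v : ℕ) : ℂ) ^ (-s))⁻¹)
      (dedekindZeta K s) := by
  have h2 := Pool.Agent.R426.QC.hasProdI (cmiC (K := K) hs)
  rw [(hasSum_fC (K := K) hs).tsum_eq] at h2
  refine h2.congr_fun ?_ |> fun h => h
  intro v
  unfold fC
  rw [if_neg v.ne_bot]
  rfl

theorem zeta_L {s : ℂ} (hs : 1 < s.re) : dedekindZeta K s =
    ∏' v : HeightOneSpectrum (𝓞 K), (∏ _j : Fin 1, (1 - (1 : ℂ) * ((nm K v : ℕ) : ℂ) ^ (-s)))⁻¹ := by
  rw [← (hasProd_zeta (K := K) hs).tprod_eq]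
  refine tprod_congr fun v => ?_
  simp

/-- the boundary values for the constant function one -/
theorem bd_one {s : ℂ} (hs : 1 ≤ s.re) :
    ∃ y, Tendsto (fun z => Pool.Agent.TH553.ST.S (K := K) (fun _ => (1 : ℂ)) z - 1 / (z - 1))
      (𝓝[{s : ℂ | 1 < s.re}] s) (𝓝 y) := by
  have hα : ∀ (v : HeightOneSpectrum (𝓞 K)) (j : Fin 1), ‖(fun _ _ => (1 : ℂ)) v j‖ = 1 :=
    fun v j => norm_one
  have hmem : s ∈ Hp := by
    have : (3 / 4 : ℝ) < s.re := by linarith
    exact this
  have hR : AnalyticAt ℂ (Rt (K := K) (b := 1) fun _ _ => (1 : ℂ)) s :=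
    (diff_Rt hα).analyticAt (isOpen_Hp.mem_nhds hmem)
  obtain ⟨y, hy⟩ := boundary (K := K) (Pool.Agent.H484R2.continuation K) hs
  refine ⟨deriv (Rt (K := K) (b := 1) fun _ _ => (1 : ℂ)) s + y, ?_⟩
  have h1 := (hR.deriv.continuousAt.tendsto.mono_left
    (nhdsWithin_le_nhds (s := {s : ℂ | 1 < s.re}))).add hy
  refine h1.congr' ?_
  filter_upwards [self_mem_nhdsWithin] with z hz
  have hz' : 1 < z.re := hz
  have h2 := (S_eq hα (L := dedekindZeta K) (fun s hs => zeta_L hs) hz').2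
  have h3 : (fun v : HeightOneSpectrum (𝓞 K) => ∑ j : Fin 1, (fun _ _ => (1 : ℂ)) v j) =
      fun _ => (1 : ℂ) := by
    funext v
    simp
  rw [h3] at h2
  rw [h2, deriv_zeta hz']
  have h4 := zeta_ne_zero (K := K) hz'
  field_simp
  ring

end zeta

section

variable {K : Type} [Field K] [NumberField K]

/-- the boundary values of the logarithmic derivative -/
theorem bd_ord {b : ℕ} {α : HeightOneSpectrum (𝓞 K) → Fin b → ℂ} (hα : ∀ v j, ‖α v j‖ = 1)
    {L : ℂ → ℂ} (hL : ∀ s : ℂ, 1 < s.re →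
      L s = ∏' v, (∏ j, (1 - α v j * ((nm K v : ℕ) : ℂ) ^ (-s)))⁻¹)
    {τ : ℝ} {Λ : ℂ → ℂ} {m : ℤ} (h1 : MeromorphicAt Λ (1 + τ * I))
    (h2 : ∀ᶠ s in 𝓝 ((1 : ℂ) + τ * I), 1 < s.re → Λ s = L s)
    (h3 : meromorphicOrderAt Λ (1 + τ * I) = m) :
    ∃ y, Tendsto (fun z => Pool.Agent.TH553.ST.S (fun v => ∑ j, α v j) z +
      m / (z - (1 + τ * I))) (𝓝[{s : ℂ | 1 < s.re}] (1 + τ * I)) (𝓝 y) := by
  set s0 : ℂ := 1 + τ * I with hs0
  obtain ⟨g, h4, h5, h6⟩ := (meromorphicOrderAt_eq_int_iff h1).1 h3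
  have hmem : s0 ∈ Hp := by
    have : (3 / 4 : ℝ) < s0.re := by rw [hs0]; norm_num
    exact this
  have hR : AnalyticAt ℂ (Rt α) s0 := (diff_Rt hα).analyticAt (isOpen_Hp.mem_nhds hmem)
  refine ⟨deriv (Rt α) s0 - deriv g s0 / g s0, ?_⟩
  have h7 : Tendsto (fun z => deriv (Rt α) z - deriv g z / g z) (𝓝[{s : ℂ | 1 < s.re}] s0)
      (𝓝 (deriv (Rt α) s0 - deriv g s0 / g s0)) :=
    (hR.deriv.continuousAt.sub (h4.deriv.continuousAt.div h4.continuousAt h5)).mono_left
      nhdsWithin_le_nhds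
  refine h7.congr' ?_
  rw [eventually_nhdsWithin_iff] at h6
  filter_upwards [h2.eventually_nhds.filter_mono nhdsWithin_le_nhds,
    h6.eventually_nhds.filter_mono nhdsWithin_le_nhds,
    (h4.continuousAt.eventually_ne h5).filter_mono nhdsWithin_le_nhds,
    h4.eventually_analyticAt.filter_mono nhdsWithin_le_nhds, self_mem_nhdsWithin]
    with z hz1 hz2 hz3 hz4 hre
  have hre' : 1 < z.re := hre
  have hne : ∀ w : ℂ, 1 < w.re → w ≠ s0 := by
    intro w hw h
    rw [h, hs0] at hw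
    simp at hw
  have hz0 : z - s0 ≠ 0 := sub_ne_zero.2 (hne z hre')
  have h8 : L =ᶠ[𝓝 z] fun w => (w - s0) ^ m * g w := by
    filter_upwards [hz1, hz2, isOpen_re.mem_nhds hre'] with w hw1 hw2 hw3
    rw [← hw1 hw3, hw2 (hne w hw3), smul_eq_mul]
  have h9 : HasDerivAt (fun w : ℂ => (w - s0) ^ m) (m * (z - s0) ^ (m - 1)) z := by
    have := (hasDerivAt_zpow m (z - s0) (Or.inl hz0)).comp z ((hasDerivAt_id z).sub_const s0)
    rw [mul_one] at this
    exact this
  have h10 := (h9.mul hz4.differentiableAt.hasDerivAt).deriv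
  have h11 : deriv L z = m * (z - s0) ^ (m - 1) * g z + (z - s0) ^ m * deriv g z := by
    rw [h8.deriv_eq]
    exact h10
  rw [(S_eq hα hL hre').2, h11, h8.eq_of_nhds, zpow_sub_one₀ hz0]
  have hp : (z - s0) ^ m ≠ 0 := zpow_ne_zero _ hz0
  field_simp
  ring

theorem S_sub {t : HeightOneSpectrum (𝓞 K) → ℂ} {B : ℝ} (ht : ∀ v, ‖t v‖ ≤ B) (c : ℂ) {s : ℂ}
    (hs : 1 < s.re) : Pool.Agent.TH553.ST.S (fun v => t v - c) s =
      Pool.Agent.TH553.ST.S t s - c * Pool.Agent.TH553.ST.S (K := K) (fun _ => (1 : ℂ)) s := by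
  unfold Pool.Agent.TH553.ST.S
  have h1 : lc (fun v => t v - c) = lc t - c • lc (K := K) fun _ => (1 : ℂ) := by
    funext n
    rw [Pi.sub_apply, Pi.smul_apply, lc_eq, lc_eq, lc_eq]
    unfold nf
    rw [Finset.sum_sub_distrib]
    simp only [Finset.sum_const, smul_eq_mul, nsmul_eq_mul]
    ring
  have h2 : LSeriesSummable (lc (K := K) fun _ => (1 : ℂ)) s :=
    summ_lc (B := 1) (fun _ => by simp) hs
  rw [h1, LSeries_sub (summ_lc ht hs) (h2.smul c), LSeries_smul]

/-- **The Tauberian theorem in the presence of a pole or a zero at one.** -/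
theorem taub_ord {b : ℕ} {α : HeightOneSpectrum (𝓞 K) → Fin b → ℂ} (hα : ∀ v j, ‖α v j‖ = 1)
    {L : ℂ → ℂ} (hL : ∀ s : ℂ, 1 < s.re →
      L s = ∏' v, (∏ j, (1 - α v j * ((nm K v : ℕ) : ℂ) ^ (-s)))⁻¹) (m : ℤ)
    (hc : ∀ τ : ℝ, ∃ Λ : ℂ → ℂ, MeromorphicAt Λ (1 + τ * I) ∧
      (∀ᶠ s in 𝓝 ((1 : ℂ) + τ * I), 1 < s.re → Λ s = L s) ∧
      meromorphicOrderAt Λ (1 + τ * I) = if τ = 0 then m else 0) :
    Tendsto (mn fun v => ∑ j, α v j) atTop (𝓝 (-(m : ℂ))) := by
  have hb := sum_le hα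
  have h1 : Tendsto (mn fun v => (∑ j, α v j) - (-(m : ℂ))) atTop (𝓝 0) := by
    refine taub_mn (B := b + ‖(m : ℂ)‖) (by positivity) (fun v => ?_) fun s hs => ?_
    · refine (norm_sub_le _ _).trans ?_
      rw [norm_neg]
      have := hb v
      linarith
    · obtain ⟨y1, hy1⟩ := bd_one (K := K) hs
      rcases hs.eq_or_lt with h | h
      · have hs' : s = 1 + (s.im : ℝ) * I := by
          apply Complex.ext <;> simp [← h]
        obtain ⟨Λ, k1, k2, k3⟩ := hc s.im
        by_cases h0 : s.im = 0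
        · rw [if_pos h0] at k3
          obtain ⟨y2, hy2⟩ := bd_ord hα hL k1 k2 k3
          rw [← hs'] at hy2
          have hs1 : s = 1 := by rw [hs', h0]; simp
          refine ⟨y2 - (-(m : ℂ)) * y1, ?_⟩
          have h2 := hy2.sub (hy1.const_mul (-(m : ℂ)))
          refine h2.congr' ?_
          filter_upwards [self_mem_nhdsWithin] with z hz
          have hz' : 1 < z.re := hz
          rw [S_sub hb _ hz', hs1]
          ring
        · rw [if_neg h0] at k3
          obtain ⟨y2, hy2⟩ := bd_ord (m := 0) hα hL k1 k2 (by simpa using k3)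
          rw [← hs'] at hy2
          have hs1 : s - 1 ≠ 0 := by
            rw [hs']
            simp [h0]
          have h3 : Tendsto (fun z : ℂ => 1 / (z - 1)) (𝓝[{s : ℂ | 1 < s.re}] s)
              (𝓝 (1 / (s - 1))) :=
            (continuousAt_const.div (continuous_id.sub continuous_const).continuousAt
              hs1).mono_left nhdsWithin_le_nhds
          refine ⟨_, ((hy2.sub ((hy1.add h3).const_mul (-(m : ℂ))))).congr' ?_⟩
          filter_upwards [self_mem_nhdsWithin] with z hz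
          have hz' : 1 < z.re := hz
          rw [S_sub hb _ hz']
          simp
      · have hb' : ∀ v, ‖(∑ j, α v j) - (-(m : ℂ))‖ ≤ b + ‖(m : ℂ)‖ := by
          intro v
          refine (norm_sub_le _ _).trans ?_
          rw [norm_neg]
          have := hb v
          linarith
        exact ⟨_, (an_S hb' h).continuousAt.tendsto.mono_left nhdsWithin_le_nhds⟩
  have h2 : Tendsto (mn (K := K) fun _ => (-(m : ℂ))) atTop (𝓝 (-(m : ℂ))) := by
    have h8 : Tendsto (fun N : ℕ => (-(m : ℂ))) atTop (𝓝 (-(m : ℂ))) := tendsto_const_nhds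
    refine h8.congr' ?_
    filter_upwards [card_ev (K := K)] with N hN
    unfold mn
    rw [Finset.sum_const, Complex.real_smul, nsmul_eq_mul]
    push_cast
    have hN' : ((upto K N).card : ℂ) ≠ 0 := by exact_mod_cast hN
    field_simp
  have h3 := h1.add h2
  rw [zero_add] at h3
  refine h3.congr fun N => ?_
  unfold mn
  rw [← smul_add, ← Finset.sum_add_distrib]
  simp

end

end Pool.Agent.HX6.GO
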