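import Pool.Agent.HX6.GO.D
import Pool.Agent.HX6.GO.Z
import Pool.Agent.HX6.GO.Dt

set_option autoImplicit false
set_option linter.unusedSectionVars false

/-!
# The points `1 + iτ` with `τ ≠ 0`
-/

namespace Pool.Agent.HX6.GO

open Complex Filter Topology ComplexConjugate NumberField IsDedekindDomain MeasureTheory
  Pool.Agent.TH553.RS Pool.Agent.TH553.ST Pool.Agent.W540.BE
open scoped Matrix Kronecker

section

variable {P : Type*} {N : P → ℕ} {U : Ultrafilter ℝ}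

theorem Bc.pow {t : P → ℂ} (h : Bc t) (k : ℕ) : Bc fun p => t p ^ k := by
  induction k with
  | zero => simpa using Bc.const (P := P) 1
  | succ k ih =>
    simp only [pow_succ]
    exact ih.mul h

theorem Cl.pow (hN : Sys N) (hU : (U : Filter ℝ) ≤ 𝓝[>] 0) {f g : P → ℂ} (hf : Bc f) (hg : Bc g)
    (h : Cl N U f g) (k : ℕ) : Cl N U (fun p => f p ^ k) fun p => g p ^ k := by
  induction k with
  | zero =>
    simp only [pow_zero]
    exact Cl.refl hN hU _
  | succ k ih =>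
    simp only [pow_succ]
    exact Cl.mul hN hU (Bc.pow hf k) (Bc.pow hg k) hf hg ih h

end

section

variable {K : Type} [Field K] [NumberField K]

/-- the twist -/
noncomputable def tw (K : Type) [Field K] [NumberField K] (τ : ℝ) (v : HeightOneSpectrum (𝓞 K)) : ℂ :=
  ((nm K v : ℕ) : ℂ) ^ (-(τ * I : ℂ))

theorem nm_ne (v : HeightOneSpectrum (𝓞 K)) : ((nm K v : ℕ) : ℂ) ≠ 0 := by
  have := two_le_nm v
  exact_mod_cast (by omega : nm K v ≠ 0)

theorem tw_conj (τ : ℝ) (v : HeightOneSpectrum (𝓞 K)) : conj (tw K τ v) = tw K (-τ) v := by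
  have h := Complex.cpow_conj ((nm K v : ℕ) : ℂ) (-(τ * I : ℂ)) (by
    rw [Complex.natCast_arg]
    exact Real.pi_ne_zero.symm)
  rw [Complex.conj_natCast] at h
  unfold tw
  rw [← h]
  congr 1
  simp

theorem tw_pow (τ : ℝ) (k : ℕ) (v : HeightOneSpectrum (𝓞 K)) : tw K τ v ^ k = tw K (k * τ) v := by
  unfold tw
  rw [← Complex.cpow_nat_mul]
  congr 1
  push_cast
  ring

theorem tw_zero (v : HeightOneSpectrum (𝓞 K)) : tw K 0 v = 1 := by
  unfold tw
  simp

theorem bc_tw (τ : ℝ) : Bc (tw K τ) := ⟨1, fun v => (norm_cpow_I (nm_pos v) τ).le⟩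

end

section

variable {K : Type} [Field K] [NumberField K]
variable {G : Type} [Group G] [TopologicalSpace G] [IsTopologicalGroup G] [CompactSpace G]
  [MeasurableSpace G] [BorelSpace G] {μ : Measure G} [IsProbabilityMeasure μ] [μ.IsHaarMeasure]
variable {H : Type} [Group H] [TopologicalSpace H] [IsTopologicalGroup H] [CompactSpace H]
  [MeasurableSpace H] [BorelSpace H] {ν : Measure H} [IsProbabilityMeasure ν] [ν.IsHaarMeasure]
  {x : HeightOneSpectrum (𝓞 K) → G} {y : HeightOneSpectrum (𝓞 K) → H}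
variable {n m : ℕ} {π : G →* Matrix.unitaryGroup (Fin n) ℂ}
  {ρ : H →* Matrix.unitaryGroup (Fin m) ℂ}

theorem tc_eq (ρ : H →* Matrix.unitaryGroup (Fin m) ℂ) (y : HeightOneSpectrum (𝓞 K) → H) (τ : ℝ)
    (v : HeightOneSpectrum (𝓞 K)) : tc ρ y τ v = chi ρ (y v) * tw K τ v := rfl

theorem tc_zero (ρ : H →* Matrix.unitaryGroup (Fin m) ℂ) (y : HeightOneSpectrum (𝓞 K) → H)
    (v : HeightOneSpectrum (𝓞 K)) : tc ρ y 0 v = chi ρ (y v) := by
  rw [tc_eq, tw_zero, mul_one]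

/-- the order at `1 + iτ` -/
def Ord (x : HeightOneSpectrum (𝓞 K) → G) (y : HeightOneSpectrum (𝓞 K) → H) {n m : ℕ}
    (π : G →* Matrix.unitaryGroup (Fin n) ℂ) (ρ : H →* Matrix.unitaryGroup (Fin m) ℂ) (τ : ℝ)
    (k : ℤ) : Prop := Tendsto (sz π x ρ y τ) (𝓝[>] 0) (𝓝 (-(k : ℝ)))

theorem Ord.mean {τ : ℝ} {k : ℤ} (h : Ord x y π ρ τ k) {U : Ultrafilter ℝ}
    (hU : (U : Filter ℝ) ≤ 𝓝[>] 0) :
    (M (nm K) U fun v => (chi π (x v) * (chi ρ (y v) * tw K τ v)).re) = -(k : ℝ) := by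
  have h1 := M_lim (sysF K) hU ((bc_tc (π := π) x 0).mul (bc_tc (π := ρ) y τ)).re
  have h2 := h1.sub ((size_LP π x ρ y τ).2.mono_left hU)
  rw [sub_zero] at h2
  have h4 : Tendsto (sz π x ρ y τ) U (𝓝 (M (nm K) U fun v => (tc π x 0 v * tc ρ y τ v).re)) :=
    h2.congr fun ε => by
      unfold sz
      ring
  have h3 := tendsto_nhds_unique h4 (h.mono_left hU)
  rw [← h3]
  congr 1
  funext v
  rw [tc_zero, tc_eq]

theorem Ord.cor {k : ℤ} (h : Ord x y π ρ 0 k) : Cor x y π ρ (-(k : ℝ)) := by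
  intro U hU
  rw [← h.mean hU]
  congr 1
  funext v
  rw [tw_zero, mul_one]

theorem Ord.edge (hx : Law x μ) (hy : Law y ν) (hπ : NI π) (hρ : NI ρ) {τ : ℝ} {k : ℤ}
    (h : Ord x y π ρ τ k) (h0 : k ≠ 0) : |k| = 1 ∧ Same π μ ρ ν ∧
    ∀ U : Ultrafilter ℝ, (U : Filter ℝ) ≤ 𝓝[>] 0 →
      Cl (nm K) U (fun v => chi π (x v))
        fun v => ((-(k : ℝ) : ℝ) : ℂ) * conj (chi ρ (y v) * tw K τ v) := by
  have h1 : (1 : ℝ) ≤ (-(k : ℝ)) ^ 2 := by
    rw [neg_sq]
    have : 1 ≤ k ^ 2 := by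
      have := Int.one_le_abs h0
      rw [← sq_abs]
      nlinarith
    exact_mod_cast this
  have key : ∀ U : Ultrafilter ℝ, (U : Filter ℝ) ≤ 𝓝[>] 0 → |(-(k : ℝ))| = 1 ∧
      (M (nm K) U fun v => ‖df (-(k : ℝ)) (tc π x 0) (tc ρ y τ) v‖ ^ 2) = 0 ∧
      Same π μ ρ ν := by
    intro U hU
    obtain ⟨r, h2, h3, h4⟩ := pair_lim hx hy hπ.cont hπ.schur hρ.cont hρ.schur τ hU
    have h5 : r = -(k : ℝ) := tendsto_nhds_unique h2 (h.mono_left hU)
    subst h5
    exact h4 h1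
  obtain ⟨V, hV⟩ := Ultrafilter.exists_le (𝓝[>] (0 : ℝ))
  obtain ⟨k1, -, k3⟩ := key V hV
  refine ⟨?_, k3, fun U hU => ?_⟩
  · rw [abs_neg] at k1
    exact_mod_cast k1
  · have h2 := M_zero_of_sq (sysF K) hU
      (Bc.df (bc_tc (π := π) x 0) (bc_tc (π := ρ) y τ) (-(k : ℝ))).norm (key U hU).2.1
    unfold Cl
    rw [← h2]
    congr 1
    funext v
    unfold df
    rw [tc_zero, tc_eq]

/-- the law with a twist -/
theorem twist_zero (hx : Law x μ) {f : G → ℂ} (hf : Her f) {σ : ℝ} (hσ : σ ≠ 0)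
    {U : Ultrafilter ℝ} (hU : (U : Filter ℝ) ≤ 𝓝[>] 0) :
    (M (nm K) U fun v => (f (x v) * tw K σ v).re) = 0 := by
  have h1 := jl_of_law hU hx f hf σ
  rw [if_neg hσ] at h1
  exact h1

theorem her_pow {f : G → ℂ} (hf : Her f) (k : ℕ) : Her fun g => f g ^ k := by
  refine ⟨hf.cont.pow k, fun g h => by rw [hf.cls], fun g => by rw [hf.inv, map_pow]⟩

theorem rd_pow {f : G → ℂ} (hf : RD f) (k : ℕ) : RD fun g => f g ^ k := by
  induction k with
  | zero =>
    have := RD.const (G := G) 1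
    simpa using this
  | succ k ih =>
    simp only [pow_succ]
    exact ih.mul hf

/-- the powers of the character are bounded away from orthogonality to the determinant -/
theorem det_twist (hx : Law x μ) (hy : Law y ν) (hπ : NI π) (hρ : Continuous ρ) {τ : ℝ}
    (hτ : τ ≠ 0) {r : ℝ} {U : Ultrafilter ℝ} (hU : (U : Filter ℝ) ≤ 𝓝[>] 0)
    (hcl : Cl (nm K) U (fun v => chi π (x v)) fun v => (r : ℂ) * conj (chi ρ (y v) * tw K τ v)) :
    NI (dt π) ∧ ∃ (m' : ℕ) (ρ' : H →* Matrix.unitaryGroup (Fin m') ℂ), NI ρ' ∧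
      (M (nm K) U fun v => (chi (dt π) (x v) * (chi ρ' (y v) * tw K (n * τ) v)).re) ≠ 0 := by
  have hN := sysF K
  have hn : (n : ℝ) * τ ≠ 0 := mul_ne_zero (by exact_mod_cast hπ.pos) hτ
  obtain ⟨a, ha, h1⟩ := det_occurs (μ := μ) hπ.cont
  have hcd := cont_dt hπ.cont
  have c1 : Continuous fun g => conj (chi (dt π) g) * chi π g ^ n :=
    (Complex.continuous_conj.comp (cont_chi hcd)).mul ((cont_chi hπ.cont).pow n)
  have h2 := Mc_law hx hU c1 fun g h => by simp only [chi_cls]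
  rw [h1] at h2
  have b1 := bc_chi x π
  have b2 : Bc fun v => (r : ℂ) * conj (chi ρ (y v) * tw K τ v) :=
    (Bc.const _).mul ((bc_chi y ρ).mul (bc_tw τ)).conj
  have b3 := (bc_chi x (dt π)).conj
  have h3 := Cl.mul_right hN hU (Bc.pow b1 n) (Bc.pow b2 n) b3 (Cl.pow hN hU b1 b2 hcl n)
  have h4 := Cl.mean hN hU ((Bc.pow b1 n).mul b3) ((Bc.pow b2 n).mul b3) h3
  have e1 : (fun v => conj (chi (dt π) (x v)) * chi π (x v) ^ n) =
      fun v => chi π (x v) ^ n * conj (chi (dt π) (x v)) := by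
    funext v
    rw [mul_comm]
  rw [e1, h4] at h2
  obtain ⟨J, _, m', ρ', b, h5, h6⟩ := (rd_pow (rd_chi hρ) n).expand
  have e2 : (fun v => ((r : ℂ) * conj (chi ρ (y v) * tw K τ v)) ^ n * conj (chi (dt π) (x v))) =
      fun v => conj (((r ^ n : ℝ) : ℂ) * ∑ j, (b j : ℂ) *
        (chi (dt π) (x v) * (chi (ρ' j) (y v) * tw K (n * τ) v))) := by
    funext v
    have e3 : ∑ j, (b j : ℂ) * (chi (dt π) (x v) * (chi (ρ' j) (y v) * tw K (n * τ) v)) =
        chi (dt π) (x v) * (chi ρ (y v) ^ n * tw K (n * τ) v) := by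
      rw [h6, Finset.sum_mul, Finset.mul_sum]
      exact Finset.sum_congr rfl fun j _ => by ring
    rw [e3, ← tw_pow]
    simp only [map_mul, map_pow, Complex.conj_ofReal]
    push_cast
    ring
  have b4 : ∀ j, Bc fun v => chi (dt π) (x v) * (chi (ρ' j) (y v) * tw K (n * τ) v) := fun j =>
    (bc_chi x _).mul ((bc_chi y _).mul (bc_tw _))
  have b5 : Bc fun v => ∑ j, (b j : ℂ) *
      (chi (dt π) (x v) * (chi (ρ' j) (y v) * tw K (n * τ) v)) :=
    Bc.sum _ fun j _ => (Bc.const _).mul (b4 j)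
  rw [e2, Mc_conj hN hU ((Bc.const _).mul b5), Mc_const_mul hN hU b5,
    Mc_sum hN hU _ fun j _ => (Bc.const _).mul (b4 j)] at h2
  have h7 := congrArg Complex.re h2
  rw [Complex.conj_re, Complex.re_ofReal_mul, Complex.re_sum, Complex.ofReal_re] at h7
  have h8 : ∃ j, (M (nm K) U fun v =>
      (chi (dt π) (x v) * (chi (ρ' j) (y v) * tw K (n * τ) v)).re) ≠ 0 := by
    by_contra hcon
    push Not at hcon
    have h9 : ∑ j, (Mc (nm K) U fun v => (b j : ℂ) *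
        (chi (dt π) (x v) * (chi (ρ' j) (y v) * tw K (n * τ) v))).re = 0 := by
      refine Finset.sum_eq_zero fun j _ => ?_
      rw [Mc_const_mul hN hU (b4 j), Complex.re_ofReal_mul, Mc_re, hcon j, mul_zero]
    rw [h9, mul_zero] at h7
    exact ha.ne h7
  obtain ⟨j, hj⟩ := h8
  have hd : ∃ g, dt π g ≠ 1 := by
    by_contra hcon
    push Not at hcon
    apply hj
    rw [← twist_zero hy (her_chi (h5 j).1) hn hU]
    congr 1
    funext v
    rw [chi_triv hcon]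
    simp
  refine ⟨⟨hcd, schur_one _, hd⟩, m' j, ρ' j, ⟨(h5 j).1, (h5 j).2, ?_⟩, hj⟩
  by_contra hcon
  push Not at hcon
  apply hj
  have e4 : (fun v => (chi (dt π) (x v) * (chi (ρ' j) (y v) * tw K (n * τ) v)).re) =
      fun v => (m' j : ℝ) * (chi (dt π) (x v) * tw K (n * τ) v).re := by
    funext v
    rw [chi_triv hcon, ← Complex.re_ofReal_mul]
    congr 1
    push_cast
    ring
  rw [e4, M_const_mul hN hU ((bc_chi x _).mul (bc_tw _)).re,
    twist_zero hx (her_chi hcd) hn hU, mul_zero]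

/-- infinite order -/
def Inf {L : Type} [Group L] (σ : L →* Matrix.unitaryGroup (Fin 1) ℂ) : Prop :=
  ∀ e : ℕ, 0 < e → ∃ g, σ g ^ e ≠ 1

theorem chi_pow_one {L : Type} [Group L] (σ : L →* Matrix.unitaryGroup (Fin 1) ℂ) (g : L) (e : ℕ)
    (h : σ g ^ e = 1) : chi σ g ^ e = 1 := by
  have h1 : ∀ A : Matrix (Fin 1) (Fin 1) ℂ, A.trace = A 0 0 := fun A => by simp [Matrix.trace]
  have h2 : ∀ k : ℕ, ((σ g : Matrix (Fin 1) (Fin 1) ℂ) ^ k) 0 0 =
      ((σ g : Matrix (Fin 1) (Fin 1) ℂ) 0 0) ^ k := by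
    intro k
    induction k with
    | zero => simp
    | succ k ih => rw [pow_succ, Matrix.mul_apply]; simp [ih, pow_succ]
  unfold chi
  rw [h1, ← h2]
  have h3 := congrArg (fun u : Matrix.unitaryGroup (Fin 1) ℂ => (u : Matrix (Fin 1) (Fin 1) ℂ)) h
  simp only [SubmonoidClass.coe_pow, OneMemClass.coe_one] at h3
  rw [h3]
  simp

/-- a nontrivial twist needs characters of infinite order -/
theorem inf_of_twist (hx : Law x μ) (hy : Law y ν) {σ : G →* Matrix.unitaryGroup (Fin 1) ℂ}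
    {σ' : H →* Matrix.unitaryGroup (Fin 1) ℂ} (hσ : Continuous σ) (hσ' : Continuous σ') {τ : ℝ}
    (hτ : τ ≠ 0) {r : ℝ} (hr : |r| = 1) {U : Ultrafilter ℝ} (hU : (U : Filter ℝ) ≤ 𝓝[>] 0)
    (hcl : Cl (nm K) U (fun v => chi σ (x v)) fun v => (r : ℂ) * conj (chi σ' (y v) * tw K τ v)) :
    Inf σ ∧ Inf σ' := by
  have hN := sysF K
  have b1 := bc_chi x σ
  have b2 : Bc fun v => (r : ℂ) * conj (chi σ' (y v) * tw K τ v) :=
    (Bc.const _).mul ((bc_chi y σ').mul (bc_tw τ)).conj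
  have hr0 : r ≠ 0 := by
    rintro rfl
    simp at hr
  constructor
  · intro e he
    by_contra hcon
    push Not at hcon
    have h0 : (e : ℝ) * τ ≠ 0 := mul_ne_zero (by exact_mod_cast he.ne') hτ
    have h1 := Cl.pow hN hU b1 b2 hcl e
    have h2 := Cl.mean hN hU (Bc.pow b1 e) (Bc.pow b2 e) h1
    have e1 : (fun v => chi σ (x v) ^ e) = fun _ => (1 : ℂ) := by
      funext v
      exact chi_pow_one σ _ e (hcon _)
    have e2 : (fun v => ((r : ℂ) * conj (chi σ' (y v) * tw K τ v)) ^ e) = fun v =>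
        conj (((r ^ e : ℝ) : ℂ) * ((fun h => chi σ' h ^ e) (y v) * tw K (e * τ) v)) := by
      funext v
      simp only [← tw_pow, map_mul, map_pow, Complex.conj_ofReal]
      push_cast
      ring
    have b3 : Bc fun v => (fun h => chi σ' h ^ e) (y v) * tw K (e * τ) v :=
      (Bc.pow (bc_chi y σ') e).mul (bc_tw _)
    rw [e1, e2, Mc_conj hN hU ((Bc.const _).mul b3), Mc_const_mul hN hU b3] at h2
    have h3 := congrArg Complex.re h2
    rw [Complex.conj_re, Complex.re_ofReal_mul, Mc_re, Mc_re,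
      twist_zero hy (her_pow (her_chi hσ') e) h0 hU, mul_zero] at h3
    rw [Complex.one_re, M_const hN hU] at h3
    exact one_ne_zero h3
  · intro e he
    by_contra hcon
    push Not at hcon
    have h0 : (e : ℝ) * τ ≠ 0 := mul_ne_zero (by exact_mod_cast he.ne') hτ
    have h1 := Cl.pow hN hU b1 b2 hcl e
    have b4 := bc_tw (K := K) (e * τ)
    have h2 := Cl.mean hN hU ((Bc.pow b1 e).mul b4) ((Bc.pow b2 e).mul b4)
      (Cl.mul_right hN hU (Bc.pow b1 e) (Bc.pow b2 e) b4 h1)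
    have e2 : (fun v => ((r : ℂ) * conj (chi σ' (y v) * tw K τ v)) ^ e * tw K (e * τ) v) =
        fun v => ((r ^ e : ℝ) : ℂ) := by
      funext v
      have h3 : chi σ' (y v) ^ e = 1 := chi_pow_one σ' _ e (hcon _)
      have h4 : conj (chi σ' (y v)) ^ e = 1 := by rw [← map_pow, h3, map_one]
      have h5 : conj (tw K τ v) ^ e * tw K (e * τ) v = 1 := by
        rw [← tw_pow, ← mul_pow, mul_comm, Complex.mul_conj']
        have : ‖tw K τ v‖ = 1 := norm_cpow_I (nm_pos v) τ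
        rw [this]
        simp
      rw [map_mul, mul_pow, mul_pow, h4, one_mul, mul_assoc, h5, mul_one]
      push_cast
      rfl
    rw [e2] at h2
    have h3 := congrArg Complex.re h2
    rw [Mc_re, Mc_re, twist_zero hx (her_pow (her_chi hσ) e) h0 hU] at h3
    simp only [Complex.ofReal_re] at h3
    rw [M_const hN hU] at h3
    exact pow_ne_zero e hr0 h3.symm

/-- **No zeros and poles outside `s = 1`.** -/
theorem ord_twist (hx : Law x μ) (hy : Law y ν)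
    (hord : ∀ (n m : ℕ) (π : G →* Matrix.unitaryGroup (Fin n) ℂ)
      (ρ : H →* Matrix.unitaryGroup (Fin m) ℂ), NI π → NI ρ → ∀ τ : ℝ, ∃ k : ℤ, Ord x y π ρ τ k)
    (h1 : ∀ (σ : G →* Matrix.unitaryGroup (Fin 1) ℂ) (σ' : H →* Matrix.unitaryGroup (Fin 1) ℂ),
      NI σ → NI σ' → Inf σ → Inf σ' → ∀ τ : ℝ, τ ≠ 0 → Ord x y σ σ' τ 0)
    (hπ : NI π) (hρ : NI ρ) {τ : ℝ} (hτ : τ ≠ 0) {k : ℤ} (hk : Ord x y π ρ τ k) : k = 0 := by
  by_contra h0
  obtain ⟨-, -, h2⟩ := hk.edge hx hy hπ hρ h0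
  obtain ⟨U, hU⟩ := Ultrafilter.exists_le (𝓝[>] (0 : ℝ))
  obtain ⟨h3, m', ρ', h4, h5⟩ := det_twist hx hy hπ hρ.cont hτ hU (h2 U hU)
  have hn : (n : ℝ) * τ ≠ 0 := mul_ne_zero (by exact_mod_cast hπ.pos) hτ
  obtain ⟨l, hl⟩ := hord 1 m' (dt π) ρ' h3 h4 (n * τ)
  have hl0 : l ≠ 0 := by
    rintro rfl
    apply h5
    rw [hl.mean hU]
    simp
  obtain ⟨h6, h7, h8⟩ := hl.edge hx hy h3 h4 hl0
  have hm : 1 = m' := dim_eq h3.cont h4.cont h7
  subst hm
  have h9 := inf_of_twist (r := -(l : ℝ)) hx hy h3.cont h4.cont hn (by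
    rw [abs_neg]
    exact_mod_cast h6) hU (h8 U hU)
  have h10 := h1 _ _ h3 h4 h9.1 h9.2 _ hn
  have h11 := tendsto_nhds_unique hl h10
  apply hl0
  have : (l : ℝ) = ((0 : ℤ) : ℝ) := by linarith
  exact_mod_cast this

end

end Pool.Agent.HX6.GO
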